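import Pool.Agent.Helper11.EP.Orth

/-! # Smooth perturbations which align the blocks of an exponential sum -/

set_option autoImplicit false

namespace Pool.Agent.Helper11.EP

open Finset

/-- a bump with support in `[1/8, 7/8]`, equal to one on `[1/4, 3/4]` -/
noncomputable def chi (x : ℝ) : ℝ := Real.smoothTransition (8 * x - 1) * Real.smoothTransition (7 - 8 * x)

lemma chi_contDiff : ContDiff ℝ (⊤ : ℕ∞) chi := by
  unfold chi
  refine ContDiff.mul ?_ ?_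
  · exact Real.smoothTransition.contDiff.comp (by fun_prop)
  · exact Real.smoothTransition.contDiff.comp (by fun_prop)

lemma chi_one {x : ℝ} (h1 : 1 / 4 ≤ x) (h2 : x ≤ 3 / 4) : chi x = 1 := by
  unfold chi
  rw [Real.smoothTransition.one_of_one_le (by linarith), Real.smoothTransition.one_of_one_le (by linarith),
    mul_one]

lemma chi_zero {x : ℝ} (h : x ≤ 1 / 8 ∨ 7 / 8 ≤ x) : chi x = 0 := by
  unfold chi
  rcases h with h | h
  · rw [Real.smoothTransition.zero_of_nonpos (by linarith), zero_mul]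
  · rw [Real.smoothTransition.zero_of_nonpos (x := 7 - 8 * x) (by linarith), mul_zero]

lemma chi_deriv_zero (j : ℕ) {x : ℝ} (h : x ≤ 0 ∨ 1 ≤ x) : iteratedDeriv j chi x = 0 := by
  have h1 : chi =ᶠ[nhds x] fun _ => (0 : ℝ) := by
    rcases h with h | h
    · filter_upwards [Iio_mem_nhds (show x < 1 / 8 by linarith)] with y hy
      exact chi_zero (Or.inl (le_of_lt hy))
    · filter_upwards [Ioi_mem_nhds (show 7 / 8 < x by linarith)] with y hy
      exact chi_zero (Or.inr (le_of_lt hy))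
  rw [h1.iteratedDeriv_eq j]
  simp [iteratedDeriv_const]

lemma chi_bound (j : ℕ) : ∃ C : ℝ, 0 ≤ C ∧ ∀ x, |iteratedDeriv j chi x| ≤ C := by
  have hc : Continuous (iteratedDeriv j chi) :=
    chi_contDiff.continuous_iteratedDeriv j (by exact_mod_cast le_top)
  obtain ⟨C, hC⟩ := (isCompact_Icc (a := (0 : ℝ)) (b := 1)).exists_bound_of_continuousOn hc.continuousOn
  refine ⟨max C 0, le_max_right _ _, fun x => ?_⟩
  by_cases hx : x ∈ Set.Icc (0 : ℝ) 1
  · exact (hC x hx).trans (le_max_left _ _)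
  · rw [Set.mem_Icc, not_and_or, not_le, not_le] at hx
    rw [chi_deriv_zero j (hx.imp le_of_lt le_of_lt), abs_zero]
    exact le_max_right _ _

/-- the perturbation -/
noncomputable def pert (N H : ℕ) (α β : ℝ) (T : Finset ℕ) (x : ℝ) : ℝ :=
  (α * x ^ 1 + β * x ^ 2) + (1 / 2) * ∑ i ∈ T, chi ((1 / (H : ℝ)) * (x - N) - i)

lemma block_contDiff (N H : ℕ) (i : ℕ) :
    ContDiff ℝ (⊤ : ℕ∞) (fun x : ℝ => chi ((1 / (H : ℝ)) * (x - N) - i)) :=
  chi_contDiff.comp (by fun_prop)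

lemma pert_contDiff (N H : ℕ) (α β : ℝ) (T : Finset ℕ) : ContDiff ℝ (⊤ : ℕ∞) (pert N H α β T) := by
  unfold pert
  refine ContDiff.add (by fun_prop) ?_
  refine ContDiff.mul contDiff_const ?_
  exact ContDiff.sum fun i _ => block_contDiff N H i

lemma block_deriv (N H : ℕ) (i j : ℕ) (x : ℝ) :
    iteratedDeriv j (fun x : ℝ => chi ((1 / (H : ℝ)) * (x - N) - i)) x =
      (1 / (H : ℝ)) ^ j * iteratedDeriv j chi ((1 / (H : ℝ)) * (x - N) - i) := by
  have h1 := iteratedDeriv_comp_sub_const j (fun y : ℝ => chi ((1 / (H : ℝ)) * y - i)) (N : ℝ)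
  rw [congrFun h1 x]
  have hcd : ContDiff ℝ j (fun y : ℝ => chi (y - i)) :=
    (chi_contDiff.comp (by fun_prop)).of_le (by exact_mod_cast le_top)
  have h2 := iteratedDeriv_comp_const_mul hcd (1 / (H : ℝ))
  rw [congrFun h2 (x - N)]
  have h3 := iteratedDeriv_comp_sub_const j chi (i : ℝ)
  rw [congrFun h3 _]

lemma floor_unique {y : ℝ} {i : ℕ} (h1 : 0 < y - i) (h2 : y - i < 1) : ⌊y⌋₊ = i := by
  have hi : (0 : ℝ) ≤ i := by positivity
  rw [Nat.floor_eq_iff (by linarith)]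
  constructor <;> linarith

lemma sum_single_bound (f : ℝ → ℝ) (hf : ∀ x : ℝ, x ≤ 0 ∨ 1 ≤ x → f x = 0) (C : ℝ) (hC : 0 ≤ C)
    (hfC : ∀ x, |f x| ≤ C) (T : Finset ℕ) (y : ℝ) : |∑ i ∈ T, f (y - i)| ≤ C := by
  have h1 : ∀ i ∈ T, i ≠ ⌊y⌋₊ → f (y - i) = 0 := by
    intro i _ hi
    apply hf
    by_contra h
    push Not at h
    exact hi (floor_unique h.1 h.2).symm
  by_cases h2 : ⌊y⌋₊ ∈ T
  · rw [sum_eq_single_of_mem _ h2 h1]
    exact hfC _
  · rw [sum_eq_zero (fun i hi => h1 i hi (fun h => h2 (h ▸ hi))), abs_zero]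
    exact hC

lemma quad_deriv (α β : ℝ) (j : ℕ) (x : ℝ) :
    iteratedDeriv j (fun x : ℝ => α * x ^ 1 + β * x ^ 2) x =
      α * ((Nat.descFactorial 1 j : ℕ) * x ^ (1 - j)) + β * ((Nat.descFactorial 2 j : ℕ) * x ^ (2 - j)) := by
  rw [iteratedDeriv_fun_add (by fun_prop) (by fun_prop), iteratedDeriv_const_mul_field,
    iteratedDeriv_const_mul_field, iteratedDeriv_pow, iteratedDeriv_pow]

lemma quad_bound {N : ℕ} (hN : 1 ≤ N) {α β : ℝ} (hα : 0 ≤ α) (hα1 : α ≤ 1) (hβ : 0 ≤ β) (hβ1 : β ≤ 1)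
    (j : ℕ) {x : ℝ} (hx0 : 0 ≤ x) (hx : x ≤ 2 * N) :
    |iteratedDeriv j (fun x : ℝ => α * x ^ 1 + β * x ^ 2) x| ≤ 6 * (N : ℝ) ^ 2 / (N : ℝ) ^ j := by
  have hN' : (1 : ℝ) ≤ N := by exact_mod_cast hN
  rw [quad_deriv]
  rcases j with _ | _ | _ | j
  · simp only [Nat.descFactorial_zero, Nat.cast_one, one_mul, Nat.sub_zero, pow_zero, div_one, pow_one]
    rw [abs_of_nonneg (by positivity)]
    have h1 : α * x ≤ 1 * (2 * N) := by gcongr
    have h2 : β * x ^ 2 ≤ 1 * (2 * N) ^ 2 := by gcongr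
    nlinarith
  · simp only [zero_add, Nat.descFactorial_one, Nat.cast_one, one_mul, Nat.sub_self, pow_zero, mul_one,
      pow_one, Nat.cast_ofNat]
    norm_num
    rw [abs_of_nonneg (by positivity)]
    have h2 : β * (2 * x) ≤ 1 * (2 * (2 * N)) := by gcongr
    rw [le_div_iff₀ (by positivity)]
    nlinarith
  · have e1 : Nat.descFactorial 1 (0 + 1 + 1) = 0 := by decide
    have e2 : Nat.descFactorial 2 (0 + 1 + 1) = 2 := by decide
    rw [e1, e2]
    norm_num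
    rw [abs_of_nonneg (by positivity)]
    rw [le_div_iff₀ (by positivity)]
    nlinarith [sq_nonneg (N : ℝ)]
  · have e1 : Nat.descFactorial 1 (j + 1 + 1 + 1) = 0 := Nat.descFactorial_of_lt (by omega)
    have e2 : Nat.descFactorial 2 (j + 1 + 1 + 1) = 0 := Nat.descFactorial_of_lt (by omega)
    rw [e1, e2]
    simp
    positivity

lemma pert_bound {N H : ℕ} (hN : 1 ≤ N) (hH : 1 ≤ H) {α β : ℝ} (hα : 0 ≤ α) (hα1 : α ≤ 1) (hβ : 0 ≤ β)
    (hβ1 : β ≤ 1) (T : Finset ℕ) (j : ℕ) {C : ℝ} (hC0 : 0 ≤ C) (hC : ∀ x, |iteratedDeriv j chi x| ≤ C)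
    {x : ℝ} (hx0 : 0 ≤ x) (hx : x ≤ 2 * N) :
    |iteratedDeriv j (pert N H α β T) x| ≤ 6 * (N : ℝ) ^ 2 / (N : ℝ) ^ j + C / (2 * (H : ℝ) ^ j) := by
  have e0 : pert N H α β T = fun x => (fun x : ℝ => α * x ^ 1 + β * x ^ 2) x +
      (fun x : ℝ => (1 / 2) * ∑ i ∈ T, chi ((1 / (H : ℝ)) * (x - N) - i)) x := rfl
  have hs : ∀ i ∈ T, ContDiffAt ℝ j (fun x : ℝ => chi ((1 / (H : ℝ)) * (x - N) - i)) x := fun i _ =>
    ((block_contDiff N H i).of_le (by exact_mod_cast le_top)).contDiffAt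
  rw [e0, iteratedDeriv_fun_add (by fun_prop)
    (ContDiffAt.mul contDiffAt_const (ContDiffAt.sum hs)), iteratedDeriv_const_mul_field,
    iteratedDeriv_fun_sum hs]
  simp only [block_deriv]
  rw [← mul_sum]
  refine (abs_add_le _ _).trans (add_le_add (quad_bound hN hα hα1 hβ hβ1 j hx0 hx) ?_)
  have hH' : (0 : ℝ) < H := by exact_mod_cast hH
  rw [abs_mul, abs_mul, abs_of_nonneg (by norm_num : (0 : ℝ) ≤ 1 / 2),
    abs_of_nonneg (by positivity : (0 : ℝ) ≤ (1 / (H : ℝ)) ^ j)]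
  have h1 := sum_single_bound (iteratedDeriv j chi) (fun x hx => chi_deriv_zero j hx) C hC0 hC T
    ((1 / (H : ℝ)) * (x - N))
  calc 1 / 2 * ((1 / (H : ℝ)) ^ j * |∑ i ∈ T, iteratedDeriv j chi (1 / (H : ℝ) * (x - N) - i)|) ≤
        1 / 2 * ((1 / (H : ℝ)) ^ j * C) := by gcongr
    _ = _ := by rw [one_div_pow]; field_simp

/-- the weight -/
noncomputable def wt (N H i n : ℕ) : ℂ := 1 - e (chi ((1 / (H : ℝ)) * ((n : ℝ) - N) - i) / 2)

lemma wt_sum (N H : ℕ) (T : Finset ℕ) (n : ℕ) :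
    1 - e ((1 / 2) * ∑ i ∈ T, chi ((1 / (H : ℝ)) * ((n : ℝ) - N) - i)) = ∑ i ∈ T, wt N H i n := by
  set y := (1 / (H : ℝ)) * ((n : ℝ) - N) with hy
  have h1 : ∀ i ∈ T, i ≠ ⌊y⌋₊ → chi (y - i) = 0 := by
    intro i _ hi
    apply chi_zero
    by_contra h
    push Not at h
    exact hi (floor_unique (by linarith [h.1]) (by linarith [h.2])).symm
  have h2 : ∀ i ∈ T, i ≠ ⌊y⌋₊ → wt N H i n = 0 := by
    intro i hi hi'
    unfold wt
    rw [← hy, h1 i hi hi']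
    simp [e_zero]
  by_cases h3 : ⌊y⌋₊ ∈ T
  · rw [sum_eq_single_of_mem _ h3 h1, sum_eq_single_of_mem _ h3 h2]
    unfold wt
    rw [← hy]
    congr 2
    ring
  · rw [sum_eq_zero (fun i hi => h1 i hi (fun h => h3 (h ▸ hi))),
      sum_eq_zero (fun i hi => h2 i hi (fun h => h3 (h ▸ hi)))]
    simp [e_zero]

lemma wt_mass {N h i : ℕ} (hh : 1 ≤ h) (hi : (i + 1) * (4 * h) ≤ N) :
    (8 * h : ℝ) ≤ ∑ n ∈ Icc N (2 * N), ‖wt N (4 * h) i n‖ ^ 2 := by
  have hh' : (0 : ℝ) < h := by exact_mod_cast hh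
  have h1 : (Icc (N + i * (4 * h) + h) (N + i * (4 * h) + 3 * h)) ⊆ Icc N (2 * N) := by
    intro n hn
    rw [mem_Icc] at hn ⊢
    constructor
    · omega
    · nlinarith [hn.2]
  calc (8 * h : ℝ) ≤ ∑ n ∈ Icc (N + i * (4 * h) + h) (N + i * (4 * h) + 3 * h), (4 : ℝ) := by
        rw [sum_const, Nat.card_Icc, nsmul_eq_mul]
        have : N + i * (4 * h) + 3 * h + 1 - (N + i * (4 * h) + h) = 2 * h + 1 := by omega
        rw [this]
        push_cast
        linarith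
    _ = ∑ n ∈ Icc (N + i * (4 * h) + h) (N + i * (4 * h) + 3 * h), ‖wt N (4 * h) i n‖ ^ 2 := by
        refine sum_congr rfl fun n hn => ?_
        rw [mem_Icc] at hn
        have hn1 : (N : ℝ) + i * (4 * h) + h ≤ n := by exact_mod_cast hn.1
        have hn2 : (n : ℝ) ≤ N + i * (4 * h) + 3 * h := by exact_mod_cast hn.2
        have e1 : (1 / ((4 * h : ℕ) : ℝ)) * ((n : ℝ) - N) - i = ((n : ℝ) - N - i * (4 * h)) / (4 * h) := by
          push_cast
          field_simp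
        unfold wt
        rw [e1, chi_one, e_half]
        · norm_num
        · rw [le_div_iff₀ (by positivity)]; linarith
        · rw [div_le_iff₀ (by positivity)]; linarith
    _ ≤ _ := sum_le_sum_of_subset_of_nonneg h1 fun _ _ _ => by positivity

/-- **Master lemma.** -/
theorem master {N h : ℕ} (hh : 1 ≤ h) (hN : 4 * h ≤ N) (g : ℕ → ℝ) :
    ∃ α β : ℝ, 0 ≤ α ∧ α ≤ 1 ∧ 0 ≤ β ∧ β ≤ 1 ∧ ∃ T : Finset ℕ,
      (N : ℝ) / (100 * Real.sqrt h) ≤
        ‖∑ n ∈ Icc N (2 * N), e (g n + pert N (4 * h) α β T n)‖ := by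
  have hN1 : 1 ≤ N := by omega
  set M : ℕ := 8 * N ^ 2 + 1 with hM
  have hM0 : (0 : ℝ) < M := by positivity
  set I : ℕ := N / (4 * h) with hI
  have hI1 : I * (4 * h) ≤ N := Nat.div_mul_le_self _ _
  have hI2 : N < (I + 1) * (4 * h) := by
    have := Nat.lt_div_mul_add (a := N) (b := 4 * h) (by omega)
    rw [← hI] at this
    linarith
  have hI3 : 1 ≤ I := by
    rw [hI, Nat.one_le_div_iff (by omega)]; exact hN
  -- coefficients
  set c : ℕ → ℕ → ℂ := fun i n => e (g n) * wt N (4 * h) i n with hc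
  set D : ℕ → ℕ → ℕ → ℂ := fun i a b => ∑ n ∈ Icc N (2 * N),
    c i n * e (((a : ℝ) * n + (b : ℝ) * (n : ℝ) ^ 2) / M) with hD
  have hmom : ∀ i ∈ range I, (M : ℝ) ^ 2 * Real.sqrt (8 * h) ≤
      4 * ∑ a ∈ range M, ∑ b ∈ range M, ‖D i a b‖ := by
    intro i hi
    rw [mem_range] at hi
    have h1 := mom1 (Icc N (2 * N)) (c i) (2 * N) M (fun n hn => (mem_Icc.1 hn).2) (by rw [hM]; nlinarith)
    refine le_trans ?_ h1
    have h2 : (8 * h : ℝ) ≤ ∑ n ∈ Icc N (2 * N), ‖c i n‖ ^ 2 := by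
      refine (wt_mass (N := N) (i := i) hh ?_).trans (le_of_eq ?_)
      · calc (i + 1) * (4 * h) ≤ I * (4 * h) := Nat.mul_le_mul_right _ hi
          _ ≤ N := hI1
      · refine sum_congr rfl fun n _ => ?_
        rw [hc]
        simp only [norm_mul, norm_e, one_mul]
    gcongr
  -- choice of `a`, `b`
  obtain ⟨q, hq, hqq⟩ : ∃ q ∈ range M ×ˢ range M, (I : ℝ) * Real.sqrt (8 * h) ≤
      4 * ∑ i ∈ range I, ‖D i q.1 q.2‖ := by
    apply exists_le_of_sum_le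
    · exact ⟨(0, 0), by simp [hM]⟩
    · rw [sum_const, card_product, card_range, nsmul_eq_mul, ← mul_sum, sum_product]
      push_cast
      have h1 : ∑ a ∈ range M, ∑ b ∈ range M, ∑ i ∈ range I, ‖D i a b‖ =
          ∑ i ∈ range I, ∑ a ∈ range M, ∑ b ∈ range M, ‖D i a b‖ := by
        rw [sum_congr rfl fun a _ => sum_comm]
        rw [sum_comm]
      rw [h1, mul_sum]
      calc (M : ℝ) * M * (I * Real.sqrt (8 * h)) = ∑ i ∈ range I, (M : ℝ) ^ 2 * Real.sqrt (8 * h) := by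
            rw [sum_const, card_range, nsmul_eq_mul]; ring
        _ ≤ _ := sum_le_sum hmom
  obtain ⟨a, b⟩ := q
  simp only at hqq
  rw [mem_product, mem_range, mem_range] at hq
  obtain ⟨T, hT, hTT⟩ := subset_sum (range I) (fun i => D i a b)
  -- the two totals
  set tot : Finset ℕ → ℂ := fun T => ∑ n ∈ Icc N (2 * N),
    e (g n + pert N (4 * h) (a / M) (b / M) T n) with htot
  have hdiff : tot ∅ - tot T = ∑ i ∈ T, D i a b := by
    rw [htot, hD, hc]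
    simp only
    rw [← sum_sub_distrib, sum_comm]
    refine sum_congr rfl fun n _ => ?_
    have e1 : pert N (4 * h) (a / M) (b / M) ∅ n = ((a : ℝ) * n + (b : ℝ) * (n : ℝ) ^ 2) / M := by
      unfold pert
      simp only [sum_empty, mul_zero, add_zero, pow_one]
      ring
    have e2 : pert N (4 * h) (a / M) (b / M) T n = ((a : ℝ) * n + (b : ℝ) * (n : ℝ) ^ 2) / M +
        (1 / 2) * ∑ i ∈ T, chi ((1 / ((4 * h : ℕ) : ℝ)) * ((n : ℝ) - N) - i) := by
      unfold pert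
      simp only [pow_one]
      ring
    rw [e1, e2, ← add_assoc, e_add (g n + _), e_add (g n)]
    have e3 : e (g n) * e (((a : ℝ) * n + (b : ℝ) * (n : ℝ) ^ 2) / M) -
        e (g n) * e (((a : ℝ) * n + (b : ℝ) * (n : ℝ) ^ 2) / M) *
          e ((1 / 2) * ∑ i ∈ T, chi ((1 / ((4 * h : ℕ) : ℝ)) * ((n : ℝ) - N) - i)) =
        e (g n) * e (((a : ℝ) * n + (b : ℝ) * (n : ℝ) ^ 2) / M) *
          (1 - e ((1 / 2) * ∑ i ∈ T, chi ((1 / ((4 * h : ℕ) : ℝ)) * ((n : ℝ) - N) - i))) := by ring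
    rw [e3, wt_sum, mul_sum]
    refine sum_congr rfl fun i _ => ?_
    ring
  have hbig : (I : ℝ) * Real.sqrt (8 * h) ≤ 16 * (‖tot ∅‖ + ‖tot T‖) := by
    have h1 : ‖∑ i ∈ T, D i a b‖ ≤ ‖tot ∅‖ + ‖tot T‖ := by
      rw [← hdiff]; exact norm_sub_le _ _
    linarith
  have hsq0 : 0 < Real.sqrt h := Real.sqrt_pos.2 (by exact_mod_cast hh)
  have hlow : 32 * ((N : ℝ) / (100 * Real.sqrt h)) ≤ (I : ℝ) * Real.sqrt (8 * h) := by
    have h1 : (N : ℝ) ≤ 2 * (I * (4 * h)) := by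
      have h2 : N ≤ 2 * (I * (4 * h)) := by nlinarith
      exact_mod_cast h2
    have h3 : Real.sqrt (8 * h) = Real.sqrt 8 * Real.sqrt h := Real.sqrt_mul (by norm_num) _
    have h4 : (2.8 : ℝ) ≤ Real.sqrt 8 := by
      apply Real.le_sqrt_of_sq_le; norm_num
    have h5 : Real.sqrt h * Real.sqrt h = h := Real.mul_self_sqrt (by positivity)
    rw [← mul_div_assoc, div_le_iff₀ (by positivity), h3]
    have h6 : (I : ℝ) * (Real.sqrt 8 * Real.sqrt h) * (100 * Real.sqrt h) =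
        100 * Real.sqrt 8 * I * (Real.sqrt h * Real.sqrt h) := by ring
    rw [h6, h5]
    have h7 : (0 : ℝ) ≤ I * h := by positivity
    nlinarith
  have hab : (0 : ℝ) ≤ (a : ℝ) / M ∧ (a : ℝ) / M ≤ 1 ∧ (0 : ℝ) ≤ (b : ℝ) / M ∧ (b : ℝ) / M ≤ 1 := by
    have h1 : (a : ℝ) ≤ M := by exact_mod_cast hq.1.le
    have h2 : (b : ℝ) ≤ M := by exact_mod_cast hq.2.le
    refine ⟨by positivity, ?_, by positivity, ?_⟩
    · rw [div_le_one hM0]; exact h1
    · rw [div_le_one hM0]; exact h2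
  by_cases hcase : (N : ℝ) / (100 * Real.sqrt h) ≤ ‖tot ∅‖
  · exact ⟨a / M, b / M, hab.1, hab.2.1, hab.2.2.1, hab.2.2.2, ∅, hcase⟩
  · refine ⟨a / M, b / M, hab.1, hab.2.1, hab.2.2.1, hab.2.2.2, T, ?_⟩
    rw [not_le] at hcase
    have : (N : ℝ) / (100 * Real.sqrt h) ≤ ‖tot T‖ := by linarith
    exact this

end Pool.Agent.Helper11.EP
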