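import Pool.Agent.Helper11.EP.Orth

/-! # Moments over short ranges of the quadratic coefficient -/

set_option autoImplicit false

namespace Pool.Agent.Helper11.EP

open Finset

lemma norm_e_sub_one {t : ℝ} (ht : |t| ≤ 1 / 2) : 4 * |t| ≤ ‖e t - 1‖ := by
  have h1 : e t = Complex.exp (Complex.I * ((2 * Real.pi * t : ℝ) : ℂ)) := by
    unfold e
    congr 1
    push_cast
    ring
  rw [h1, Complex.norm_exp_I_mul_ofReal_sub_one, norm_mul]
  have h2 : 2 * Real.pi * t / 2 = Real.pi * t := by ring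
  rw [h2]
  have h3 : 2 * |t| ≤ |Real.sin (Real.pi * t)| := by
    have hpi := Real.pi_pos
    rcases le_total 0 t with h | h
    · rw [abs_of_nonneg h] at ht ⊢
      have h4 := Real.mul_le_sin (x := Real.pi * t) (by positivity) (by nlinarith)
      have h5 : 2 / Real.pi * (Real.pi * t) = 2 * t := by field_simp
      rw [h5] at h4
      exact h4.trans (le_abs_self _)
    · rw [abs_of_nonpos h] at ht ⊢
      have h4 := Real.mul_le_sin (x := Real.pi * (-t)) (by nlinarith) (by nlinarith)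
      have h5 : 2 / Real.pi * (Real.pi * (-t)) = 2 * (-t) := by field_simp
      have h6 : Real.sin (Real.pi * -t) = - Real.sin (Real.pi * t) := by rw [mul_neg, Real.sin_neg]
      rw [h5, h6] at h4
      exact h4.trans (neg_le_abs _)
  simp only [Real.norm_eq_abs, Nat.abs_ofNat]
  linarith

lemma geo_bound (J : ℕ) {t : ℝ} (ht0 : t ≠ 0) (ht : |t| ≤ 1 / 2) :
    ‖∑ j ∈ range J, e ((j : ℝ) * t)‖ ≤ 1 / (2 * |t|) := by
  have h1 : ∑ j ∈ range J, e ((j : ℝ) * t) = ∑ j ∈ range J, e t ^ j :=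
    sum_congr rfl fun j _ => e_pow t j
  have h2 := geom_sum_mul (e t) J
  have h3 : ‖(∑ j ∈ range J, e t ^ j) * (e t - 1)‖ ≤ 2 := by
    rw [h2]
    refine (norm_sub_le _ _).trans ?_
    rw [norm_pow, norm_e, one_pow, norm_one]
    norm_num
  rw [norm_mul] at h3
  have h4 := norm_e_sub_one ht
  have h5 : 0 < |t| := abs_pos.2 ht0
  rw [h1, le_div_iff₀ (by positivity)]
  have h6 : 0 ≤ ‖∑ j ∈ range J, e t ^ j‖ := norm_nonneg _
  nlinarith

lemma jsum {J : ℕ} (hJ : 0 < J) {b : ℝ} (hb : 0 < b) {v : ℤ} (hv : v ≠ 0) (hvJ : 2 * (b * |(v : ℝ)|) ≤ J) :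
    ‖∑ j ∈ range J, e ((j : ℝ) * (b / J * v))‖ ≤ J * (1 / (2 * b * |(v : ℝ)|)) := by
  have hJ' : (0 : ℝ) < J := by exact_mod_cast hJ
  have hv' : (v : ℝ) ≠ 0 := by exact_mod_cast hv
  have hv0 : 0 < |(v : ℝ)| := abs_pos.2 hv'
  have h1 : |b / J * v| = b * |(v : ℝ)| / J := by
    rw [abs_mul, abs_div, abs_of_pos hb, abs_of_pos hJ']; ring
  refine (geo_bound J (by positivity) ?_).trans (le_of_eq ?_)
  · rw [h1, div_le_iff₀ hJ']; linarith
  · rw [h1]; field_simp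

/-- Parseval -/
lemma pars1 {ι : Type} (S : Finset ι) (c : ι → ℂ) (u : ι → ℤ) (M : ℕ) (hM : 0 < M)
    (hu : ∀ s ∈ S, ∀ t ∈ S, |u s - u t| < M) :
    ((∑ a ∈ range M, ‖∑ s ∈ S, c s * e ((a : ℝ) * u s / M)‖ ^ 2 : ℝ) : ℂ) =
    (M : ℂ) * ∑ s ∈ S, ∑ t ∈ S, if u s = u t then c s * (starRingEnd ℂ) (c t) else 0 := by
  have h1 : ∀ a : ℕ, ((‖∑ s ∈ S, c s * e ((a : ℝ) * u s / M)‖ ^ 2 : ℝ) : ℂ) =
      ∑ s ∈ S, ∑ t ∈ S, (c s * (starRingEnd ℂ) (c t)) * e ((a : ℝ) * ((u s - u t : ℤ) : ℝ) / M) := by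
    intro a
    push_cast
    rw [← Complex.mul_conj', map_sum, sum_mul_sum]
    refine sum_congr rfl fun s _ => sum_congr rfl fun t _ => ?_
    rw [map_mul, conj_e, mul_mul_mul_comm, ← e_add]
    congr 2
    ring
  push_cast
  simp only [← Complex.ofReal_pow]
  rw [sum_congr rfl fun a _ => h1 a, sum_comm, mul_sum]
  refine sum_congr rfl fun s hs => ?_
  rw [sum_comm, mul_sum]
  refine sum_congr rfl fun t ht => ?_
  rw [← mul_sum, orth M hM _ (hu s hs t ht)]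
  by_cases h3 : u s = u t
  · simp [h3]; ring
  · simp [h3, sub_eq_zero]

/-- second moment -/
lemma mom2' (S : Finset ℕ) (c : ℕ → ℂ) (X M J : ℕ) (hX : ∀ n ∈ S, n ≤ X) (hM : X < M) (θ : ℕ → ℝ) :
    ∑ j ∈ range J, ∑ a ∈ range M,
      ‖∑ n ∈ S, (c n * e (θ j * (n : ℝ) ^ 2)) * e ((a : ℝ) * ((n : ℤ) : ℝ) / M)‖ ^ 2 =
    (J : ℝ) * M * ∑ n ∈ S, ‖c n‖ ^ 2 := by
  have hM0 : 0 < M := by omega
  have hb : ∀ s ∈ S, (0 : ℤ) ≤ s ∧ (s : ℤ) ≤ X := fun s hs => ⟨by positivity, by exact_mod_cast hX s hs⟩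
  have hMZ : (X : ℤ) < M := by exact_mod_cast hM
  have h1 : ∀ j ∈ range J, ∑ a ∈ range M,
      ‖∑ n ∈ S, (c n * e (θ j * (n : ℝ) ^ 2)) * e ((a : ℝ) * ((n : ℤ) : ℝ) / M)‖ ^ 2 =
      M * ∑ n ∈ S, ‖c n‖ ^ 2 := by
    intro j _
    have h := pars1 S (fun n => c n * e (θ j * (n : ℝ) ^ 2)) (fun n => (n : ℤ)) M hM0
      (fun s hs t ht => by
        have h1 := hb s hs
        have h2 := hb t ht
        simp only [abs_lt]
        constructor <;> linarith)
    have h5 : ((∑ a ∈ range M,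
        ‖∑ n ∈ S, (c n * e (θ j * (n : ℝ) ^ 2)) * e ((a : ℝ) * ((n : ℤ) : ℝ) / M)‖ ^ 2 : ℝ) : ℂ) =
        ((M * ∑ n ∈ S, ‖c n‖ ^ 2 : ℝ) : ℂ) := by
      rw [h]
      push_cast
      congr 1
      refine sum_congr rfl fun s hs => ?_
      rw [sum_eq_single s]
      · simp only [if_true]
        rw [Complex.mul_conj', norm_mul, norm_e, mul_one]
      · intro t _ hts
        rw [if_neg]
        intro h6
        exact hts (by exact_mod_cast h6.symm)
      · intro h6; exact absurd hs h6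
    exact_mod_cast h5
  rw [sum_congr rfl h1, sum_const, card_range, nsmul_eq_mul]
  ring

/-- the inverse distance -/
noncomputable def dd (n m : ℕ) : ℝ := if n = m then 0 else 1 / |(n : ℝ) - m|

lemma dd_nonneg (n m : ℕ) : 0 ≤ dd n m := by
  unfold dd; split_ifs <;> positivity

lemma dd_sum (A H n : ℕ) (hn : n ∈ Ico A (A + H)) :
    ∑ m ∈ Ico A (A + H), dd n m ≤ 2 * (1 + Real.log H) := by
  rw [mem_Ico] at hn
  have hH : 1 ≤ H := by omega
  have hsplit : Ico A (A + H) = Ico A n ∪ Ico n (A + H) := (Ico_union_Ico_eq_Ico hn.1 hn.2.le).symm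
  have hharm : ∑ m ∈ range H, 1 / ((m : ℝ) + 1) ≤ 1 + Real.log H := by
    have h1 := harmonic_le_one_add_log H
    have h2 : ((harmonic H : ℚ) : ℝ) = ∑ m ∈ range H, 1 / ((m : ℝ) + 1) := by
      unfold harmonic
      push_cast
      simp [one_div]
    rwa [h2] at h1
  have h1 : ∑ m ∈ Ico A n, dd n m ≤ ∑ m ∈ range H, 1 / ((m : ℝ) + 1) := by
    calc ∑ m ∈ Ico A n, dd n m = ∑ m ∈ Ico A n, 1 / (((n - 1 - m : ℕ) : ℝ) + 1) := by
          refine sum_congr rfl fun m hm => ?_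
          rw [mem_Ico] at hm
          unfold dd
          rw [if_neg (by omega)]
          have h2 : ((n - 1 - m : ℕ) : ℝ) + 1 = (n : ℝ) - m := by
            have : n = (n - 1 - m) + 1 + m := by omega
            have h3 : (n : ℝ) = ((n - 1 - m : ℕ) : ℝ) + 1 + m := by exact_mod_cast this
            linarith
          have h4 : (m : ℝ) < n := by exact_mod_cast hm.2
          rw [h2, abs_of_pos (by linarith)]
      _ = ∑ i ∈ (Ico A n).image (fun m => n - 1 - m), 1 / ((i : ℝ) + 1) := by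
          rw [sum_image]
          intro x hx y hy hxy
          simp only [coe_Ico, Set.mem_Ico] at hx hy
          simp only at hxy
          omega
      _ ≤ _ := by
          refine sum_le_sum_of_subset_of_nonneg ?_ fun _ _ _ => by positivity
          intro i hi
          rw [mem_image] at hi
          obtain ⟨m, hm, rfl⟩ := hi
          rw [mem_Ico] at hm
          rw [mem_range]
          omega
  have h2 : ∑ m ∈ Ico n (A + H), dd n m ≤ ∑ m ∈ range H, 1 / ((m : ℝ) + 1) := by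
    calc ∑ m ∈ Ico n (A + H), dd n m = ∑ m ∈ Ico (n + 1) (A + H), dd n m := by
          rw [← sum_Ioo_add_eq_sum_Ico hn.2]
          have : dd n n = 0 := by unfold dd; simp
          rw [this, add_zero]
          congr 1
      _ = ∑ m ∈ Ico (n + 1) (A + H), 1 / (((m - (n + 1) : ℕ) : ℝ) + 1) := by
          refine sum_congr rfl fun m hm => ?_
          rw [mem_Ico] at hm
          unfold dd
          rw [if_neg (by omega)]
          have h2 : ((m - (n + 1) : ℕ) : ℝ) + 1 = (m : ℝ) - n := by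
            have : m = (m - (n + 1)) + 1 + n := by omega
            have h3 : (m : ℝ) = ((m - (n + 1) : ℕ) : ℝ) + 1 + n := by exact_mod_cast this
            linarith
          have h4 : (n : ℝ) < m := by exact_mod_cast hm.1
          rw [h2, abs_of_neg (by linarith)]
          congr 1
          ring
      _ = ∑ i ∈ (Ico (n + 1) (A + H)).image (fun m => m - (n + 1)), 1 / ((i : ℝ) + 1) := by
          rw [sum_image]
          intro x hx y hy hxy
          simp only [coe_Ico, Set.mem_Ico] at hx hy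
          simp only at hxy
          omega
      _ ≤ _ := by
          refine sum_le_sum_of_subset_of_nonneg ?_ fun _ _ _ => by positivity
          intro i hi
          rw [mem_image] at hi
          obtain ⟨m, hm, rfl⟩ := hi
          rw [mem_Ico] at hm
          rw [mem_range]
          omega
  rw [hsplit, sum_union (Ico_disjoint_Ico_consecutive _ _ _)]
  linarith

/-- fourth moment -/
lemma mom4' (A H : ℕ) (c : ℕ → ℂ) (X M J : ℕ) (hX : A + H ≤ X) (hM : 2 * X < M) (hJ : 4 * X ^ 2 < J)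
    {b : ℝ} (hb : 0 < b) (hb1 : b ≤ 1) (hc : ∀ n, ‖c n‖ ≤ 2) :
    ∑ j ∈ range J, ∑ a ∈ range M,
      ‖∑ n ∈ Ico A (A + H), (c n * e (((j : ℝ) * (b / J)) * (n : ℝ) ^ 2)) *
        e ((a : ℝ) * ((n : ℤ) : ℝ) / M)‖ ^ 4 ≤
    (J : ℝ) * M * (16 * (H * (2 * H + (1 + Real.log H) ^ 2 / b))) := by
  set S := Ico A (A + H) with hS
  have hM0 : 0 < M := by omega
  have hJ0 : 0 < J := by omega
  have hbd : ∀ s ∈ S, (0 : ℤ) ≤ s ∧ (s : ℤ) ≤ X := fun s hs => by
    rw [hS, mem_Ico] at hs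
    refine ⟨by positivity, ?_⟩
    have : s ≤ X := by omega
    exact_mod_cast this
  have hMZ : 2 * (X : ℤ) < M := by exact_mod_cast hM
  have hJZ : 4 * (X : ℤ) ^ 2 < J := by exact_mod_cast hJ
  -- expansion
  have hexp : ∀ j ∈ range J, ((∑ a ∈ range M,
      ‖∑ n ∈ S, (c n * e (((j : ℝ) * (b / J)) * (n : ℝ) ^ 2)) *
        e ((a : ℝ) * ((n : ℤ) : ℝ) / M)‖ ^ 4 : ℝ) : ℂ) =
      (M : ℂ) * ∑ s ∈ S ×ˢ S, ∑ t ∈ S ×ˢ S, if (s.1 : ℤ) + s.2 = (t.1 : ℤ) + t.2 then
        (c s.1 * c s.2 * (starRingEnd ℂ) (c t.1 * c t.2)) *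
          e ((j : ℝ) * (b / J * (((s.1 : ℤ) ^ 2 + (s.2 : ℤ) ^ 2 - (t.1 : ℤ) ^ 2 - (t.2 : ℤ) ^ 2 : ℤ) : ℝ)))
        else 0 := by
    intro j _
    have h := pars1 (S ×ˢ S) (fun p => (c p.1 * e (((j : ℝ) * (b / J)) * (p.1 : ℝ) ^ 2)) *
      (c p.2 * e (((j : ℝ) * (b / J)) * (p.2 : ℝ) ^ 2))) (fun p => (p.1 : ℤ) + p.2) M hM0
      (fun s hs t ht => by
        have h1 := hbd s.1 (mem_product.1 hs).1
        have h1' := hbd s.2 (mem_product.1 hs).2
        have h2 := hbd t.1 (mem_product.1 ht).1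
        have h2' := hbd t.2 (mem_product.1 ht).2
        simp only [abs_lt]
        constructor <;> linarith)
    have e1 : ∀ a : ℕ, ‖∑ n ∈ S, (c n * e (((j : ℝ) * (b / J)) * (n : ℝ) ^ 2)) *
        e ((a : ℝ) * ((n : ℤ) : ℝ) / M)‖ ^ 4 =
        ‖∑ p ∈ S ×ˢ S, ((c p.1 * e (((j : ℝ) * (b / J)) * (p.1 : ℝ) ^ 2)) *
          (c p.2 * e (((j : ℝ) * (b / J)) * (p.2 : ℝ) ^ 2))) *
          e ((a : ℝ) * (((p.1 : ℤ) + p.2 : ℤ) : ℝ) / M)‖ ^ 2 := by
      intro a
      rw [show (4 : ℕ) = 2 * 2 by norm_num, pow_mul, ← norm_pow, sq (∑ n ∈ S, _), sum_mul_sum, sum_product]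
      congr 2
      refine sum_congr rfl fun n _ => sum_congr rfl fun m _ => ?_
      rw [mul_mul_mul_comm, ← e_add]
      congr 2
      push_cast
      ring
    rw [sum_congr rfl fun a _ => e1 a, h]
    congr 1
    refine sum_congr rfl fun s _ => sum_congr rfl fun t _ => ?_
    split_ifs with h3
    · simp only [map_mul, conj_e]
      have e2 : e ((j : ℝ) * (b / J * (((s.1 : ℤ) ^ 2 + (s.2 : ℤ) ^ 2 - (t.1 : ℤ) ^ 2 - (t.2 : ℤ) ^ 2 : ℤ) : ℝ))) =
          e (((j : ℝ) * (b / J)) * (s.1 : ℝ) ^ 2) * e (((j : ℝ) * (b / J)) * (s.2 : ℝ) ^ 2) *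
          (e (-(((j : ℝ) * (b / J)) * (t.1 : ℝ) ^ 2)) * e (-(((j : ℝ) * (b / J)) * (t.2 : ℝ) ^ 2))) := by
        rw [← e_add, ← e_add, ← e_add]
        congr 1
        push_cast
        ring
      rw [e2]
      ring
    · rfl
  -- sum over `j`
  have hmain : ((∑ j ∈ range J, ∑ a ∈ range M,
      ‖∑ n ∈ S, (c n * e (((j : ℝ) * (b / J)) * (n : ℝ) ^ 2)) *
        e ((a : ℝ) * ((n : ℤ) : ℝ) / M)‖ ^ 4 : ℝ) : ℂ) =
      (M : ℂ) * ∑ s ∈ S ×ˢ S, ∑ t ∈ S ×ˢ S, if (s.1 : ℤ) + s.2 = (t.1 : ℤ) + t.2 then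
        (c s.1 * c s.2 * (starRingEnd ℂ) (c t.1 * c t.2)) *
          ∑ j ∈ range J,
            e ((j : ℝ) * (b / J * (((s.1 : ℤ) ^ 2 + (s.2 : ℤ) ^ 2 - (t.1 : ℤ) ^ 2 - (t.2 : ℤ) ^ 2 : ℤ) : ℝ)))
        else 0 := by
    rw [Complex.ofReal_sum, sum_congr rfl hexp, ← mul_sum, sum_comm]
    congr 1
    refine sum_congr rfl fun s _ => ?_
    rw [sum_comm]
    refine sum_congr rfl fun t _ => ?_
    split_ifs with h3
    · rw [mul_sum]
    · simp
  have hnn : (0 : ℝ) ≤ ∑ j ∈ range J, ∑ a ∈ range M,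
      ‖∑ n ∈ S, (c n * e (((j : ℝ) * (b / J)) * (n : ℝ) ^ 2)) *
        e ((a : ℝ) * ((n : ℤ) : ℝ) / M)‖ ^ 4 := by positivity
  have h7 := congrArg norm hmain
  rw [Complex.norm_real, Real.norm_of_nonneg hnn, norm_mul, Complex.norm_natCast] at h7
  rw [h7]
  -- bound of the terms
  have hterm : ∀ s ∈ S ×ˢ S, ∀ t ∈ S ×ˢ S, ‖if (s.1 : ℤ) + s.2 = (t.1 : ℤ) + t.2 then
        (c s.1 * c s.2 * (starRingEnd ℂ) (c t.1 * c t.2)) *
          ∑ j ∈ range J,
            e ((j : ℝ) * (b / J * (((s.1 : ℤ) ^ 2 + (s.2 : ℤ) ^ 2 - (t.1 : ℤ) ^ 2 - (t.2 : ℤ) ^ 2 : ℤ) : ℝ)))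
        else 0‖ ≤ if s.2 = t.1 + t.2 - s.1 then 16 * (J * ((if s.1 = t.1 then 1 else 0) +
          (if s.1 = t.2 then 1 else 0) + 1 / (4 * b) * (dd s.1 t.1 * dd s.1 t.2))) else 0 := by
    intro s hs t ht
    have hdd1 := dd_nonneg s.1 t.1
    have hdd2 := dd_nonneg s.1 t.2
    have hrhs : (0 : ℝ) ≤ 16 * (J * ((if s.1 = t.1 then 1 else 0) +
          (if s.1 = t.2 then 1 else 0) + 1 / (4 * b) * (dd s.1 t.1 * dd s.1 t.2))) := by
      have : (0 : ℝ) ≤ if s.1 = t.1 then 1 else 0 := by split_ifs <;> norm_num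
      have : (0 : ℝ) ≤ if s.1 = t.2 then 1 else 0 := by split_ifs <;> norm_num
      positivity
    by_cases h3 : (s.1 : ℤ) + s.2 = (t.1 : ℤ) + t.2
    · have h4 : s.2 = t.1 + t.2 - s.1 := by omega
      rw [if_pos h3, if_pos h4, norm_mul]
      have hcc : ‖c s.1 * c s.2 * (starRingEnd ℂ) (c t.1 * c t.2)‖ ≤ 16 := by
        rw [norm_mul, norm_mul, RCLike.norm_conj, norm_mul]
        calc ‖c s.1‖ * ‖c s.2‖ * (‖c t.1‖ * ‖c t.2‖) ≤ 2 * 2 * (2 * 2) := by
              gcongr <;> exact hc _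
          _ = 16 := by norm_num
      have hj : ‖∑ j ∈ range J,
            e ((j : ℝ) * (b / J * (((s.1 : ℤ) ^ 2 + (s.2 : ℤ) ^ 2 - (t.1 : ℤ) ^ 2 - (t.2 : ℤ) ^ 2 : ℤ) : ℝ)))‖ ≤
          J * ((if s.1 = t.1 then 1 else 0) +
          (if s.1 = t.2 then 1 else 0) + 1 / (4 * b) * (dd s.1 t.1 * dd s.1 t.2)) := by
        set v : ℤ := (s.1 : ℤ) ^ 2 + (s.2 : ℤ) ^ 2 - (t.1 : ℤ) ^ 2 - (t.2 : ℤ) ^ 2 with hv
        have hveq : v = 2 * ((s.1 : ℤ) - t.1) * ((s.1 : ℤ) - t.2) := by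
          have : (s.2 : ℤ) = t.1 + t.2 - s.1 := by linarith
          rw [hv, this]; ring
        have htriv : ‖∑ j ∈ range J, e ((j : ℝ) * (b / J * (v : ℝ)))‖ ≤ J := by
          refine (norm_sum_le _ _).trans ?_
          simp [norm_e]
        by_cases h5 : s.1 = t.1
        · refine htriv.trans ?_
          rw [if_pos h5]
          have : (0 : ℝ) ≤ if s.1 = t.2 then 1 else 0 := by split_ifs <;> norm_num
          have h6 : (0 : ℝ) ≤ 1 / (4 * b) * (dd s.1 t.1 * dd s.1 t.2) := by positivity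
          have h7 : (0 : ℝ) ≤ J := by positivity
          nlinarith
        · by_cases h6 : s.1 = t.2
          · refine htriv.trans ?_
            rw [if_pos h6]
            have : (0 : ℝ) ≤ if s.1 = t.1 then 1 else 0 := by split_ifs <;> norm_num
            have h6 : (0 : ℝ) ≤ 1 / (4 * b) * (dd s.1 t.1 * dd s.1 t.2) := by positivity
            have h7 : (0 : ℝ) ≤ J := by positivity
            nlinarith
          · have hu1 : ((s.1 : ℤ) - t.1) ≠ 0 := by
              intro h; apply h5; exact_mod_cast sub_eq_zero.1 h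
            have hu2 : ((s.1 : ℤ) - t.2) ≠ 0 := by
              intro h; apply h6; exact_mod_cast sub_eq_zero.1 h
            have hv0 : v ≠ 0 := by
              rw [hveq]
              exact mul_ne_zero (mul_ne_zero (by norm_num) hu1) hu2
            have h1 := hbd s.1 (mem_product.1 hs).1
            have h1' := hbd s.2 (mem_product.1 hs).2
            have h2 := hbd t.1 (mem_product.1 ht).1
            have h2' := hbd t.2 (mem_product.1 ht).2
            have hvb : |v| ≤ 2 * (X : ℤ) ^ 2 := by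
              rw [hv, abs_le]
              constructor <;> nlinarith
            have hvb' : |(v : ℝ)| ≤ 2 * (X : ℝ) ^ 2 := by
              have : ((|v| : ℤ) : ℝ) ≤ ((2 * (X : ℤ) ^ 2 : ℤ) : ℝ) := by exact_mod_cast hvb
              push_cast at this
              exact this
            have hJR : 4 * (X : ℝ) ^ 2 < J := by exact_mod_cast hJ
            have h8 : 2 * (b * |(v : ℝ)|) ≤ J := by
              have : b * |(v : ℝ)| ≤ 1 * |(v : ℝ)| := by gcongr
              linarith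
            refine (jsum hJ0 hb hv0 h8).trans ?_
            rw [if_neg h5, if_neg h6, zero_add, zero_add]
            have h9 : |(v : ℝ)| = 2 * |(s.1 : ℝ) - t.1| * |(s.1 : ℝ) - t.2| := by
              rw [hveq]
              push_cast
              rw [abs_mul, abs_mul, abs_of_pos (by norm_num : (0 : ℝ) < 2)]
            have h10 : dd s.1 t.1 = 1 / |(s.1 : ℝ) - t.1| := by unfold dd; rw [if_neg h5]
            have h11 : dd s.1 t.2 = 1 / |(s.1 : ℝ) - t.2| := by unfold dd; rw [if_neg h6]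
            rw [h9, h10, h11]
            have h12 : 0 < |(s.1 : ℝ) - t.1| := abs_pos.2 (by exact_mod_cast hu1)
            have h13 : 0 < |(s.1 : ℝ) - t.2| := abs_pos.2 (by exact_mod_cast hu2)
            apply le_of_eq
            field_simp
            norm_num
      calc _ ≤ 16 * ‖∑ j ∈ range J,
            e ((j : ℝ) * (b / J * (((s.1 : ℤ) ^ 2 + (s.2 : ℤ) ^ 2 - (t.1 : ℤ) ^ 2 - (t.2 : ℤ) ^ 2 : ℤ) : ℝ)))‖ := by
            gcongr
        _ ≤ _ := by gcongr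
    · rw [if_neg h3, norm_zero]
      by_cases h4 : s.2 = t.1 + t.2 - s.1
      · rw [if_pos h4]; exact hrhs
      · rw [if_neg h4]
  have hH0 : (0 : ℝ) ≤ 1 / (4 * b) := by positivity
  have hsum : ‖∑ s ∈ S ×ˢ S, ∑ t ∈ S ×ˢ S, if (s.1 : ℤ) + s.2 = (t.1 : ℤ) + t.2 then
        (c s.1 * c s.2 * (starRingEnd ℂ) (c t.1 * c t.2)) *
          ∑ j ∈ range J,
            e ((j : ℝ) * (b / J * (((s.1 : ℤ) ^ 2 + (s.2 : ℤ) ^ 2 - (t.1 : ℤ) ^ 2 - (t.2 : ℤ) ^ 2 : ℤ) : ℝ)))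
        else 0‖ ≤ J * (16 * (H * (2 * H + (1 + Real.log H) ^ 2 / b))) := by
    calc _ ≤ ∑ s ∈ S ×ˢ S, ∑ t ∈ S ×ˢ S, (if s.2 = t.1 + t.2 - s.1 then
          16 * (J * ((if s.1 = t.1 then 1 else 0) +
          (if s.1 = t.2 then 1 else 0) + 1 / (4 * b) * (dd s.1 t.1 * dd s.1 t.2))) else 0) := by
          refine (norm_sum_le _ _).trans (sum_le_sum fun s hs => ?_)
          exact (norm_sum_le _ _).trans (sum_le_sum fun t ht => hterm s hs t ht)
      _ = ∑ n ∈ S, ∑ t ∈ S ×ˢ S, ∑ m ∈ S, (if m = t.1 + t.2 - n then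
          16 * (J * ((if n = t.1 then 1 else 0) +
          (if n = t.2 then 1 else 0) + 1 / (4 * b) * (dd n t.1 * dd n t.2))) else 0) := by
          rw [sum_product]
          refine sum_congr rfl fun n _ => ?_
          rw [sum_comm]
      _ ≤ ∑ n ∈ S, ∑ t ∈ S ×ˢ S, 16 * (J * ((if n = t.1 then 1 else 0) +
          (if n = t.2 then 1 else 0) + 1 / (4 * b) * (dd n t.1 * dd n t.2))) := by
          refine sum_le_sum fun n _ => sum_le_sum fun t _ => ?_
          have hdd1 := dd_nonneg n t.1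
          have hdd2 := dd_nonneg n t.2
          have : (0 : ℝ) ≤ if n = t.1 then 1 else 0 := by split_ifs <;> norm_num
          have : (0 : ℝ) ≤ if n = t.2 then 1 else 0 := by split_ifs <;> norm_num
          rw [sum_ite_eq']
          split_ifs <;> first | exact le_rfl | positivity
      _ = ∑ n ∈ S, 16 * (J * ((∑ t1 ∈ S, ∑ t2 ∈ S, (if n = t1 then (1 : ℝ) else 0)) +
          (∑ t1 ∈ S, ∑ t2 ∈ S, (if n = t2 then (1 : ℝ) else 0)) +
          1 / (4 * b) * ((∑ t1 ∈ S, dd n t1) * ∑ t2 ∈ S, dd n t2))) := by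
          refine sum_congr rfl fun n _ => ?_
          rw [← mul_sum, ← mul_sum, sum_product]
          simp only [sum_add_distrib]
          rw [sum_mul_sum]
          congr 3
          rw [mul_sum]
          refine sum_congr rfl fun t1 _ => ?_
          rw [mul_sum]
      _ ≤ ∑ n ∈ S, 16 * (J * ((H : ℝ) + H + 1 / (4 * b) * ((2 * (1 + Real.log H)) * (2 * (1 + Real.log H))))) := by
          refine sum_le_sum fun n hn => ?_
          have hcard : (S.card : ℝ) = H := by rw [hS, Nat.card_Ico]; simp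
          have e1 : ∑ t1 ∈ S, ∑ t2 ∈ S, (if n = t1 then (1 : ℝ) else 0) = H := by
            rw [← hcard]
            simp only [sum_const, nsmul_eq_mul]
            rw [← mul_sum, sum_ite_eq, if_pos hn, mul_one]
          have e2 : ∑ t1 ∈ S, ∑ t2 ∈ S, (if n = t2 then (1 : ℝ) else 0) = H := by
            rw [← hcard]
            simp only [sum_ite_eq, if_pos hn, sum_const, nsmul_eq_mul, mul_one]
          rw [e1, e2]
          have h8 := dd_sum A H n hn
          have h9 : 0 ≤ ∑ m ∈ S, dd n m := sum_nonneg fun m _ => dd_nonneg n m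
          gcongr
      _ = J * (16 * (H * (2 * H + (1 + Real.log H) ^ 2 / b))) := by
          have hcard : (S.card : ℝ) = H := by rw [hS, Nat.card_Ico]; simp
          rw [sum_const, nsmul_eq_mul, hcard]
          field_simp
          ring
  calc (M : ℝ) * _ ≤ M * (J * (16 * (H * (2 * H + (1 + Real.log H) ^ 2 / b)))) := by gcongr
    _ = _ := by ring

/-- lower bound for the first moment -/
lemma mom1' (A H : ℕ) (hH : 1 ≤ H) (c : ℕ → ℂ) (X M J : ℕ) (hX : A + H ≤ X) (hM : 2 * X < M)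
    (hJ : 4 * X ^ 2 < J) {b : ℝ} (hb : 0 < b) (hb1 : b ≤ 1) (hc : ∀ n, ‖c n‖ ≤ 2)
    (hW : 2 * (H : ℝ) ≤ ∑ n ∈ Ico A (A + H), ‖c n‖ ^ 2) :
    (J : ℝ) * M * H ≤ 4 * Real.sqrt (2 * H + (1 + Real.log H) ^ 2 / b) *
      ∑ j ∈ range J, ∑ a ∈ range M,
        ‖∑ n ∈ Ico A (A + H), (c n * e (((j : ℝ) * (b / J)) * (n : ℝ) ^ 2)) *
          e ((a : ℝ) * ((n : ℤ) : ℝ) / M)‖ := by
  have h2 := mom2' (Ico A (A + H)) c X M J (fun n hn => by rw [mem_Ico] at hn; omega) (by omega)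
    (fun j => (j : ℝ) * (b / J))
  have h4 := mom4' A H c X M J hX hM hJ hb hb1 hc
  set W := ∑ n ∈ Ico A (A + H), ‖c n‖ ^ 2 with hWdef
  set E := 2 * (H : ℝ) + (1 + Real.log H) ^ 2 / b with hE
  have hH' : (1 : ℝ) ≤ H := by exact_mod_cast hH
  have hE0 : 0 < E := by
    have : 0 ≤ (1 + Real.log H) ^ 2 / b := by positivity
    linarith
  set L := 4 * Real.sqrt E with hL
  have hL0 : 0 < L := by positivity
  have hL2 : L ^ 2 = 16 * E := by rw [hL, mul_pow, Real.sq_sqrt hE0.le]; norm_num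
  have hp : ∀ x : ℝ, 0 ≤ x → x ^ 2 ≤ L * x + x ^ 4 / L ^ 2 := by
    intro x hx
    by_cases h5 : x ≤ L
    · have h6 : 0 ≤ x ^ 4 / L ^ 2 := by positivity
      nlinarith
    · have h6 : x ^ 2 ≤ x ^ 4 / L ^ 2 := by
        rw [le_div_iff₀ (by positivity)]
        have h7 : L < x := not_le.1 h5
        have h8 : L ^ 2 ≤ x ^ 2 := by nlinarith
        nlinarith [sq_nonneg x]
      nlinarith
  have h5 : (J : ℝ) * M * W ≤ L * (∑ j ∈ range J, ∑ a ∈ range M,
        ‖∑ n ∈ Ico A (A + H), (c n * e (((j : ℝ) * (b / J)) * (n : ℝ) ^ 2)) *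
          e ((a : ℝ) * ((n : ℤ) : ℝ) / M)‖) + ((J : ℝ) * M * (16 * (H * E))) / L ^ 2 := by
    rw [← h2]
    calc _ ≤ ∑ j ∈ range J, ∑ a ∈ range M,
        (L * ‖∑ n ∈ Ico A (A + H), (c n * e (((j : ℝ) * (b / J)) * (n : ℝ) ^ 2)) *
          e ((a : ℝ) * ((n : ℤ) : ℝ) / M)‖ +
        ‖∑ n ∈ Ico A (A + H), (c n * e (((j : ℝ) * (b / J)) * (n : ℝ) ^ 2)) *
          e ((a : ℝ) * ((n : ℤ) : ℝ) / M)‖ ^ 4 / L ^ 2) :=
          sum_le_sum fun j _ => sum_le_sum fun a _ => hp _ (norm_nonneg _)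
      _ = L * (∑ j ∈ range J, ∑ a ∈ range M,
            ‖∑ n ∈ Ico A (A + H), (c n * e (((j : ℝ) * (b / J)) * (n : ℝ) ^ 2)) *
              e ((a : ℝ) * ((n : ℤ) : ℝ) / M)‖) +
          (∑ j ∈ range J, ∑ a ∈ range M,
            ‖∑ n ∈ Ico A (A + H), (c n * e (((j : ℝ) * (b / J)) * (n : ℝ) ^ 2)) *
              e ((a : ℝ) * ((n : ℤ) : ℝ) / M)‖ ^ 4) / L ^ 2 := by
          simp only [sum_add_distrib, ← mul_sum, ← sum_div]
      _ ≤ _ := by gcongr
  have h6 : ((J : ℝ) * M * (16 * (H * E))) / L ^ 2 = (J : ℝ) * M * H := by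
    rw [hL2]; field_simp
  rw [h6] at h5
  have h7 : (0 : ℝ) ≤ (J : ℝ) * M := by positivity
  nlinarith

end Pool.Agent.Helper11.EP
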