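import Pool.Agent.Helper11.EP.Bump
import Pool.Agent.Helper11.EP.Orth2

/-! # Perturbations with small quadratic coefficients -/

set_option autoImplicit false

namespace Pool.Agent.Helper11.EP

open Finset

lemma quad_bound2 {N : ℕ} (hN : 1 ≤ N) {α β b : ℝ} (hα : 0 ≤ α) (hα1 : α ≤ 1) (hβ : 0 ≤ β) (hβ1 : β ≤ b)
    (j : ℕ) {x : ℝ} (hx0 : 0 ≤ x) (hx : x ≤ 2 * N) :
    |iteratedDeriv j (fun x : ℝ => α * x ^ 1 + β * x ^ 2) x| ≤
      (2 * (N : ℝ) + 6 * b * (N : ℝ) ^ 2) / (N : ℝ) ^ j := by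
  have hN' : (1 : ℝ) ≤ N := by exact_mod_cast hN
  have hb : 0 ≤ b := hβ.trans hβ1
  have hbN : 0 ≤ b * N := by positivity
  have hbN2 : 0 ≤ b * (N : ℝ) ^ 2 := by positivity
  rw [quad_deriv]
  rcases j with _ | _ | _ | j
  · simp only [Nat.descFactorial_zero, Nat.cast_one, one_mul, Nat.sub_zero, pow_zero, div_one, pow_one]
    rw [abs_of_nonneg (by positivity)]
    have h1 : α * x ≤ 1 * (2 * N) := by gcongr
    have h2 : β * x ^ 2 ≤ b * (2 * N) ^ 2 := by gcongr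
    nlinarith
  · simp only [zero_add, Nat.descFactorial_one, Nat.cast_one, one_mul, Nat.sub_self, pow_zero, mul_one,
      pow_one, Nat.cast_ofNat]
    norm_num
    rw [abs_of_nonneg (by positivity)]
    have h2 : β * (2 * x) ≤ b * (2 * (2 * N)) := by gcongr
    rw [le_div_iff₀ (by positivity)]
    nlinarith
  · have e1 : Nat.descFactorial 1 (0 + 1 + 1) = 0 := by decide
    have e2 : Nat.descFactorial 2 (0 + 1 + 1) = 2 := by decide
    rw [e1, e2]
    norm_num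
    rw [abs_of_nonneg (by positivity)]
    rw [le_div_iff₀ (by positivity)]
    have : β * 2 * (N : ℝ) ^ 2 ≤ b * 2 * (N : ℝ) ^ 2 := by gcongr
    nlinarith
  · have e1 : Nat.descFactorial 1 (j + 1 + 1 + 1) = 0 := Nat.descFactorial_of_lt (by omega)
    have e2 : Nat.descFactorial 2 (j + 1 + 1 + 1) = 0 := Nat.descFactorial_of_lt (by omega)
    rw [e1, e2]
    simp
    positivity

lemma pert_bound2 {N H : ℕ} (hN : 1 ≤ N) (hH : 1 ≤ H) {α β b : ℝ} (hα : 0 ≤ α) (hα1 : α ≤ 1) (hβ : 0 ≤ β)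
    (hβ1 : β ≤ b) (T : Finset ℕ) (j : ℕ) {C : ℝ} (hC0 : 0 ≤ C) (hC : ∀ x, |iteratedDeriv j chi x| ≤ C)
    {x : ℝ} (hx0 : 0 ≤ x) (hx : x ≤ 2 * N) :
    |iteratedDeriv j (pert N H α β T) x| ≤
      (2 * (N : ℝ) + 6 * b * (N : ℝ) ^ 2) / (N : ℝ) ^ j + C / (2 * (H : ℝ) ^ j) := by
  have e0 : pert N H α β T = fun x => (fun x : ℝ => α * x ^ 1 + β * x ^ 2) x +
      (fun x : ℝ => (1 / 2) * ∑ i ∈ T, chi ((1 / (H : ℝ)) * (x - N) - i)) x := rfl
  have hs : ∀ i ∈ T, ContDiffAt ℝ j (fun x : ℝ => chi ((1 / (H : ℝ)) * (x - N) - i)) x := fun i _ =>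
    ((block_contDiff N H i).of_le (by exact_mod_cast le_top)).contDiffAt
  rw [e0, iteratedDeriv_fun_add (by fun_prop)
    (ContDiffAt.mul contDiffAt_const (ContDiffAt.sum hs)), iteratedDeriv_const_mul_field,
    iteratedDeriv_fun_sum hs]
  simp only [block_deriv]
  rw [← mul_sum]
  refine (abs_add_le _ _).trans (add_le_add (quad_bound2 hN hα hα1 hβ hβ1 j hx0 hx) ?_)
  have hH' : (0 : ℝ) < H := by exact_mod_cast hH
  rw [abs_mul, abs_mul, abs_of_nonneg (by norm_num : (0 : ℝ) ≤ 1 / 2),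
    abs_of_nonneg (by positivity : (0 : ℝ) ≤ (1 / (H : ℝ)) ^ j)]
  have h1 := sum_single_bound (iteratedDeriv j chi) (fun x hx => chi_deriv_zero j hx) C hC0 hC T
    ((1 / (H : ℝ)) * (x - N))
  calc 1 / 2 * ((1 / (H : ℝ)) ^ j * |∑ i ∈ T, iteratedDeriv j chi (1 / (H : ℝ) * (x - N) - i)|) ≤
        1 / 2 * ((1 / (H : ℝ)) ^ j * C) := by gcongr
    _ = _ := by rw [one_div_pow]; field_simp

lemma wt_norm (N H i n : ℕ) : ‖wt N H i n‖ ≤ 2 := by
  unfold wt
  refine (norm_sub_le _ _).trans ?_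
  rw [norm_e, norm_one]
  norm_num

lemma wt_zero {N H i n : ℕ} (hH : 1 ≤ H) (hn : n ∉ Ico (N + i * H) (N + i * H + H)) : wt N H i n = 0 := by
  have hH' : (0 : ℝ) < H := by exact_mod_cast hH
  unfold wt
  have h1 : chi ((1 / (H : ℝ)) * ((n : ℝ) - N) - i) = 0 := by
    apply chi_zero
    have e1 : (1 / (H : ℝ)) * ((n : ℝ) - N) - i = ((n : ℝ) - N - i * H) / H := by field_simp
    rw [e1]
    rw [mem_Ico, not_and_or, not_le, not_lt] at hn
    rcases hn with hn | hn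
    · left
      have h2 : (n : ℝ) < N + i * H := by exact_mod_cast hn
      rw [div_le_iff₀ hH']
      nlinarith
    · right
      have h2 : (N : ℝ) + i * H + H ≤ n := by exact_mod_cast hn
      rw [le_div_iff₀ hH']
      nlinarith
  rw [h1]
  simp [e_zero]

/-- **Master lemma.** -/
theorem master2 {N h : ℕ} (hh : 1 ≤ h) (hN : 4 * h ≤ N) {b : ℝ} (hb : 0 < b) (hb1 : b ≤ 1) (g : ℕ → ℝ) :
    ∃ α β : ℝ, 0 ≤ α ∧ α ≤ 1 ∧ 0 ≤ β ∧ β ≤ b ∧ ∃ T : Finset ℕ,
      (N : ℝ) / (64 * Real.sqrt (2 * ((4 * h : ℕ) : ℝ) + (1 + Real.log ((4 * h : ℕ) : ℝ)) ^ 2 / b)) ≤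
        ‖∑ n ∈ Icc N (2 * N), e (g n + pert N (4 * h) α β T n)‖ := by
  have hN1 : 1 ≤ N := by omega
  set H : ℕ := 4 * h with hH
  have hH1 : 1 ≤ H := by omega
  have hHr : (1 : ℝ) ≤ H := by exact_mod_cast hH1
  set M : ℕ := 4 * N + 1 with hM
  set J : ℕ := 16 * N ^ 2 + 1 with hJ
  have hM0 : (0 : ℝ) < M := by positivity
  have hJ0 : (0 : ℝ) < J := by positivity
  set E : ℝ := 2 * (H : ℝ) + (1 + Real.log H) ^ 2 / b with hE
  have hE0 : 0 < E := by
    have : 0 ≤ (1 + Real.log H) ^ 2 / b := by positivity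
    linarith
  set I : ℕ := N / H with hI
  have hI1 : I * H ≤ N := Nat.div_mul_le_self _ _
  have hI2 : N < (I + 1) * H := by
    have := Nat.lt_div_mul_add (a := N) (b := H) (by omega)
    rw [← hI] at this
    linarith
  have hI3 : 1 ≤ I := by
    rw [hI, Nat.one_le_div_iff (by omega)]; exact hN
  -- coefficients
  set c : ℕ → ℕ → ℂ := fun i n => e (g n) * wt N H i n with hc
  set D : ℕ → ℕ → ℕ → ℂ := fun i j a => ∑ n ∈ Ico (N + i * H) (N + i * H + H),
    (c i n * e (((j : ℝ) * (b / J)) * (n : ℝ) ^ 2)) * e ((a : ℝ) * ((n : ℤ) : ℝ) / M) with hD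
  have hmom : ∀ i ∈ range I, (J : ℝ) * M * H ≤
      4 * Real.sqrt E * ∑ j ∈ range J, ∑ a ∈ range M, ‖D i j a‖ := by
    intro i hi
    rw [mem_range] at hi
    have hiH : (i + 1) * H ≤ N := by
      calc (i + 1) * H ≤ I * H := Nat.mul_le_mul_right _ hi
        _ ≤ N := hI1
    have hsub : Ico (N + i * H) (N + i * H + H) ⊆ Icc N (2 * N) := by
      intro n hn
      rw [mem_Ico] at hn
      rw [mem_Icc]
      constructor
      · omega
      · nlinarith [hn.2]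
    refine mom1' (N + i * H) H hH1 (c i) (2 * N) M J (by nlinarith) (by omega) ?_ hb hb1 ?_ ?_
    · rw [hJ]; nlinarith
    · intro n
      rw [hc]
      simp only [norm_mul, norm_e, one_mul]
      exact wt_norm _ _ _ _
    · have h2 := wt_mass (N := N) (i := i) hh hiH
      have h3 : ∑ n ∈ Icc N (2 * N), ‖wt N H i n‖ ^ 2 =
          ∑ n ∈ Ico (N + i * H) (N + i * H + H), ‖wt N H i n‖ ^ 2 := by
        symm
        refine sum_subset hsub fun n _ hn => ?_
        rw [wt_zero hH1 hn]; simp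
      rw [← hH, h3] at h2
      have h4 : 2 * (H : ℝ) = 8 * h := by rw [hH]; push_cast; ring
      rw [h4]
      refine h2.trans (le_of_eq ?_)
      refine sum_congr rfl fun n _ => ?_
      rw [hc]
      simp only [norm_mul, norm_e, one_mul]
  -- choice of `j`, `a`
  obtain ⟨q, hq, hqq⟩ : ∃ q ∈ range J ×ˢ range M, (I : ℝ) * H ≤
      4 * Real.sqrt E * ∑ i ∈ range I, ‖D i q.1 q.2‖ := by
    apply exists_le_of_sum_le
    · exact ⟨(0, 0), by simp [hM, hJ]⟩
    · rw [sum_const, card_product, card_range, card_range, nsmul_eq_mul, ← mul_sum, sum_product]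
      push_cast
      have h1 : ∑ j ∈ range J, ∑ a ∈ range M, ∑ i ∈ range I, ‖D i j a‖ =
          ∑ i ∈ range I, ∑ j ∈ range J, ∑ a ∈ range M, ‖D i j a‖ := by
        rw [sum_congr rfl fun a _ => sum_comm]
        rw [sum_comm]
      rw [h1, mul_sum]
      calc (J : ℝ) * M * (I * H) = ∑ i ∈ range I, (J : ℝ) * M * H := by
            rw [sum_const, card_range, nsmul_eq_mul]; ring
        _ ≤ _ := sum_le_sum hmom
  obtain ⟨j, a⟩ := q
  simp only at hqq
  rw [mem_product, mem_range, mem_range] at hq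
  obtain ⟨T, hT, hTT⟩ := subset_sum (range I) (fun i => D i j a)
  -- the two totals
  set tot : Finset ℕ → ℂ := fun T => ∑ n ∈ Icc N (2 * N),
    e (g n + pert N H (a / M) ((j : ℝ) * (b / J)) T n) with htot
  have hdiff : tot ∅ - tot T = ∑ i ∈ T, D i j a := by
    rw [htot]
    simp only
    rw [← sum_sub_distrib]
    have h1 : ∀ n ∈ Icc N (2 * N), e (g n + pert N H (a / M) ((j : ℝ) * (b / J)) ∅ n) -
        e (g n + pert N H (a / M) ((j : ℝ) * (b / J)) T n) =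
        ∑ i ∈ T, (c i n * e (((j : ℝ) * (b / J)) * (n : ℝ) ^ 2)) * e ((a : ℝ) * ((n : ℤ) : ℝ) / M) := by
      intro n _
      have e1 : pert N H (a / M) ((j : ℝ) * (b / J)) ∅ n =
          ((j : ℝ) * (b / J)) * (n : ℝ) ^ 2 + (a : ℝ) * ((n : ℤ) : ℝ) / M := by
        unfold pert
        simp only [sum_empty, mul_zero, add_zero, pow_one]
        push_cast
        ring
      have e2 : pert N H (a / M) ((j : ℝ) * (b / J)) T n =
          ((j : ℝ) * (b / J)) * (n : ℝ) ^ 2 + (a : ℝ) * ((n : ℤ) : ℝ) / M +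
          (1 / 2) * ∑ i ∈ T, chi ((1 / (H : ℝ)) * ((n : ℝ) - N) - i) := by
        unfold pert
        simp only [pow_one]
        push_cast
        ring
      have e4 : ∀ x q1 q2 w : ℝ, e (x + (q1 + q2)) - e (x + (q1 + q2 + w)) =
          e x * (e q1 * e q2) * (1 - e w) := by
        intro x q1 q2 w
        rw [e_add x, e_add x, e_add (q1 + q2), e_add q1]
        ring
      rw [e1, e2, e4, wt_sum, mul_sum]
      refine sum_congr rfl fun i _ => ?_
      rw [hc]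
      ring
    rw [sum_congr rfl h1, sum_comm]
    refine sum_congr rfl fun i hi => ?_
    rw [hD]
    simp only
    symm
    have hi' := mem_range.1 (hT hi)
    have hiH : (i + 1) * H ≤ N := by
      calc (i + 1) * H ≤ I * H := Nat.mul_le_mul_right _ hi'
        _ ≤ N := hI1
    refine sum_subset ?_ fun n _ hn => ?_
    · intro n hn
      rw [mem_Ico] at hn
      rw [mem_Icc]
      constructor
      · omega
      · nlinarith [hn.2]
    · rw [hc]
      simp only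
      rw [wt_zero hH1 hn]; simp
  have hbig : (I : ℝ) * H ≤ 16 * Real.sqrt E * (‖tot ∅‖ + ‖tot T‖) := by
    have h1 : ‖∑ i ∈ T, D i j a‖ ≤ ‖tot ∅‖ + ‖tot T‖ := by
      rw [← hdiff]; exact norm_sub_le _ _
    have h2 : 0 ≤ Real.sqrt E := Real.sqrt_nonneg _
    calc (I : ℝ) * H ≤ 4 * Real.sqrt E * ∑ i ∈ range I, ‖D i j a‖ := hqq
      _ ≤ 4 * Real.sqrt E * (4 * (‖tot ∅‖ + ‖tot T‖)) := by gcongr; linarith
      _ = _ := by ring
  have hsq0 : 0 < Real.sqrt E := Real.sqrt_pos.2 hE0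
  have hlow : (N : ℝ) ≤ 2 * (I * H) := by
    have h2 : N ≤ 2 * (I * H) := by nlinarith
    exact_mod_cast h2
  have hlow2 : 2 * ((N : ℝ) / (64 * Real.sqrt E)) ≤ ‖tot ∅‖ + ‖tot T‖ := by
    rw [← mul_div_assoc, div_le_iff₀ (by positivity)]
    linarith
  have hab : (0 : ℝ) ≤ (a : ℝ) / M ∧ (a : ℝ) / M ≤ 1 ∧ (0 : ℝ) ≤ (j : ℝ) * (b / J) ∧
      (j : ℝ) * (b / J) ≤ b := by
    have h1 : (a : ℝ) ≤ M := by exact_mod_cast hq.2.le
    have h2 : (j : ℝ) ≤ J := by exact_mod_cast hq.1.le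
    refine ⟨by positivity, ?_, by positivity, ?_⟩
    · rw [div_le_one hM0]; exact h1
    · calc (j : ℝ) * (b / J) ≤ J * (b / J) := by gcongr
        _ = b := by field_simp
  by_cases hcase : (N : ℝ) / (64 * Real.sqrt E) ≤ ‖tot ∅‖
  · exact ⟨a / M, (j : ℝ) * (b / J), hab.1, hab.2.1, hab.2.2.1, hab.2.2.2, ∅, hcase⟩
  · refine ⟨a / M, (j : ℝ) * (b / J), hab.1, hab.2.1, hab.2.2.1, hab.2.2.2, T, ?_⟩
    rw [not_le] at hcase
    have : (N : ℝ) / (64 * Real.sqrt E) ≤ ‖tot T‖ := by linarith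
    exact this

end Pool.Agent.Helper11.EP
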