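import Pool.Agent.Helper11.EP.Spec

/-! # The inequality of Kusmin and Landau and the second derivative test -/

set_option autoImplicit false

namespace Pool.Agent.Helper11.EP

open Finset

/-- cotangent -/
noncomputable def ct (t : ℝ) : ℝ := Real.cos (Real.pi * t) / Real.sin (Real.pi * t)

/-- `1 / (1 - e(t))` -/
noncomputable def zt (t : ℝ) : ℂ := 1 / 2 + Complex.I / 2 * (ct t : ℂ)

lemma zt_mul {t : ℝ} (ht : Real.sin (Real.pi * t) ≠ 0) : (1 - e t) * zt t = 1 := by
  have h1 : e t = ((Real.cos (Real.pi * t) : ℂ) + (Real.sin (Real.pi * t) : ℂ) * Complex.I) ^ 2 := by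
    rw [Complex.ofReal_cos, Complex.ofReal_sin, ← Complex.exp_mul_I, ← Complex.exp_nat_mul]
    unfold e
    congr 1
    push_cast
    ring
  have h2 : (Real.cos (Real.pi * t) : ℂ) ^ 2 + (Real.sin (Real.pi * t) : ℂ) ^ 2 = 1 := by
    have := Real.cos_sq_add_sin_sq (Real.pi * t)
    exact_mod_cast this
  have h3 : (Real.sin (Real.pi * t) : ℂ) ≠ 0 := by exact_mod_cast ht
  unfold zt ct
  rw [h1, Complex.ofReal_div]
  generalize (Real.cos (Real.pi * t) : ℂ) = c at *
  generalize (Real.sin (Real.pi * t) : ℂ) = s at *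
  have h4 : 1 - (c + s * Complex.I) ^ 2 = 2 * s * (s - c * Complex.I) := by
    have h5 : Complex.I ^ 2 = -1 := Complex.I_sq
    linear_combination (-1 : ℂ) * h2 - s ^ 2 * h5
  rw [h4]
  field_simp
  have h5 : Complex.I ^ 2 = -1 := Complex.I_sq
  linear_combination h2 - c ^ 2 * h5

lemma one_add_mul {t : ℝ} (ht : Real.sin (Real.pi * t) ≠ 0) : 1 + e t * zt t = zt t := by
  have := zt_mul ht
  linear_combination (-1 : ℂ) * this

lemma sin_lower {θ t : ℝ} (h1 : θ ≤ t) (h2 : t ≤ 1 - θ) (h0 : 0 < θ) : 2 * θ ≤ Real.sin (Real.pi * t) := by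
  have hpi := Real.pi_pos
  rcases le_total t (1 / 2) with h | h
  · have h4 := Real.mul_le_sin (x := Real.pi * t) (by nlinarith) (by nlinarith)
    have h5 : 2 / Real.pi * (Real.pi * t) = 2 * t := by field_simp
    rw [h5] at h4
    linarith
  · have h4 := Real.mul_le_sin (x := Real.pi * (1 - t)) (by nlinarith) (by nlinarith)
    have h5 : 2 / Real.pi * (Real.pi * (1 - t)) = 2 * (1 - t) := by field_simp
    have h6 : Real.sin (Real.pi * (1 - t)) = Real.sin (Real.pi * t) := by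
      rw [mul_sub, mul_one, Real.sin_pi_sub]
    rw [h5, h6] at h4
    linarith

lemma ct_bound {θ t : ℝ} (h1 : θ ≤ t) (h2 : t ≤ 1 - θ) (h0 : 0 < θ) : |ct t| ≤ 1 / (2 * θ) := by
  have h3 := sin_lower h1 h2 h0
  unfold ct
  rw [abs_div, abs_of_pos (by linarith : 0 < Real.sin (Real.pi * t))]
  exact div_le_div₀ (by norm_num) (Real.abs_cos_le_one _) (by positivity) h3

lemma zt_bound {θ t : ℝ} (h1 : θ ≤ t) (h2 : t ≤ 1 - θ) (h0 : 0 < θ) : ‖zt t‖ ≤ 1 / (2 * θ) := by
  have h3 := ct_bound h1 h2 h0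
  have hθ : θ ≤ 1 / 2 := by linarith
  unfold zt
  refine (norm_add_le _ _).trans ?_
  rw [norm_mul, Complex.norm_real, Real.norm_eq_abs]
  have h4 : ‖(1 / 2 : ℂ)‖ = 1 / 2 := by norm_num
  have h5 : ‖Complex.I / 2‖ = 1 / 2 := by norm_num
  rw [h4, h5]
  have h6 : (1 : ℝ) / 2 ≤ 1 / 2 * (1 / (2 * θ)) := by
    have : 1 ≤ 1 / (2 * θ) := by
      rw [le_div_iff₀ (by positivity)]; linarith
    linarith
  have h7 : (1 : ℝ) / 2 * |ct t| ≤ 1 / 2 * (1 / (2 * θ)) := by gcongr
  linarith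

lemma ct_anti {s t : ℝ} (h0 : 0 < t) (h1 : t ≤ s) (h2 : s < 1) : ct s ≤ ct t := by
  have hpi := Real.pi_pos
  have hs : 0 < Real.sin (Real.pi * s) :=
    Real.sin_pos_of_pos_of_lt_pi (by nlinarith) (by nlinarith)
  have ht : 0 < Real.sin (Real.pi * t) :=
    Real.sin_pos_of_pos_of_lt_pi (by nlinarith) (by nlinarith)
  have h3 : ct t - ct s = Real.sin (Real.pi * s - Real.pi * t) /
      (Real.sin (Real.pi * s) * Real.sin (Real.pi * t)) := by
    unfold ct
    rw [Real.sin_sub]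
    field_simp
  have h4 : 0 ≤ Real.sin (Real.pi * s - Real.pi * t) :=
    Real.sin_nonneg_of_nonneg_of_le_pi (by nlinarith) (by nlinarith)
  have h5 : 0 ≤ ct t - ct s := by rw [h3]; positivity
  linarith

lemma zt_diff {s t : ℝ} (h0 : 0 < t) (h1 : t ≤ s) (h2 : s < 1) : ‖zt s - zt t‖ = 1 / 2 * (ct t - ct s) := by
  have h3 := ct_anti h0 h1 h2
  unfold zt
  have h4 : 1 / 2 + Complex.I / 2 * (ct s : ℂ) - (1 / 2 + Complex.I / 2 * (ct t : ℂ)) =
      Complex.I / 2 * ((ct s - ct t : ℝ) : ℂ) := by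
    push_cast; ring
  rw [h4, norm_mul, Complex.norm_real, Real.norm_eq_abs, abs_of_nonpos (by linarith)]
  have h5 : ‖Complex.I / 2‖ = 1 / 2 := by norm_num
  rw [h5]
  ring

/-- Kusmin-Landau, for increasing differences in `[θ, 1 - θ]` -/
lemma kl0 (y : ℕ → ℝ) (m : ℕ) {θ : ℝ} (h0 : 0 < θ)
    (h1 : ∀ i < m, θ ≤ y (i + 1) - y i ∧ y (i + 1) - y i ≤ 1 - θ)
    (h2 : ∀ i, i + 1 < m → y (i + 1) - y i ≤ y (i + 2) - y (i + 1)) (hθ : θ ≤ 1 / 2) :
    ‖∑ i ∈ range (m + 1), e (y i)‖ ≤ 2 / θ := by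
  have hone : 1 ≤ 1 / (2 * θ) := by rw [le_div_iff₀ (by positivity)]; linarith
  rcases Nat.eq_zero_or_pos m with rfl | hm
  · simp only [zero_add, range_one, sum_singleton, norm_e]
    have : 1 / (2 * θ) ≤ 2 / θ := by
      rw [div_le_div_iff₀ (by positivity) h0]; nlinarith
    linarith
  have hsin : ∀ i < m, Real.sin (Real.pi * (y (i + 1) - y i)) ≠ 0 := by
    intro i hi
    have := sin_lower (h1 i hi).1 (h1 i hi).2 h0
    intro h; rw [h] at this; linarith
  have key : ∀ n : ℕ, n < m →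
      ‖∑ i ∈ range (n + 1), e (y i) + e (y (n + 1)) * zt (y (n + 1) - y n)‖ ≤
        1 / (2 * θ) + 1 / 2 * (ct (y 1 - y 0) - ct (y (n + 1) - y n)) := by
    intro n
    induction n with
    | zero =>
      intro hn
      rw [zero_add, range_one, sum_singleton, sub_self, mul_zero, add_zero]
      have h3 : e (y 1) = e (y 0) * e (y 1 - y 0) := by rw [← e_add]; congr 1; ring
      have h4 := one_add_mul (hsin 0 hn)
      rw [zero_add] at h4
      have h5 : e (y 0) + e (y 1) * zt (y 1 - y 0) = e (y 0) * zt (y 1 - y 0) := by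
        rw [h3]
        linear_combination e (y 0) * h4
      rw [h5, norm_mul, norm_e, one_mul]
      exact zt_bound (h1 0 hn).1 (h1 0 hn).2 h0
    | succ n ih =>
      intro hn
      have ih' := ih (by omega)
      rw [sum_range_succ]
      have h3 : e (y (n + 1 + 1)) = e (y (n + 1)) * e (y (n + 1 + 1) - y (n + 1)) := by
        rw [← e_add]; congr 1; ring
      have h4 := one_add_mul (hsin (n + 1) hn)
      have h5 : ∑ i ∈ range (n + 1), e (y i) + e (y (n + 1)) +
          e (y (n + 1 + 1)) * zt (y (n + 1 + 1) - y (n + 1)) =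
          (∑ i ∈ range (n + 1), e (y i) + e (y (n + 1)) * zt (y (n + 1) - y n)) +
            e (y (n + 1)) * (zt (y (n + 1 + 1) - y (n + 1)) - zt (y (n + 1) - y n)) := by
        rw [h3]
        linear_combination e (y (n + 1)) * h4
      rw [h5]
      refine (norm_add_le _ _).trans ?_
      rw [norm_mul, norm_e, one_mul, zt_diff (by have := (h1 n (by omega)).1; linarith)
        (h2 n (by omega)) (by have := (h1 (n + 1) hn).2; linarith)]
      linarith
  obtain ⟨n, rfl⟩ : ∃ n, m = n + 1 := ⟨m - 1, by omega⟩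
  have h3 := key n (by omega)
  have h4 : ‖zt (y (n + 1) - y n)‖ ≤ 1 / (2 * θ) := zt_bound (h1 n (by omega)).1 (h1 n (by omega)).2 h0
  have h5 : |ct (y 1 - y 0)| ≤ 1 / (2 * θ) := ct_bound (h1 0 (by omega)).1 (h1 0 (by omega)).2 h0
  have h6 : |ct (y (n + 1) - y n)| ≤ 1 / (2 * θ) := ct_bound (h1 n (by omega)).1 (h1 n (by omega)).2 h0
  rw [sum_range_succ]
  have h7 : ∑ i ∈ range (n + 1), e (y i) + e (y (n + 1)) =
      (∑ i ∈ range (n + 1), e (y i) + e (y (n + 1)) * zt (y (n + 1) - y n)) +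
        (e (y (n + 1)) - e (y (n + 1)) * zt (y (n + 1) - y n)) := by ring
  rw [h7]
  have h8 : ‖e (y (n + 1)) - e (y (n + 1)) * zt (y (n + 1) - y n)‖ ≤ 1 + 1 / (2 * θ) := by
    refine (norm_sub_le _ _).trans ?_
    rw [norm_mul, norm_e, one_mul]
    linarith
  have h9 := (abs_le.1 h5).2
  have h10 := (abs_le.1 h6).1
  have h11 : 2 / θ = 4 * (1 / (2 * θ)) := by field_simp; norm_num
  refine (norm_add_le _ _).trans ?_
  rw [h11]
  linarith

/-- Kusmin-Landau -/
lemma kl (y : ℕ → ℝ) (m : ℕ) (k : ℤ) {θ : ℝ} (h0 : 0 < θ) (hθ : θ ≤ 1 / 2)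
    (h1 : ∀ i < m, k + θ ≤ y (i + 1) - y i ∧ y (i + 1) - y i ≤ k + 1 - θ)
    (h2 : ∀ i, i + 1 < m → y (i + 1) - y i ≤ y (i + 2) - y (i + 1)) :
    ‖∑ i ∈ range (m + 1), e (y i)‖ ≤ 2 / θ := by
  have h3 : ∑ i ∈ range (m + 1), e (y i) = ∑ i ∈ range (m + 1), e (y i - k * i) := by
    refine sum_congr rfl fun i _ => ?_
    have h4 : e (y i) = e (y i - k * i) * e (((k * i : ℤ)) : ℝ) := by
      rw [← e_add]; congr 1; push_cast; ring
    rw [h4, e_int, mul_one]
  rw [h3]
  refine kl0 (fun i => y i - k * i) m h0 (fun i hi => ?_) (fun i hi => ?_) hθ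
  · have := h1 i hi
    push_cast
    constructor <;> linarith
  · have := h2 i hi
    push_cast
    linarith

/-- the second derivative test for sequences -/
lemma vdc_seq (y : ℕ → ℝ) (m : ℕ) {lam h : ℝ} (hlam : 0 < lam) (hh : 1 ≤ h)
    (h2 : ∀ i, i + 1 < m → lam ≤ (y (i + 2) - y (i + 1)) - (y (i + 1) - y i) ∧
      (y (i + 2) - y (i + 1)) - (y (i + 1) - y i) ≤ h * lam) :
    ‖∑ i ∈ range (m + 1), e (y i)‖ ≤ 13 * h * (((m : ℝ) + 1) * Real.sqrt lam + 1 / Real.sqrt lam) := by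
  have hs0 : 0 < Real.sqrt lam := Real.sqrt_pos.2 hlam
  have hss : Real.sqrt lam * Real.sqrt lam = lam := Real.mul_self_sqrt hlam.le
  set θ := Real.sqrt lam with hθdef
  have htriv : ‖∑ i ∈ range (m + 1), e (y i)‖ ≤ (m : ℝ) + 1 := by
    refine (norm_sum_le _ _).trans ?_
    simp [norm_e]
  by_cases hθ : 1 / 2 < θ
  · refine htriv.trans ?_
    have h3 : 0 < 1 / θ := by positivity
    have h4 : (0 : ℝ) < (m : ℝ) + 1 := by positivity
    have h5 : (m : ℝ) + 1 ≤ 2 * (((m : ℝ) + 1) * θ) := by nlinarith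
    have h6 : 0 ≤ ((m : ℝ) + 1) * θ := by positivity
    nlinarith
  rw [not_lt] at hθ
  set d : ℕ → ℝ := fun i => y (i + 1) - y i with hd
  have hdstep : ∀ i, i + 1 < m → d i + lam ≤ d (i + 1) ∧ d (i + 1) ≤ d i + h * lam := by
    intro i hi
    have := h2 i hi
    rw [hd]
    constructor <;> simp only <;> linarith
  have hdlow : ∀ a b : ℕ, a ≤ b → b < m → d a + (b - a : ℕ) * lam ≤ d b := by
    intro a b hab
    induction b, hab using Nat.le_induction with
    | base => intro _; simp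
    | succ b hab ih =>
      intro hb
      have h3 := ih (by omega)
      have h4 := (hdstep b hb).1
      have h5 : ((b + 1 - a : ℕ) : ℝ) = (b - a : ℕ) + 1 := by
        have : b + 1 - a = (b - a) + 1 := by omega
        rw [this]; push_cast; ring
      rw [h5]; linarith
  have hdup : ∀ a b : ℕ, a ≤ b → b < m → d b ≤ d a + (b - a : ℕ) * (h * lam) := by
    intro a b hab
    induction b, hab using Nat.le_induction with
    | base => intro _; simp
    | succ b hab ih =>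
      intro hb
      have h3 := ih (by omega)
      have h4 := (hdstep b hb).2
      have h5 : ((b + 1 - a : ℕ) : ℝ) = (b - a : ℕ) + 1 := by
        have : b + 1 - a = (b - a) + 1 := by omega
        rw [this]; push_cast; ring
      rw [h5]; linarith
  have hmono : ∀ a b : ℕ, a ≤ b → b < m → d a ≤ d b := by
    intro a b hab hb
    have := hdlow a b hab hb
    have h5 : (0 : ℝ) ≤ (b - a : ℕ) * lam := by positivity
    linarith
  rcases Nat.eq_zero_or_pos m with rfl | hm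
  · refine htriv.trans ?_
    have h3 : 1 ≤ 1 / θ := by rw [le_div_iff₀ hs0]; linarith
    push_cast
    have h4 : 0 ≤ (0 + 1) * θ := by positivity
    nlinarith
  -- convex sets of indices
  have hconv : ∀ S : Finset ℕ, S.Nonempty → S ⊆ range m →
      (∀ a ∈ S, ∀ b ∈ S, ∀ c, a ≤ c → c ≤ b → c ∈ S) →
      ∃ a b, a ≤ b ∧ b < m ∧ a ∈ S ∧ b ∈ S ∧ S = Icc a b := by
    intro S hS hSm hc
    refine ⟨S.min' hS, S.max' hS, S.min'_le _ (S.max'_mem hS), mem_range.1 (hSm (S.max'_mem hS)),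
      S.min'_mem hS, S.max'_mem hS, ?_⟩
    ext c
    rw [mem_Icc]
    constructor
    · intro hcS
      exact ⟨S.min'_le _ hcS, S.le_max' _ hcS⟩
    · rintro ⟨h3, h4⟩
      exact hc _ (S.min'_mem hS) _ (S.max'_mem hS) c h3 h4
  have hgood : ∀ k : ℤ, ‖∑ i ∈ (range m).filter (fun i => k + θ ≤ d i ∧ d i ≤ k + 1 - θ), e (y i)‖ ≤ 2 / θ := by
    intro k
    set S := (range m).filter (fun i => k + θ ≤ d i ∧ d i ≤ k + 1 - θ) with hS
    rcases S.eq_empty_or_nonempty with h3 | h3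
    · rw [h3]; simp; positivity
    obtain ⟨a, b, hab, hbm, _, _, hSI⟩ := hconv S h3 (filter_subset _ _) (by
      intro a ha b hb c hac hcb
      rw [hS, mem_filter, mem_range] at ha hb ⊢
      have hcm : c < m := by omega
      refine ⟨hcm, ?_, ?_⟩
      · exact ha.2.1.trans (hmono a c hac hcm)
      · exact (hmono c b hcb hb.1).trans hb.2.2)
    have hmem : ∀ i, a ≤ i → i ≤ b → k + θ ≤ d i ∧ d i ≤ k + 1 - θ := by
      intro i h4 h5
      have h6 : i ∈ S := by rw [hSI, mem_Icc]; exact ⟨h4, h5⟩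
      rw [hS, mem_filter] at h6
      exact h6.2
    rw [hSI]
    have h4 : ∑ i ∈ Icc a b, e (y i) = ∑ i ∈ range ((b - a) + 1), e (y (a + i)) := by
      have h5 : Icc a b = Ico a (b + 1) := by
        ext i; simp only [mem_Icc, mem_Ico]; omega
      rw [h5, sum_Ico_eq_sum_range]
      have h6 : b + 1 - a = (b - a) + 1 := by omega
      rw [h6]
    rw [h4]
    refine kl (fun i => y (a + i)) (b - a) k hs0 hθ (fun i hi => ?_) (fun i hi => ?_)
    · have := hmem (a + i) (by omega) (by omega)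
      rw [hd] at this
      exact this
    · have := hmono (a + i) (a + i + 1) (by omega) (by omega)
      rw [hd] at this
      exact this
  have hbad : ∀ u : ℝ, (((range m).filter (fun i => u ≤ d i ∧ d i ≤ u + θ)).card : ℝ) ≤ θ / lam + 1 := by
    intro u
    set S := (range m).filter (fun i => u ≤ d i ∧ d i ≤ u + θ) with hS
    rcases S.eq_empty_or_nonempty with h3 | h3
    · rw [h3]; simp; positivity
    obtain ⟨a, b, hab, hbm, haS, hbS, hSI⟩ := hconv S h3 (filter_subset _ _) (by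
      intro a ha b hb c hac hcb
      rw [hS, mem_filter, mem_range] at ha hb ⊢
      have hcm : c < m := by omega
      refine ⟨hcm, ?_, ?_⟩
      · exact ha.2.1.trans (hmono a c hac hcm)
      · exact (hmono c b hcb hb.1).trans hb.2.2)
    rw [hS, mem_filter] at haS hbS
    have h4 := hdlow a b hab hbm
    have h5 : ((b - a : ℕ) : ℝ) * lam ≤ θ := by linarith [haS.2.1, hbS.2.2]
    rw [hSI, Nat.card_Icc]
    have h6 : ((b + 1 - a : ℕ) : ℝ) = (b - a : ℕ) + 1 := by
      have : b + 1 - a = (b - a) + 1 := by omega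
      rw [this]; push_cast; ring
    rw [h6]
    have h7 : ((b - a : ℕ) : ℝ) ≤ θ / lam := by rw [le_div_iff₀ hlam]; exact h5
    linarith
  -- fibres of the floor
  have hfib : ∀ k : ℤ, ‖∑ i ∈ (range m).filter (fun i => ⌊d i⌋ = k), e (y i)‖ ≤
      2 / θ + 2 * (θ / lam + 1) := by
    intro k
    have hsplit : (range m).filter (fun i => ⌊d i⌋ = k) ⊆
        (range m).filter (fun i => k + θ ≤ d i ∧ d i ≤ k + 1 - θ) ∪
        ((range m).filter (fun i => (k : ℝ) ≤ d i ∧ d i ≤ k + θ) ∪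
          (range m).filter (fun i => (k : ℝ) + 1 - θ ≤ d i ∧ d i ≤ k + 1 - θ + θ)) := by
      intro i hi
      rw [mem_filter] at hi
      have h3 := Int.floor_le (d i)
      have h4 := Int.lt_floor_add_one (d i)
      rw [hi.2] at h3 h4
      simp only [mem_union, mem_filter]
      by_cases h5 : d i < k + θ
      · exact Or.inr (Or.inl ⟨hi.1, h3, h5.le⟩)
      · by_cases h6 : d i ≤ k + 1 - θ
        · exact Or.inl ⟨hi.1, not_lt.1 h5, h6⟩
        · exact Or.inr (Or.inr ⟨hi.1, (not_le.1 h6).le, by linarith⟩)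
    -- good part is inside the fibre, except possibly nothing
    have hgsub : (range m).filter (fun i => k + θ ≤ d i ∧ d i ≤ k + 1 - θ) ⊆
        (range m).filter (fun i => ⌊d i⌋ = k) := by
      intro i hi
      rw [mem_filter] at hi ⊢
      refine ⟨hi.1, ?_⟩
      rw [Int.floor_eq_iff]
      constructor <;> linarith [hi.2.1, hi.2.2]
    rw [← sum_sdiff hgsub]
    refine (norm_add_le _ _).trans ?_
    have h3 : ‖∑ i ∈ (range m).filter (fun i => ⌊d i⌋ = k) \
        (range m).filter (fun i => k + θ ≤ d i ∧ d i ≤ k + 1 - θ), e (y i)‖ ≤ 2 * (θ / lam + 1) := by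
      refine (norm_sum_le _ _).trans ?_
      simp only [norm_e, sum_const, nsmul_eq_mul, mul_one]
      have h4 : (range m).filter (fun i => ⌊d i⌋ = k) \
          (range m).filter (fun i => k + θ ≤ d i ∧ d i ≤ k + 1 - θ) ⊆
          ((range m).filter (fun i => (k : ℝ) ≤ d i ∧ d i ≤ k + θ) ∪
          (range m).filter (fun i => (k : ℝ) + 1 - θ ≤ d i ∧ d i ≤ k + 1 - θ + θ)) := by
        intro i hi
        rw [mem_sdiff] at hi
        have := hsplit hi.1
        rw [mem_union] at this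
        rcases this with h5 | h5
        · exact absurd h5 hi.2
        · exact h5
      have h5 := card_le_card h4
      have h6 := card_union_le ((range m).filter (fun i => (k : ℝ) ≤ d i ∧ d i ≤ k + θ))
          ((range m).filter (fun i => (k : ℝ) + 1 - θ ≤ d i ∧ d i ≤ k + 1 - θ + θ))
      have h7 := hbad k
      have h8 := hbad ((k : ℝ) + 1 - θ)
      have h9 : (((range m).filter (fun i => ⌊d i⌋ = k) \
          (range m).filter (fun i => k + θ ≤ d i ∧ d i ≤ k + 1 - θ)).card : ℝ) ≤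
          ((range m).filter (fun i => (k : ℝ) ≤ d i ∧ d i ≤ k + θ)).card +
          ((range m).filter (fun i => (k : ℝ) + 1 - θ ≤ d i ∧ d i ≤ k + 1 - θ + θ)).card := by
        exact_mod_cast h5.trans h6
      linarith
    have h4 := hgood k
    linarith
  -- the integers involved
  have hmaps : ∀ i ∈ range m, ⌊d i⌋ ∈ Icc ⌊d 0⌋ ⌊d (m - 1)⌋ := by
    intro i hi
    rw [mem_range] at hi
    rw [mem_Icc]
    exact ⟨Int.floor_le_floor (hmono 0 i (by omega) hi), Int.floor_le_floor (hmono i (m - 1) (by omega) (by omega))⟩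
  have hcard : ((Icc ⌊d 0⌋ ⌊d (m - 1)⌋).card : ℝ) ≤ m * (h * lam) + 2 := by
    rw [Int.card_Icc]
    have h3 := hdup 0 (m - 1) (by omega) (by omega)
    have h4 := hmono 0 (m - 1) (by omega) (by omega)
    have h5 : (0 : ℤ) ≤ ⌊d (m - 1)⌋ + 1 - ⌊d 0⌋ := by
      have := Int.floor_le_floor h4
      omega
    have h6 : (((⌊d (m - 1)⌋ + 1 - ⌊d 0⌋).toNat : ℤ) : ℝ) = ((⌊d (m - 1)⌋ + 1 - ⌊d 0⌋ : ℤ) : ℝ) := by
      rw [Int.toNat_of_nonneg h5]
    have h7 : (((⌊d (m - 1)⌋ + 1 - ⌊d 0⌋).toNat : ℕ) : ℝ) = ((⌊d (m - 1)⌋ + 1 - ⌊d 0⌋ : ℤ) : ℝ) := by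
      rw [← h6]; norm_cast
    rw [h7]
    push_cast
    have h8 := Int.floor_le (d (m - 1))
    have h9 := Int.lt_floor_add_one (d 0)
    have h10 : ((m - 1 - 0 : ℕ) : ℝ) * (h * lam) ≤ m * (h * lam) := by
      have : ((m - 1 - 0 : ℕ) : ℝ) ≤ m := by
        have : m - 1 - 0 ≤ m := by omega
        exact_mod_cast this
      gcongr
    linarith
  have hsum : ‖∑ i ∈ range m, e (y i)‖ ≤ (m * (h * lam) + 2) * (2 / θ + 2 * (θ / lam + 1)) := by
    rw [← sum_fiberwise_of_maps_to hmaps]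
    calc _ ≤ ∑ k ∈ Icc ⌊d 0⌋ ⌊d (m - 1)⌋, (2 / θ + 2 * (θ / lam + 1)) :=
          (norm_sum_le _ _).trans (sum_le_sum fun k _ => hfib k)
      _ = ((Icc ⌊d 0⌋ ⌊d (m - 1)⌋).card : ℝ) * (2 / θ + 2 * (θ / lam + 1)) := by
          rw [sum_const, nsmul_eq_mul]
      _ ≤ _ := by gcongr
  have h3 : θ / lam = 1 / θ := by
    rw [← hss]; field_simp
  have h4 : 1 ≤ 1 / (2 * θ) := by rw [le_div_iff₀ (by positivity)]; linarith
  have h5 : 2 / θ + 2 * (θ / lam + 1) ≤ 5 * (1 / θ) := by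
    rw [h3]
    have h6 : 1 / (2 * θ) = 1 / 2 * (1 / θ) := by field_simp
    have h7 : 2 / θ = 2 * (1 / θ) := by ring
    rw [h7]
    rw [h6] at h4
    linarith
  have h6 : 1 ≤ 1 / 2 * (1 / θ) := by
    have h6 : 1 / (2 * θ) = 1 / 2 * (1 / θ) := by field_simp
    rwa [h6] at h4
  rw [sum_range_succ]
  refine (norm_add_le _ _).trans ?_
  rw [norm_e]
  have h7 : (m * (h * lam) + 2) * (2 / θ + 2 * (θ / lam + 1)) ≤ (m * (h * lam) + 2) * (5 * (1 / θ)) := by
    gcongr
  have h8 : (m * (h * lam) + 2) * (5 * (1 / θ)) = 5 * h * (m * θ) + 10 * (1 / θ) := by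
    rw [← hss]
    field_simp
    ring
  have h9 : (0 : ℝ) < 1 / θ := by positivity
  have h10 : (0 : ℝ) ≤ (m : ℝ) * θ := by positivity
  have h11 : 1 / θ ≤ h * (1 / θ) := by nlinarith
  have h12 : 0 ≤ h * (m * θ) := by positivity
  have h13 : 0 ≤ h * θ := by positivity
  calc ‖∑ i ∈ range m, e (y i)‖ + 1 ≤ 5 * h * (m * θ) + 10 * (1 / θ) + 1 / 2 * (1 / θ) := by linarith
    _ ≤ 13 * h * ((m + 1) * θ + 1 / θ) := by
        have : 13 * h * ((m + 1) * θ + 1 / θ) = 13 * (h * (m * θ)) + 13 * (h * θ) + 13 * (h * (1 / θ)) := by ring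
        rw [this]
        have : 5 * h * (m * θ) = 5 * (h * (m * θ)) := by ring
        rw [this]
        linarith

lemma second_diff {f f1 f2 : ℝ → ℝ} {M L : ℝ}
    (hf : ∀ x ∈ Set.Icc M L, HasDerivWithinAt f (f1 x) (Set.Icc M L) x)
    (hf1 : ∀ x ∈ Set.Icc M L, HasDerivWithinAt f1 (f2 x) (Set.Icc M L) x) {a : ℝ} (ha : M ≤ a)
    (haL : a + 2 ≤ L) : ∃ ξ ∈ Set.Icc M L, (f (a + 2) - f (a + 1)) - (f (a + 1) - f a) = f2 ξ := by
  have hfc : ContinuousOn f (Set.Icc M L) := fun x hx => (hf x hx).continuousWithinAt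
  have hf1c : ContinuousOn f1 (Set.Icc M L) := fun x hx => (hf1 x hx).continuousWithinAt
  have hfd : ∀ x, M < x → x < L → HasDerivAt f (f1 x) x := fun x h1 h2 =>
    (hf x ⟨h1.le, h2.le⟩).hasDerivAt (Icc_mem_nhds h1 h2)
  have hf1d : ∀ x, M < x → x < L → HasDerivAt f1 (f2 x) x := fun x h1 h2 =>
    (hf1 x ⟨h1.le, h2.le⟩).hasDerivAt (Icc_mem_nhds h1 h2)
  have hc1 : ContinuousOn (fun t : ℝ => f (a + 1 + t) - f (a + t)) (Set.Icc 0 1) := by
    refine ContinuousOn.sub ?_ ?_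
    · refine hfc.comp (by fun_prop) fun t ht => ?_
      rw [Set.mem_Icc] at ht ⊢
      constructor <;> linarith [ht.1, ht.2]
    · refine hfc.comp (by fun_prop) fun t ht => ?_
      rw [Set.mem_Icc] at ht ⊢
      constructor <;> linarith [ht.1, ht.2]
  obtain ⟨t, ht, ht2⟩ := exists_hasDerivAt_eq_slope (fun t : ℝ => f (a + 1 + t) - f (a + t))
    (fun t => f1 (a + 1 + t) - f1 (a + t)) (zero_lt_one) hc1 (fun t ht => by
      rw [Set.mem_Ioo] at ht
      have h1 : HasDerivAt (fun t : ℝ => f (a + 1 + t)) (f1 (a + 1 + t)) t := by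
        have := (hfd (a + 1 + t) (by linarith [ht.1]) (by linarith [ht.2]))
        simpa using this.comp_const_add (a + 1) t
      have h2 : HasDerivAt (fun t : ℝ => f (a + t)) (f1 (a + t)) t := by
        have := (hfd (a + t) (by linarith [ht.1]) (by linarith [ht.2]))
        simpa using this.comp_const_add a t
      exact h1.sub h2)
  rw [Set.mem_Ioo] at ht
  have hc2 : ContinuousOn f1 (Set.Icc (a + t) (a + 1 + t)) := hf1c.mono (by
    intro x hx
    rw [Set.mem_Icc] at hx ⊢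
    constructor <;> linarith [hx.1, hx.2, ht.1, ht.2])
  obtain ⟨ξ, hξ, hξ2⟩ := exists_hasDerivAt_eq_slope f1 f2 (show a + t < a + 1 + t by linarith) hc2
    (fun x hx => by
      rw [Set.mem_Ioo] at hx
      exact hf1d x (by linarith [hx.1, ht.1]) (by linarith [hx.2, ht.2]))
  rw [Set.mem_Ioo] at hξ
  refine ⟨ξ, ⟨by linarith [hξ.1, ht.1], by linarith [hξ.2, ht.2]⟩, ?_⟩
  rw [hξ2]
  have h3 : a + 1 + t - (a + t) = 1 := by ring
  rw [h3, div_one, ht2]
  norm_num
  ring_nf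

/-- The second derivative test. -/
theorem vdc2 : S_VDC2 := by
  refine ⟨13, ?_⟩
  intro M L f f1 f2 lam h hML hlam hh hf hf1 hf2
  -- the case of a positive second derivative
  have pos : ∀ f f1 f2 : ℝ → ℝ,
      (∀ x ∈ Set.Icc (M : ℝ) L, HasDerivWithinAt f (f1 x) (Set.Icc (M : ℝ) L) x) →
      (∀ x ∈ Set.Icc (M : ℝ) L, HasDerivWithinAt f1 (f2 x) (Set.Icc (M : ℝ) L) x) →
      (∀ x ∈ Set.Icc (M : ℝ) L, lam ≤ f2 x ∧ f2 x ≤ h * lam) →
      ‖∑ n ∈ Icc M L, e (f n)‖ ≤ 13 * h * (((L : ℝ) - M + 1) * Real.sqrt lam + 1 / Real.sqrt lam) := by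
    intro f f1 f2 hf hf1 hf2
    obtain ⟨m, rfl⟩ : ∃ m, L = M + m := ⟨L - M, by omega⟩
    have h5 : Icc M (M + m) = Ico M (M + m + 1) := by
      ext i; simp only [mem_Icc, mem_Ico]; omega
    have h6 : M + m + 1 - M = m + 1 := by omega
    rw [h5, sum_Ico_eq_sum_range, h6]
    have h7 := vdc_seq (fun i => f ((M + i : ℕ) : ℝ)) m hlam hh (fun i hi => by
      obtain ⟨ξ, hξ, hξ2⟩ := second_diff hf hf1 (a := (M : ℝ) + i) (by simp) (by
        push_cast
        have : (i : ℝ) + 1 + 1 ≤ m := by exact_mod_cast hi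
        linarith)
      have h8 := hf2 ξ hξ
      rw [← hξ2] at h8
      have e1 : (((M + (i + 2) : ℕ)) : ℝ) = (M : ℝ) + i + 2 := by push_cast; ring
      have e2 : (((M + (i + 1) : ℕ)) : ℝ) = (M : ℝ) + i + 1 := by push_cast; ring
      have e3 : (((M + i : ℕ)) : ℝ) = (M : ℝ) + i := by push_cast; ring
      simp only [e1, e2, e3]
      exact h8)
    refine h7.trans (le_of_eq ?_)
    push_cast
    ring
  by_cases hlt : M = L
  · subst hlt
    rw [Icc_self, sum_singleton, norm_e]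
    have hs0 : 0 < Real.sqrt lam := Real.sqrt_pos.2 hlam
    have h1 : 1 ≤ Real.sqrt lam + 1 / Real.sqrt lam := by
      have h2 : Real.sqrt lam * (1 / Real.sqrt lam) = 1 := by field_simp
      have h3 : 0 < 1 / Real.sqrt lam := by positivity
      nlinarith [sq_nonneg (Real.sqrt lam - 1 / Real.sqrt lam)]
    rw [sub_self, zero_add, one_mul]
    nlinarith
  rcases hasDerivWithinAt_forall_lt_or_forall_gt_of_forall_ne (convex_Icc (M : ℝ) L) hf1
    (m := 0) (fun x hx h0 => by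
      have := (hf2 x hx).1
      rw [h0, abs_zero] at this
      linarith) with hneg | hpos
  · -- negative
    have h1 := pos (fun x => - f x) (fun x => - f1 x) (fun x => - f2 x) (fun x hx => (hf x hx).neg)
      (fun x hx => (hf1 x hx).neg) (fun x hx => by
        have := hf2 x hx
        rwa [abs_of_neg (hneg x hx)] at this)
    have h2 : ‖∑ n ∈ Icc M L, e (f n)‖ = ‖∑ n ∈ Icc M L, e (- f n)‖ := by
      have h3 : ∑ n ∈ Icc M L, e (- f n) = (starRingEnd ℂ) (∑ n ∈ Icc M L, e (f n)) := by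
        rw [map_sum]
        exact sum_congr rfl fun n _ => (conj_e _).symm
      rw [h3, RCLike.norm_conj]
    rw [h2]
    exact h1
  · exact pos f f1 f2 hf hf1 (fun x hx => by
      have := hf2 x hx
      rwa [abs_of_pos (hpos x hx)] at this)

end Pool.Agent.Helper11.EP
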