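import Pool.Agent.Helper11.EP.Lower
import Pool.Agent.Helper11.EP.VDC2
import Pool.Agent.Helper91.EP.VDC3

/-!
# Exponent pairs for the functions with `k` controlled derivatives
-/

set_option autoImplicit false

namespace Pool.Agent.Helper11.EP

open Finset Filter

/-- The conditions of the problem for the derivatives of the orders `0, 1, …, k` only: `f` is smooth on
`[N, 2N]` and `c_j F / N ^ j ≤ |f^(j)| ≤ C_j F / N ^ j` there for all `j ≤ k`. -/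
def Admissible (k : ℕ) (c C : ℕ → ℝ) (N F : ℝ) (f : ℝ → ℝ) : Prop :=
  ContDiffOn ℝ (⊤ : ℕ∞) f (Set.Icc N (2 * N)) ∧
    ∀ j ≤ k, ∀ x ∈ Set.Icc N (2 * N),
      c j * F / N ^ j ≤ |iteratedDerivWithin j f (Set.Icc N (2 * N)) x| ∧
      |iteratedDerivWithin j f (Set.Icc N (2 * N)) x| ≤ C j * F / N ^ j

/-- `(p, q)` is an exponent pair for the functions with `k` controlled derivatives. -/
def IsPair (k : ℕ) (p q : ℝ) : Prop :=
  0 ≤ p ∧ p ≤ 1 / 2 ∧ 0 ≤ q ∧ q ≤ 1 / 2 ∧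
  ∀ ε : ℝ, 0 < ε → ∀ c C : ℕ → ℝ, (∀ j, 0 < c j) → (∀ j, 0 < C j) →
    ∃ K : ℝ, ∀ N N' F : ℝ, ∀ f : ℝ → ℝ, 2 ≤ N → N ≤ N' → N' ≤ 2 * N → N ≤ F →
      Admissible k c C N F f →
      ‖∑ n ∈ Icc ⌈N⌉₊ ⌊N'⌋₊, Complex.exp (2 * (Real.pi : ℂ) * Complex.I * ((f (n : ℝ) : ℝ) : ℂ))‖ ≤
        K * F ^ p * N ^ (q - p + 1 / 2) * F ^ ε

lemma fac_low (j : ℕ) : (1 : ℝ) / 4 ≤ (j.factorial : ℝ) / 2 ^ (j + 1) := by
  rw [le_div_iff₀ (by positivity)]
  have h : 2 ^ j ≤ 2 * j.factorial := by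
    induction j with
    | zero => simp
    | succ j ih =>
      rcases Nat.eq_zero_or_pos j with rfl | hj
      · simp
      · rw [pow_succ, Nat.factorial_succ]
        have h1 : 2 ≤ j + 1 := by omega
        nlinarith [Nat.factorial_pos j]
  have h' : ((2 : ℝ) ^ j) ≤ 2 * (j.factorial : ℝ) := by exact_mod_cast h
  rw [pow_succ]
  linarith

lemma inv_deriv (a : ℝ) (j : ℕ) {x : ℝ} (hx : 0 < x) :
    |iteratedDeriv j (fun x : ℝ => a * x⁻¹) x| = |a| * ((j.factorial : ℝ) / x ^ (j + 1)) := by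
  rw [iteratedDeriv_const_mul_field]
  have h1 : iteratedDeriv j (fun x : ℝ => x⁻¹) x = deriv^[j] Inv.inv x := by
    rw [iteratedDeriv_eq_iterate]
  rw [h1, iter_deriv_inv, abs_mul, abs_mul, abs_mul, abs_pow, abs_neg, abs_one, one_pow, one_mul]
  congr 1
  rw [Nat.abs_cast, abs_of_pos (by positivity), div_eq_mul_inv]
  congr 1
  rw [show (-1 - (j : ℤ)) = -((j + 1 : ℕ) : ℤ) by push_cast; ring, zpow_neg, zpow_natCast]

lemma model_adm (k : ℕ) {N : ℕ} (hN : 2 ≤ N) {F : ℝ} (hF : (N : ℝ) ≤ F) {P : ℝ → ℝ}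
    (hP : Small k (1 / 8) N F P) :
    Admissible k (fun _ => 1 / 8) (fun j => (j.factorial : ℝ) + 1) N F
      (fun x => F * (1 / (x / N)) + P x) := by
  have hN0 : (0 : ℝ) < N := by
    have : 0 < N := by omega
    exact_mod_cast this
  have hF0 : 0 < F := by linarith
  have e0 : (fun x : ℝ => F * (1 / (x / N)) + P x) = fun x => (fun x : ℝ => (F * N) * x⁻¹) x + P x := by
    funext x
    simp only [one_div, inv_div]
    ring
  rw [e0]
  constructor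
  · refine ContDiffOn.add ?_ hP.1.contDiffOn
    refine ContDiffOn.mul contDiffOn_const ?_
    refine ContDiffOn.inv contDiffOn_id fun x hx => ?_
    exact (lt_of_lt_of_le hN0 hx.1).ne'
  · intro j hj x hx
    have hx0 : 0 < x := lt_of_lt_of_le hN0 hx.1
    have hus : UniqueDiffOn ℝ (Set.Icc (N : ℝ) (2 * N)) := uniqueDiffOn_Icc (by linarith)
    have hcd1 : ContDiffAt ℝ j (fun x : ℝ => (F * N) * x⁻¹) x :=
      ContDiffAt.mul contDiffAt_const (contDiffAt_inv ℝ hx0.ne')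
    have hcd2 : ContDiffAt ℝ j P x := (hP.1.of_le (by exact_mod_cast le_top)).contDiffAt
    rw [iteratedDerivWithin_eq_iteratedDeriv hus (hcd1.add hcd2) hx, iteratedDeriv_fun_add hcd1 hcd2]
    have h1 := inv_deriv (F * N) j hx0
    have h2 := hP.2 j hj x hx
    have hNj : 0 < (N : ℝ) ^ j := by positivity
    have h3 : |F * (N : ℝ)| = F * N := abs_of_pos (by positivity)
    rw [h3] at h1
    have h4 : 1 / 4 * F / (N : ℝ) ^ j ≤ F * N * ((j.factorial : ℝ) / x ^ (j + 1)) := by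
      have h5 : x ^ (j + 1) ≤ (2 * (N : ℝ)) ^ (j + 1) := by
        have := hx.2
        gcongr
      calc 1 / 4 * F / (N : ℝ) ^ j ≤ ((j.factorial : ℝ) / 2 ^ (j + 1)) * F / (N : ℝ) ^ j := by
            have := fac_low j
            gcongr
        _ = F * N * ((j.factorial : ℝ) / (2 * (N : ℝ)) ^ (j + 1)) := by
            rw [mul_pow, pow_succ (N : ℝ) j]
            field_simp
        _ ≤ _ := by gcongr
    have h6 : F * N * ((j.factorial : ℝ) / x ^ (j + 1)) ≤ (j.factorial : ℝ) * F / (N : ℝ) ^ j := by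
      have h5 : (N : ℝ) ^ (j + 1) ≤ x ^ (j + 1) := by
        have := hx.1
        gcongr
      calc F * N * ((j.factorial : ℝ) / x ^ (j + 1)) ≤ F * N * ((j.factorial : ℝ) / (N : ℝ) ^ (j + 1)) := by
            gcongr
        _ = _ := by
            rw [pow_succ (N : ℝ) j]
            field_simp
    set u := iteratedDeriv j (fun x : ℝ => (F * N) * x⁻¹) x
    set v := iteratedDeriv j P x
    have e1 : (1 : ℝ) / 4 * F / (N : ℝ) ^ j = 1 / 8 * F / (N : ℝ) ^ j + 1 / 8 * F / (N : ℝ) ^ j := by ring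
    have e2 : ((j.factorial : ℝ) + 1) * F / (N : ℝ) ^ j =
        (j.factorial : ℝ) * F / (N : ℝ) ^ j + F / (N : ℝ) ^ j := by ring
    have e3 : 1 / 8 * F / (N : ℝ) ^ j ≤ F / (N : ℝ) ^ j := by
      gcongr
      linarith
    have h7 : |u| - |v| ≤ |u + v| := by
      have := abs_add_le (u + v) (-v)
      rw [abs_neg] at this
      have h8 : u + v + -v = u := by ring
      rw [h8] at this
      linarith
    have h8 := abs_add_le u v
    constructor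
    · linarith
    · linarith

lemma pair_low (k : ℕ) (hk : 3 ≤ k) (p q : ℝ) (h : IsPair k p q) :
    1 / 2 ≤ ((k : ℝ) - 1) * p + q ∧ 1 / 2 ≤ p + ((k : ℝ) - 1) * q := by
  refine part2 k hk (1 / 8) (by norm_num) (fun u => 1 / u) p q fun ε hε => ?_
  obtain ⟨_, _, _, _, h5⟩ := h
  obtain ⟨K, hK⟩ := h5 ε hε (fun _ => 1 / 8) (fun j => (j.factorial : ℝ) + 1) (fun _ => by norm_num)
    (fun j => by positivity)
  refine ⟨K, fun N F hN hF P hP => ?_⟩
  have hN2 : (2 : ℝ) ≤ N := by exact_mod_cast hN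
  have h6 := hK N (2 * N) F (fun x => F * (1 / (x / N)) + P x) hN2 (by linarith) le_rfl hF
    (model_adm k hN hF hP)
  have e1 : ⌈(N : ℝ)⌉₊ = N := Nat.ceil_natCast N
  have e2 : ⌊2 * (N : ℝ)⌋₊ = 2 * N := by
    have : (2 * (N : ℝ)) = ((2 * N : ℕ) : ℝ) := by push_cast; ring
    rw [this, Nat.floor_natCast]
  rw [e1, e2] at h6
  exact h6

/-- the three upper bounds -/
lemma upper3core (c2 C2 c3 C3 : ℝ) (hc2 : 0 < c2) (hc3 : 0 < c3) :
    ∃ K : ℝ, 0 < K ∧ ∀ N N' F : ℝ, ∀ f f1 f2 f3 : ℝ → ℝ, 2 ≤ N → N ≤ N' → N' ≤ 2 * N → N ≤ F →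
      (∀ x ∈ Set.Icc N (2 * N), HasDerivWithinAt f (f1 x) (Set.Icc N (2 * N)) x) →
      (∀ x ∈ Set.Icc N (2 * N), HasDerivWithinAt f1 (f2 x) (Set.Icc N (2 * N)) x) →
      (∀ x ∈ Set.Icc N (2 * N), HasDerivWithinAt f2 (f3 x) (Set.Icc N (2 * N)) x) →
      (∀ x ∈ Set.Icc N (2 * N), c2 * F / N ^ 2 ≤ |f2 x| ∧ |f2 x| ≤ C2 * F / N ^ 2) →
      (∀ x ∈ Set.Icc N (2 * N), c3 * F / N ^ 3 ≤ |f3 x| ∧ |f3 x| ≤ C3 * F / N ^ 3) →
      ‖∑ n ∈ Icc ⌈N⌉₊ ⌊N'⌋₊, e (f n)‖ ≤ K * N ∧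
      ‖∑ n ∈ Icc ⌈N⌉₊ ⌊N'⌋₊, e (f n)‖ ≤ K * F ^ (1 / 2 : ℝ) ∧
      (N ^ (3 / 2 : ℝ) ≤ F → ‖∑ n ∈ Icc ⌈N⌉₊ ⌊N'⌋₊, e (f n)‖ ≤ K * (F ^ (1 / 6 : ℝ) * N ^ (1 / 2 : ℝ))) := by
  obtain ⟨K2, hK2⟩ := vdc2
  obtain ⟨K3, hK3⟩ := Pool.Agent.Helper91.EP.vdc3 vdc2
  set h2 : ℝ := max 1 (C2 / c2) with hh2
  set h3 : ℝ := max 1 (C3 / c3) with hh3
  have hh21 : 1 ≤ h2 := le_max_left _ _
  have hh31 : 1 ≤ h3 := le_max_left _ _
  have hs2 : 0 < Real.sqrt c2 := Real.sqrt_pos.2 hc2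
  set A2 : ℝ := |K2| * h2 * (2 * Real.sqrt c2 + 1 / Real.sqrt c2) with hA2
  set A3 : ℝ := |K3| * h3 * (2 * c3 ^ (1 / 6 : ℝ) + 2 * c3 ^ (-(1 / 6) : ℝ)) with hA3
  have hc3a : 0 < c3 ^ (1 / 6 : ℝ) := Real.rpow_pos_of_pos hc3 _
  have hc3b : 0 < c3 ^ (-(1 / 6) : ℝ) := Real.rpow_pos_of_pos hc3 _
  have hA20 : 0 ≤ A2 := by positivity
  have hA30 : 0 ≤ A3 := by positivity
  refine ⟨2 + A2 + A3, by positivity, ?_⟩
  intro N N' F f f1 f2 f3 hN hN' hN'2 hF hf hf1 hf2 hb2 hb3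
  have hN0 : 0 < N := by linarith
  have hF0 : 0 < F := by linarith
  set M := ⌈N⌉₊ with hM
  set L := ⌊N'⌋₊ with hL
  have hMN : N ≤ M := Nat.le_ceil N
  have hLN : (L : ℝ) ≤ 2 * N := (Nat.floor_le (by linarith)).trans hN'2
  by_cases hML : M ≤ L
  swap
  · have : Icc M L = ∅ := Icc_eq_empty (by omega)
    rw [this, sum_empty, norm_zero]
    refine ⟨by positivity, by positivity, fun _ => by positivity⟩
  have hlen : (L : ℝ) - M + 1 ≤ 2 * N := by linarith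
  have hlen0 : 0 < (L : ℝ) - M + 1 := by
    have : (M : ℝ) ≤ L := by exact_mod_cast hML
    linarith
  set s := Set.Icc N (2 * N) with hs
  have hsub : Set.Icc (M : ℝ) L ⊆ s := by
    intro x hx
    rw [hs, Set.mem_Icc]
    constructor <;> linarith [hx.1, hx.2]
  refine ⟨?_, ?_, ?_⟩
  · calc ‖∑ n ∈ Icc M L, e (f n)‖ ≤ (L : ℝ) - M + 1 := by
          refine (norm_sum_le _ _).trans ?_
          simp only [norm_e, sum_const, nsmul_eq_mul, mul_one, Nat.card_Icc]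
          have h4 : ((L + 1 - M : ℕ) : ℝ) = (L : ℝ) - M + 1 := by
            rw [Nat.cast_sub (by omega)]; push_cast; ring
          rw [h4]
      _ ≤ 2 * N := hlen
      _ ≤ (2 + A2 + A3) * N := by nlinarith
  · set lam : ℝ := c2 * F / N ^ 2 with hlam
    have hlam0 : 0 < lam := by positivity
    have h4 := hK2 M L f f1 f2 lam h2 hML hlam0 hh21
      (fun x hx => (hf x (hsub hx)).mono hsub) (fun x hx => (hf1 x (hsub hx)).mono hsub) (fun x hx => by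
        have h5 := hb2 x (hsub hx)
        refine ⟨h5.1, h5.2.trans ?_⟩
        rw [hlam]
        have h6 : C2 ≤ h2 * c2 := by
          have : C2 / c2 ≤ h2 := le_max_right _ _
          rwa [div_le_iff₀ hc2] at this
        calc C2 * F / N ^ 2 ≤ (h2 * c2) * F / N ^ 2 := by gcongr
          _ = _ := by ring)
    have hsq : Real.sqrt lam = Real.sqrt c2 * Real.sqrt F / N := by
      rw [hlam, Real.sqrt_div (by positivity), Real.sqrt_mul hc2.le, Real.sqrt_sq hN0.le]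
    have hsF : 0 < Real.sqrt F := Real.sqrt_pos.2 hF0
    have hFF : Real.sqrt F * Real.sqrt F = F := Real.mul_self_sqrt hF0.le
    have h7 : ((L : ℝ) - M + 1) * Real.sqrt lam + 1 / Real.sqrt lam ≤
        (2 * Real.sqrt c2 + 1 / Real.sqrt c2) * Real.sqrt F := by
      rw [hsq]
      have h8 : ((L : ℝ) - M + 1) * (Real.sqrt c2 * Real.sqrt F / N) ≤ 2 * Real.sqrt c2 * Real.sqrt F := by
        calc ((L : ℝ) - M + 1) * (Real.sqrt c2 * Real.sqrt F / N) ≤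
              (2 * N) * (Real.sqrt c2 * Real.sqrt F / N) := by gcongr
          _ = _ := by field_simp
      have h9 : 1 / (Real.sqrt c2 * Real.sqrt F / N) ≤ 1 / Real.sqrt c2 * Real.sqrt F := by
        have h10 : 1 / (Real.sqrt c2 * Real.sqrt F / N) = 1 / Real.sqrt c2 * (N / Real.sqrt F) := by
          field_simp
        rw [h10]
        have h11 : N / Real.sqrt F ≤ Real.sqrt F := by
          rw [div_le_iff₀ hsF, hFF]; exact hF
        gcongr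
      linarith
    have h12 : ((L : ℝ) - M + 1) * Real.sqrt lam + 1 / Real.sqrt lam ≥ 0 := by positivity
    rw [← Real.sqrt_eq_rpow]
    calc ‖∑ n ∈ Icc M L, e (f n)‖ ≤ K2 * h2 * (((L : ℝ) - M + 1) * Real.sqrt lam + 1 / Real.sqrt lam) := h4
      _ ≤ |K2| * h2 * ((2 * Real.sqrt c2 + 1 / Real.sqrt c2) * Real.sqrt F) := by
          have := le_abs_self K2
          gcongr
      _ = A2 * Real.sqrt F := by rw [hA2]; ring
      _ ≤ (2 + A2 + A3) * Real.sqrt F := by gcongr; linarith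
  · intro hF32
    set lam : ℝ := c3 * F / N ^ 3 with hlam
    have hlam0 : 0 < lam := by positivity
    have h4 := hK3 M L f f1 f2 f3 lam h3 hML hlam0 hh31
      (fun x hx => (hf x (hsub hx)).mono hsub) (fun x hx => (hf1 x (hsub hx)).mono hsub)
      (fun x hx => (hf2 x (hsub hx)).mono hsub) (fun x hx => by
        have h5 := hb3 x (hsub hx)
        refine ⟨h5.1, h5.2.trans ?_⟩
        rw [hlam]
        have h6 : C3 ≤ h3 * c3 := by
          have : C3 / c3 ≤ h3 := le_max_right _ _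
          rwa [div_le_iff₀ hc3] at this
        calc C3 * F / N ^ 3 ≤ (h3 * c3) * F / N ^ 3 := by gcongr
          _ = _ := by ring)
    have hN12 : 0 < N ^ (1 / 2 : ℝ) := Real.rpow_pos_of_pos hN0 _
    have hF16 : 0 < F ^ (1 / 6 : ℝ) := Real.rpow_pos_of_pos hF0 _
    have hNN : N ^ (1 / 2 : ℝ) * N ^ (1 / 2 : ℝ) = N := by
      rw [← Real.rpow_add hN0]; norm_num
    have hlam16 : lam ^ (1 / 6 : ℝ) = c3 ^ (1 / 6 : ℝ) * F ^ (1 / 6 : ℝ) / N ^ (1 / 2 : ℝ) := by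
      rw [hlam, Real.div_rpow (by positivity) (by positivity), Real.mul_rpow hc3.le hF0.le,
        ← Real.rpow_natCast, ← Real.rpow_mul hN0.le]
      norm_num
    have hlamm : lam ^ (-(1 / 6) : ℝ) = c3 ^ (-(1 / 6) : ℝ) * (N ^ (1 / 2 : ℝ) / F ^ (1 / 6 : ℝ)) := by
      rw [Real.rpow_neg hlam0.le, hlam16, Real.rpow_neg hc3.le]
      field_simp
    have h8 : ((L : ℝ) - M + 1) * lam ^ (1 / 6 : ℝ) ≤ 2 * c3 ^ (1 / 6 : ℝ) * (F ^ (1 / 6 : ℝ) * N ^ (1 / 2 : ℝ)) := by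
      rw [hlam16]
      calc ((L : ℝ) - M + 1) * (c3 ^ (1 / 6 : ℝ) * F ^ (1 / 6 : ℝ) / N ^ (1 / 2 : ℝ)) ≤
            (2 * N) * (c3 ^ (1 / 6 : ℝ) * F ^ (1 / 6 : ℝ) / N ^ (1 / 2 : ℝ)) := by gcongr
        _ = (2 * (N ^ (1 / 2 : ℝ) * N ^ (1 / 2 : ℝ))) *
              (c3 ^ (1 / 6 : ℝ) * F ^ (1 / 6 : ℝ) / N ^ (1 / 2 : ℝ)) := by rw [hNN]
        _ = 2 * c3 ^ (1 / 6 : ℝ) * (F ^ (1 / 6 : ℝ) * N ^ (1 / 2 : ℝ)) := by
            generalize N ^ (1 / 2 : ℝ) = n at *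
            field_simp
    have hkey : N ^ (1 / 2 : ℝ) / F ^ (1 / 6 : ℝ) ≤ F ^ (1 / 6 : ℝ) := by
      rw [div_le_iff₀ hF16, ← Real.rpow_add hF0]
      calc N ^ (1 / 2 : ℝ) = (N ^ (3 / 2 : ℝ)) ^ (1 / 3 : ℝ) := by
            rw [← Real.rpow_mul hN0.le]; norm_num
        _ ≤ F ^ (1 / 3 : ℝ) := Real.rpow_le_rpow (by positivity) hF32 (by norm_num)
        _ = _ := by norm_num
    have h9 : ((L : ℝ) - M + 1) ^ (1 / 2 : ℝ) * lam ^ (-(1 / 6) : ℝ) ≤
        2 * c3 ^ (-(1 / 6) : ℝ) * (F ^ (1 / 6 : ℝ) * N ^ (1 / 2 : ℝ)) := by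
      have h10 : ((L : ℝ) - M + 1) ^ (1 / 2 : ℝ) ≤ 2 * N ^ (1 / 2 : ℝ) := by
        calc ((L : ℝ) - M + 1) ^ (1 / 2 : ℝ) ≤ (4 * N) ^ (1 / 2 : ℝ) :=
              Real.rpow_le_rpow hlen0.le (by linarith) (by norm_num)
          _ = 2 * N ^ (1 / 2 : ℝ) := by
              rw [Real.mul_rpow (by norm_num) hN0.le]
              congr 1
              rw [show (4 : ℝ) = 2 ^ (2 : ℝ) by norm_num, ← Real.rpow_mul (by norm_num)]
              norm_num
      rw [hlamm]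
      calc ((L : ℝ) - M + 1) ^ (1 / 2 : ℝ) * (c3 ^ (-(1 / 6) : ℝ) * (N ^ (1 / 2 : ℝ) / F ^ (1 / 6 : ℝ))) ≤
            (2 * N ^ (1 / 2 : ℝ)) * (c3 ^ (-(1 / 6) : ℝ) * F ^ (1 / 6 : ℝ)) := by gcongr
        _ = _ := by ring
    calc ‖∑ n ∈ Icc M L, e (f n)‖ ≤ K3 * h3 * (((L : ℝ) - M + 1) * lam ^ (1 / 6 : ℝ) +
          ((L : ℝ) - M + 1) ^ (1 / 2 : ℝ) * lam ^ (-(1 / 6) : ℝ)) := h4
      _ ≤ |K3| * h3 * (2 * c3 ^ (1 / 6 : ℝ) * (F ^ (1 / 6 : ℝ) * N ^ (1 / 2 : ℝ)) +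
          2 * c3 ^ (-(1 / 6) : ℝ) * (F ^ (1 / 6 : ℝ) * N ^ (1 / 2 : ℝ))) := by
          have := le_abs_self K3
          gcongr
      _ = A3 * (F ^ (1 / 6 : ℝ) * N ^ (1 / 2 : ℝ)) := by rw [hA3]; ring
      _ ≤ (2 + A2 + A3) * (F ^ (1 / 6 : ℝ) * N ^ (1 / 2 : ℝ)) := by gcongr; linarith

/-- from the three bounds to the region of the exponents -/
lemma region {N F K S p q : ℝ} (hN : 2 ≤ N) (hF : N ≤ F) (hK0 : 0 < K) (hp0 : 0 ≤ p) (hp1 : p ≤ 1 / 2)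
    (hq0 : 0 ≤ q) (h1 : 1 / 2 ≤ 2 * p + q) (h2 : 1 / 2 ≤ p + 2 * q)
    (u1 : S ≤ K * N) (u2 : S ≤ K * F ^ (1 / 2 : ℝ))
    (u3 : N ^ (3 / 2 : ℝ) ≤ F → S ≤ K * (F ^ (1 / 6 : ℝ) * N ^ (1 / 2 : ℝ))) {ε : ℝ} (hε : 0 < ε) :
    S ≤ K * F ^ p * N ^ (q - p + 1 / 2) * F ^ ε := by
  have hN0 : 0 < N := by linarith
  have hF0 : 0 < F := by linarith
  have hFε : 1 ≤ F ^ ε := Real.one_le_rpow (by linarith) hε.le
  set ℓ := Real.log N with hℓ
  set u := Real.log F with hu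
  have hℓ0 : 0 < ℓ := Real.log_pos (by linarith)
  have hℓu : ℓ ≤ u := Real.log_le_log hN0 hF
  have hmain : S ≤ K * (F ^ p * N ^ (q - p + 1 / 2)) := by
    have e1 : F ^ p * N ^ (q - p + 1 / 2) = Real.exp (u * p + ℓ * (q - p + 1 / 2)) := by
      rw [Real.rpow_def_of_pos hF0, Real.rpow_def_of_pos hN0, ← Real.exp_add]
    rw [e1]
    by_cases c1 : u ≤ 3 / 2 * ℓ
    · refine u2.trans ?_
      rw [Real.rpow_def_of_pos hF0]
      have : u * (1 / 2) ≤ u * p + ℓ * (q - p + 1 / 2) := by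
        nlinarith
      gcongr
    · by_cases c2 : u ≤ 3 * ℓ
      · have h3 : N ^ (3 / 2 : ℝ) ≤ F := by
          rw [Real.rpow_def_of_pos hN0]
          calc Real.exp (Real.log N * (3 / 2)) ≤ Real.exp (Real.log F) := by
                apply Real.exp_le_exp.2
                rw [← hℓ, ← hu]; linarith
            _ = F := Real.exp_log hF0
        refine (u3 h3).trans ?_
        rw [Real.rpow_def_of_pos hF0, Real.rpow_def_of_pos hN0, ← Real.exp_add]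
        have : u * (1 / 6) + ℓ * (1 / 2) ≤ u * p + ℓ * (q - p + 1 / 2) := by
          rcases le_total p (1 / 6) with h4 | h4
          · nlinarith
          · nlinarith
        gcongr
      · refine u1.trans ?_
        have h4 : N = Real.exp ℓ := (Real.exp_log hN0).symm
        have : ℓ ≤ u * p + ℓ * (q - p + 1 / 2) := by
          nlinarith
        calc K * N = K * Real.exp ℓ := by rw [← h4]
          _ ≤ _ := by gcongr
  calc S ≤ K * (F ^ p * N ^ (q - p + 1 / 2)) := hmain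
    _ = K * F ^ p * N ^ (q - p + 1 / 2) * 1 := by ring
    _ ≤ _ := by gcongr

lemma pair_up (p q : ℝ) (hp0 : 0 ≤ p) (hp1 : p ≤ 1 / 2) (hq0 : 0 ≤ q) (hq1 : q ≤ 1 / 2)
    (h1 : 1 / 2 ≤ 2 * p + q) (h2 : 1 / 2 ≤ p + 2 * q) : IsPair 3 p q := by
  refine ⟨hp0, hp1, hq0, hq1, ?_⟩
  intro ε hε c C hc _
  obtain ⟨K, hK0, hK⟩ := upper3core (c 2) (C 2) (c 3) (C 3) (hc 2) (hc 3)
  refine ⟨K, ?_⟩
  intro N N' F f hN hN' hN'2 hF hadm
  have hus : UniqueDiffOn ℝ (Set.Icc N (2 * N)) := uniqueDiffOn_Icc (by linarith)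
  have hder : ∀ j : ℕ, ∀ x ∈ Set.Icc N (2 * N), HasDerivWithinAt
      (iteratedDerivWithin j f (Set.Icc N (2 * N)))
      (iteratedDerivWithin (j + 1) f (Set.Icc N (2 * N)) x) (Set.Icc N (2 * N)) x := by
    intro j x hx
    have h1 := (hadm.1.differentiableOn_iteratedDerivWithin (m := j) (by exact_mod_cast WithTop.coe_lt_top _)
      hus) x hx
    have h2 := h1.hasDerivWithinAt
    rw [iteratedDerivWithin_succ]
    exact h2
  have e0 : iteratedDerivWithin 0 f (Set.Icc N (2 * N)) = f := by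
    funext x; exact congrFun iteratedDerivWithin_zero x
  obtain ⟨u1, u2, u3⟩ := hK N N' F f _ _ _ hN hN' hN'2 hF (by have := hder 0; rwa [e0] at this) (hder 1)
    (hder 2) (fun x hx => hadm.2 2 (by norm_num) x hx) (fun x hx => hadm.2 3 (by norm_num) x hx)
  exact region hN hF hK0 hp0 hp1 hq0 h1 h2 u1 u2 u3 hε

/-- the sums of `e(F φ(n / N) + P(n))`, `P` small with its derivatives of order at most `k`, satisfy the
bound of the exponent pair `(p, q)` -/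
def BoundNear (k : ℕ) (η : ℝ) (φ : ℝ → ℝ) (p q : ℝ) : Prop :=
  ∀ ε : ℝ, 0 < ε → ∃ K : ℝ, ∀ (N : ℕ) (F : ℝ), 2 ≤ N → (N : ℝ) ≤ F → ∀ P : ℝ → ℝ, Small k η N F P →
    ‖expSum N (fun n => F * φ ((n : ℝ) / N) + P n)‖ ≤ K * F ^ p * (N : ℝ) ^ (q - p + 1 / 2) * F ^ ε

lemma near_up (φ φ1 φ2 φ3 : ℝ → ℝ) (m M : ℝ)
    (hφ : ∀ u ∈ Set.Icc (1 : ℝ) 2, HasDerivAt φ (φ1 u) u ∧ HasDerivAt φ1 (φ2 u) u ∧ HasDerivAt φ2 (φ3 u) u ∧
      m ≤ |φ2 u| ∧ |φ2 u| ≤ M ∧ m ≤ |φ3 u| ∧ |φ3 u| ≤ M) (η : ℝ) (hηm : η < m)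
    (p q : ℝ) (hp0 : 0 ≤ p) (hp1 : p ≤ 1 / 2) (hq0 : 0 ≤ q)
    (h1 : 1 / 2 ≤ 2 * p + q) (h2 : 1 / 2 ≤ p + 2 * q) : BoundNear 3 η φ p q := by
  intro ε hε
  obtain ⟨K, hK0, hK⟩ := upper3core (m - η) (M + η) (m - η) (M + η) (by linarith) (by linarith)
  refine ⟨K, ?_⟩
  intro N F hN hF P hP
  have hN2 : (2 : ℝ) ≤ N := by exact_mod_cast hN
  have hN0 : (0 : ℝ) < N := by linarith
  have hF0 : 0 < F := by linarith
  have hmem : ∀ x ∈ Set.Icc (N : ℝ) (2 * N), x / N ∈ Set.Icc (1 : ℝ) 2 := by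
    intro x hx
    constructor
    · rw [le_div_iff₀ hN0]; linarith [hx.1]
    · rw [div_le_iff₀ hN0]; exact hx.2
  have hPd : ∀ (j : ℕ) (x : ℝ), HasDerivAt (iteratedDeriv j P) (iteratedDeriv (j + 1) P x) x := by
    intro j x
    rw [iteratedDeriv_succ]
    have := hP.1.differentiable_iteratedDeriv j (by exact_mod_cast WithTop.coe_lt_top _)
    exact (this x).hasDerivAt
  have hg : ∀ (ψ ψ' : ℝ → ℝ) (a : ℝ), (∀ u ∈ Set.Icc (1 : ℝ) 2, HasDerivAt ψ (ψ' u) u) →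
      ∀ x ∈ Set.Icc (N : ℝ) (2 * N), HasDerivAt (fun x => a * ψ (x / N)) (a / N * ψ' (x / N)) x := by
    intro ψ ψ' a hψ x hx
    have h3 := hψ (x / N) (hmem x hx)
    have h4 : HasDerivAt (fun x : ℝ => x / N) (1 / (N : ℝ)) x := (hasDerivAt_id x).div_const _
    have h5 := (h3.comp x h4).const_mul a
    refine h5.congr_deriv ?_
    ring
  obtain ⟨u1, u2, u3⟩ := hK N (2 * N) F (fun x => F * φ (x / N) + iteratedDeriv 0 P x)
    (fun x => F / N * φ1 (x / N) + iteratedDeriv 1 P x)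
    (fun x => F / N / N * φ2 (x / N) + iteratedDeriv 2 P x)
    (fun x => F / N / N / N * φ3 (x / N) + iteratedDeriv 3 P x) hN2 (by linarith) le_rfl hF
    (fun x hx => ((hg φ φ1 F (fun u hu => (hφ u hu).1) x hx).add (hPd 0 x)).hasDerivWithinAt)
    (fun x hx => ((hg φ1 φ2 (F / N) (fun u hu => (hφ u hu).2.1) x hx).add (hPd 1 x)).hasDerivWithinAt)
    (fun x hx => ((hg φ2 φ3 (F / N / N) (fun u hu => (hφ u hu).2.2.1) x hx).add (hPd 2 x)).hasDerivWithinAt)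
    (fun x hx => by
      obtain ⟨_, _, _, h3, h4, _, _⟩ := hφ _ (hmem x hx)
      have h5 := hP.2 2 (by norm_num) x hx
      have h6 : |F / N / N * φ2 (x / N)| = F / N ^ 2 * |φ2 (x / N)| := by
        rw [abs_mul, abs_of_pos (by positivity)]
        congr 1
        field_simp
      have h7 : F / N ^ 2 * m ≤ |F / N / N * φ2 (x / N)| := by rw [h6]; gcongr
      have h8 : |F / N / N * φ2 (x / N)| ≤ F / N ^ 2 * M := by rw [h6]; gcongr
      have h9 : |F / N / N * φ2 (x / N)| - |iteratedDeriv 2 P x| ≤ |F / N / N * φ2 (x / N) + iteratedDeriv 2 P x| := by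
        have := abs_add_le (F / N / N * φ2 (x / N) + iteratedDeriv 2 P x) (-iteratedDeriv 2 P x)
        rw [abs_neg] at this
        have h10 : F / N / N * φ2 (x / N) + iteratedDeriv 2 P x + -iteratedDeriv 2 P x =
          F / N / N * φ2 (x / N) := by ring
        rw [h10] at this
        linarith
      have h10 := abs_add_le (F / N / N * φ2 (x / N)) (iteratedDeriv 2 P x)
      have e1 : (m - η) * F / (N : ℝ) ^ 2 = F / N ^ 2 * m - η * F / (N : ℝ) ^ 2 := by ring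
      have e2 : (M + η) * F / (N : ℝ) ^ 2 = F / N ^ 2 * M + η * F / (N : ℝ) ^ 2 := by ring
      constructor
      · rw [e1]; linarith
      · rw [e2]; linarith)
    (fun x hx => by
      obtain ⟨_, _, _, _, _, h3, h4⟩ := hφ _ (hmem x hx)
      have h5 := hP.2 3 (by norm_num) x hx
      have h6 : |F / N / N / N * φ3 (x / N)| = F / N ^ 3 * |φ3 (x / N)| := by
        rw [abs_mul, abs_of_pos (by positivity)]
        congr 1
        field_simp
      have h7 : F / N ^ 3 * m ≤ |F / N / N / N * φ3 (x / N)| := by rw [h6]; gcongr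
      have h8 : |F / N / N / N * φ3 (x / N)| ≤ F / N ^ 3 * M := by rw [h6]; gcongr
      have h9 : |F / N / N / N * φ3 (x / N)| - |iteratedDeriv 3 P x| ≤
          |F / N / N / N * φ3 (x / N) + iteratedDeriv 3 P x| := by
        have := abs_add_le (F / N / N / N * φ3 (x / N) + iteratedDeriv 3 P x) (-iteratedDeriv 3 P x)
        rw [abs_neg] at this
        have h10 : F / N / N / N * φ3 (x / N) + iteratedDeriv 3 P x + -iteratedDeriv 3 P x =
          F / N / N / N * φ3 (x / N) := by ring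
        rw [h10] at this
        linarith
      have h10 := abs_add_le (F / N / N / N * φ3 (x / N)) (iteratedDeriv 3 P x)
      have e1 : (m - η) * F / (N : ℝ) ^ 3 = F / N ^ 3 * m - η * F / (N : ℝ) ^ 3 := by ring
      have e2 : (M + η) * F / (N : ℝ) ^ 3 = F / N ^ 3 * M + η * F / (N : ℝ) ^ 3 := by ring
      constructor
      · rw [e1]; linarith
      · rw [e2]; linarith)
  have hc : ⌈(N : ℝ)⌉₊ = N := Nat.ceil_natCast N
  have hfl : ⌊2 * (N : ℝ)⌋₊ = 2 * N := by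
    have : (2 * (N : ℝ)) = ((2 * N : ℕ) : ℝ) := by push_cast; ring
    rw [this, Nat.floor_natCast]
  have hsum : expSum N (fun n => F * φ ((n : ℝ) / N) + P n) =
      ∑ n ∈ Icc ⌈(N : ℝ)⌉₊ ⌊2 * (N : ℝ)⌋₊, e (F * φ ((n : ℝ) / N) + iteratedDeriv 0 P n) := by
    rw [hc, hfl]
    simp only [iteratedDeriv_zero]
    rfl
  rw [hsum]
  exact region hN2 hF hK0 hp0 hp1 hq0 h1 h2 u1 u2 u3 hε

end Pool.Agent.Helper11.EP
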