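import Pool.Agent.Helper11.EP.Bump2

/-!
# Lower bounds for the exponential sums of functions with `k` controlled derivatives
-/

set_option autoImplicit false

namespace Pool.Agent.Helper11.EP

open Finset Filter

/-- `P` is smooth, and its derivatives of the orders `0, 1, …, k` are on `[N, 2N]` at most `η F / N ^ j` in
absolute value. -/
def Small (k : ℕ) (η : ℝ) (N : ℕ) (F : ℝ) (P : ℝ → ℝ) : Prop :=
  ContDiff ℝ (⊤ : ℕ∞) P ∧
    ∀ j ≤ k, ∀ x ∈ Set.Icc (N : ℝ) (2 * N), |iteratedDeriv j P x| ≤ η * F / (N : ℝ) ^ j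

/-- `∑ e(f(n))` over `N ≤ n ≤ 2N`, where `e(x) = exp(2πix)` -/
noncomputable def expSum (N : ℕ) (f : ℕ → ℝ) : ℂ :=
  ∑ n ∈ Icc N (2 * N), Complex.exp (2 * (Real.pi : ℂ) * Complex.I * ((f n : ℝ) : ℂ))

lemma part1 (k : ℕ) (hk : 3 ≤ k) (η : ℝ) (hη : 0 < η) :
    ∃ A κ : ℝ, 0 < κ ∧ ∀ (N : ℕ) (F : ℝ), 1 ≤ N → A * (N : ℝ) ^ 2 ≤ F → F ≤ (N : ℝ) ^ k →
      ∀ g : ℕ → ℝ, ∃ P : ℝ → ℝ, Small k η N F P ∧
        κ * (N : ℝ) ^ (1 / 2 : ℝ) * F ^ (1 / (2 * k) : ℝ) ≤ ‖expSum N (fun n => g n + P n)‖ := by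
  choose C hC0 hC using chi_bound
  set B : ℝ := ∑ j ∈ range (k + 1), C j with hB
  have hB0 : 0 ≤ B := sum_nonneg fun j _ => hC0 j
  have hCB : ∀ j ≤ k, C j ≤ B := fun j hj =>
    single_le_sum (f := C) (fun i _ => hC0 i) (mem_range.2 (by omega))
  set D : ℝ := 1 + B / η with hD
  have hD1 : 1 ≤ D := by
    have : 0 ≤ B / η := by positivity
    linarith
  have hBD : B ≤ η * D := by
    rw [hD, mul_add, mul_div_cancel₀ _ hη.ne']; linarith
  have hk0 : (k : ℝ) ≠ 0 := by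
    have : k ≠ 0 := by omega
    exact_mod_cast this
  set A : ℝ := 12 / η + (5 * D) ^ k with hA
  have hA0 : 0 < A := by positivity
  refine ⟨A, 1 / (100 * Real.sqrt (5 * D / 4)), by positivity, ?_⟩
  intro N F hN hF1 hF2 g
  have hN1 : (1 : ℝ) ≤ N := by exact_mod_cast hN
  have hN2 : (1 : ℝ) ≤ (N : ℝ) ^ 2 := one_le_pow₀ hN1
  have hFA : A ≤ F := by nlinarith
  have hF0 : 0 < F := lt_of_lt_of_le hA0 hFA
  have hFD : (5 * D) ^ k ≤ F := by
    have : 0 < 12 / η := by positivity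
    linarith
  have hFη : 12 * (N : ℝ) ^ 2 ≤ η * F := by
    have h1 : 12 / η * (N : ℝ) ^ 2 ≤ F := by
      refine le_trans ?_ hF1
      have : 0 < (5 * D) ^ k := by positivity
      gcongr
      linarith
    calc 12 * (N : ℝ) ^ 2 = η * (12 / η * (N : ℝ) ^ 2) := by field_simp
      _ ≤ _ := by gcongr
  -- the `k`-th root of `F`
  set R : ℝ := F ^ (1 / k : ℝ) with hR
  have hR0 : 0 < R := Real.rpow_pos_of_pos hF0 _
  have hRk : R ^ k = F := by
    rw [hR, ← Real.rpow_natCast, ← Real.rpow_mul hF0.le]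
    simp [hk0]
  have hR5 : 5 * D ≤ R := by
    by_contra h
    rw [not_le] at h
    have := pow_lt_pow_left₀ h hR0.le (show k ≠ 0 by omega)
    rw [hRk] at this
    linarith
  have hRN : R ≤ N := by
    by_contra h
    rw [not_le] at h
    have := pow_lt_pow_left₀ h (by positivity) (show k ≠ 0 by omega)
    rw [hRk] at this
    linarith
  have hR1 : 1 ≤ R := by linarith
  set y : ℝ := D * N / R with hy
  have hy1 : 1 ≤ y := by
    rw [hy, le_div_iff₀ hR0]
    nlinarith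
  have hy5 : 5 * y ≤ N := by
    rw [hy, ← mul_div_assoc, div_le_iff₀ hR0]
    nlinarith
  set h : ℕ := ⌈y / 4⌉₊ with hh
  have hh1 : y / 4 ≤ h := Nat.le_ceil _
  have hh2 : (h : ℝ) < y / 4 + 1 := Nat.ceil_lt_add_one (by positivity)
  have hh0 : 1 ≤ h := Nat.one_le_ceil_iff.2 (by positivity)
  have hhy : (h : ℝ) ≤ 5 / 4 * y := by linarith
  have hh4 : 4 * h ≤ N := by
    have : (4 * h : ℝ) ≤ N := by linarith
    exact_mod_cast this
  obtain ⟨α, β, hα0, hα1, hβ0, hβ1, T, hT⟩ := master hh0 hh4 g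
  refine ⟨pert N (4 * h) α β T, ⟨pert_contDiff _ _ _ _ _, ?_⟩, ?_⟩
  · intro j hj x hx
    refine (pert_bound hN (by omega) hα0 hα1 hβ0 hβ1 T j (hC0 j) (hC j) (le_trans (by positivity) hx.1)
      hx.2).trans ?_
    have hNj : 0 < (N : ℝ) ^ j := by positivity
    have h1 : 6 * (N : ℝ) ^ 2 / (N : ℝ) ^ j ≤ (η * F / (N : ℝ) ^ j) / 2 := by
      rw [div_div, mul_comm ((N : ℝ) ^ j) 2, ← div_div]
      gcongr
      linarith
    have h2 : C j / (2 * ((4 * h : ℕ) : ℝ) ^ j) ≤ (η * F / (N : ℝ) ^ j) / 2 := by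
      have h3 : y ≤ ((4 * h : ℕ) : ℝ) := by push_cast; linarith
      have h4 : C j * R ^ j ≤ η * D ^ j * R ^ k := by
        have h5 : C j ≤ η * D := (hCB j hj).trans hBD
        rcases Nat.eq_zero_or_pos j with h0 | h0
        · subst h0
          simp only [pow_zero, mul_one]
          have h6 : D ≤ R ^ k := by
            calc D ≤ R ^ 1 := by rw [pow_one]; linarith
              _ ≤ R ^ k := pow_le_pow_right₀ hR1 (by omega)
          calc C 0 ≤ η * D := h5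
            _ ≤ η * R ^ k := by gcongr
        · have h6 : D ≤ D ^ j := by
            calc D = D ^ 1 := (pow_one D).symm
              _ ≤ D ^ j := pow_le_pow_right₀ hD1 h0
          have h7 : R ^ j ≤ R ^ k := pow_le_pow_right₀ hR1 hj
          calc C j * R ^ j ≤ (η * D) * R ^ k := by gcongr
            _ ≤ η * D ^ j * R ^ k := by gcongr
      rw [div_div, mul_comm ((N : ℝ) ^ j) 2, div_le_div_iff₀ (by positivity) (by positivity)]
      have h8 : (N : ℝ) ^ j * D ^ j = y ^ j * R ^ j := by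
        rw [← mul_pow, ← mul_pow, hy]
        congr 1
        field_simp
      have h9 : y ^ j ≤ ((4 * h : ℕ) : ℝ) ^ j := by gcongr
      have h10 : C j * (2 * (N : ℝ) ^ j) * (D ^ j) ≤ η * F * (2 * ((4 * h : ℕ) : ℝ) ^ j) * D ^ j := by
        calc C j * (2 * (N : ℝ) ^ j) * (D ^ j) = 2 * C j * ((N : ℝ) ^ j * D ^ j) := by ring
          _ = 2 * (C j * R ^ j) * y ^ j := by rw [h8]; ring
          _ ≤ 2 * (η * D ^ j * R ^ k) * ((4 * h : ℕ) : ℝ) ^ j := by
              have : 0 ≤ C j := hC0 j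
              gcongr
          _ = η * F * (2 * ((4 * h : ℕ) : ℝ) ^ j) * D ^ j := by rw [hRk]; ring
      exact le_of_mul_le_mul_right h10 (by positivity)
    linarith
  · have hsum : expSum N (fun n => g n + pert N (4 * h) α β T n) =
        ∑ n ∈ Icc N (2 * N), e (g n + pert N (4 * h) α β T n) := rfl
    rw [hsum]
    refine le_trans ?_ hT
    have hhp : (0 : ℝ) < h := by exact_mod_cast hh0
    have hs0 : 0 < Real.sqrt h := Real.sqrt_pos.2 hhp
    have hNs : (N : ℝ) ^ (1 / 2 : ℝ) = Real.sqrt N := (Real.sqrt_eq_rpow _).symm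
    have hRs : F ^ (1 / (2 * k) : ℝ) = Real.sqrt R := by
      rw [Real.sqrt_eq_rpow, hR, ← Real.rpow_mul hF0.le]
      congr 1
      field_simp
    rw [hNs, hRs, le_div_iff₀ (by positivity)]
    have h1 : Real.sqrt N * Real.sqrt R * Real.sqrt h ≤ N * Real.sqrt (5 * D / 4) := by
      rw [← Real.sqrt_mul (by positivity), ← Real.sqrt_mul (by positivity)]
      have h2 : (N : ℝ) * Real.sqrt (5 * D / 4) = Real.sqrt ((N : ℝ) ^ 2 * (5 * D / 4)) := by
        rw [Real.sqrt_mul (by positivity), Real.sqrt_sq (by positivity)]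
      rw [h2]
      apply Real.sqrt_le_sqrt
      have h3 : R * y = D * N := by rw [hy]; field_simp
      have h4 : R * h ≤ 5 / 4 * (D * N) := by
        rw [← h3]
        nlinarith
      have h5 : (0 : ℝ) ≤ N := by positivity
      nlinarith
    have hs1 : 0 < Real.sqrt (5 * D / 4) := Real.sqrt_pos.2 (by positivity)
    calc 1 / (100 * Real.sqrt (5 * D / 4)) * Real.sqrt N * Real.sqrt R * (100 * Real.sqrt h) =
          (Real.sqrt N * Real.sqrt R * Real.sqrt h) / Real.sqrt (5 * D / 4) := by field_simp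
      _ ≤ (N * Real.sqrt (5 * D / 4)) / Real.sqrt (5 * D / 4) := by gcongr
      _ = N := by field_simp

lemma part1' (k : ℕ) (hk : 3 ≤ k) (η : ℝ) (hη : 0 < η) :
    ∃ A κ : ℝ, 0 < κ ∧ ∀ (N : ℕ) (F : ℝ), 1 ≤ N → A * (N : ℝ) ^ ((k : ℝ) / (k - 1)) ≤ F → F ≤ (N : ℝ) ^ k →
      ∀ g : ℕ → ℝ, ∃ P : ℝ → ℝ, Small k η N F P ∧
        κ * (N : ℝ) ^ (1 / 2 : ℝ) * F ^ (1 / (2 * k) : ℝ) / (1 + Real.log N) ≤
          ‖expSum N (fun n => g n + P n)‖ := by
  choose C hC0 hC using chi_bound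
  set B : ℝ := ∑ j ∈ range (k + 1), C j with hB
  have hB0 : 0 ≤ B := sum_nonneg fun j _ => hC0 j
  have hCB : ∀ j ≤ k, C j ≤ B := fun j hj =>
    single_le_sum (f := C) (fun i _ => hC0 i) (mem_range.2 (by omega))
  set D : ℝ := 1 + B / η with hD
  have hD1 : 1 ≤ D := by
    have : 0 ≤ B / η := by positivity
    linarith
  have hBD : B ≤ η * D := by
    rw [hD, mul_add, mul_div_cancel₀ _ hη.ne']; linarith
  have hk0 : (k : ℝ) ≠ 0 := by
    have : k ≠ 0 := by omega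
    exact_mod_cast this
  have hk3 : (3 : ℝ) ≤ k := by exact_mod_cast hk
  set A : ℝ := 8 / η + (5 * D) ^ k with hA
  have hA0 : 0 < A := by positivity
  have hA1 : 1 ≤ A := by
    have h1 : (1 : ℝ) ≤ (5 * D) ^ k := one_le_pow₀ (by linarith)
    have : 0 < 8 / η := by positivity
    linarith
  set G : ℝ := 11 + 24 / η with hG
  have hG0 : 0 < G := by positivity
  refine ⟨A, 1 / (64 * Real.sqrt (G * D)), by positivity, ?_⟩
  intro N F hN hF1 hF2 g
  have hN1 : (1 : ℝ) ≤ N := by exact_mod_cast hN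
  have hNp : (0 : ℝ) < N := by linarith
  have hNk : (N : ℝ) ≤ (N : ℝ) ^ ((k : ℝ) / (k - 1)) := by
    calc (N : ℝ) = (N : ℝ) ^ (1 : ℝ) := (Real.rpow_one _).symm
      _ ≤ _ := by
        apply Real.rpow_le_rpow_of_exponent_le hN1
        rw [le_div_iff₀ (by linarith)]; linarith
  have hFN : A * N ≤ F := le_trans (by gcongr) hF1
  have hFA : A ≤ F := by nlinarith
  have hF0 : 0 < F := lt_of_lt_of_le hA0 hFA
  have hFD : (5 * D) ^ k ≤ F := by
    have : 0 < 8 / η := by positivity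
    linarith
  have hFη : 8 * (N : ℝ) ≤ η * F := by
    have h1 : 8 / η * (N : ℝ) ≤ F := by
      refine le_trans ?_ hFN
      have : 0 < (5 * D) ^ k := by positivity
      gcongr
      linarith
    calc 8 * (N : ℝ) = η * (8 / η * (N : ℝ)) := by field_simp
      _ ≤ _ := by gcongr
  -- the `k`-th root of `F`
  set R : ℝ := F ^ (1 / k : ℝ) with hR
  have hR0 : 0 < R := Real.rpow_pos_of_pos hF0 _
  have hRk : R ^ k = F := by
    rw [hR, ← Real.rpow_natCast, ← Real.rpow_mul hF0.le]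
    simp [hk0]
  have hR5 : 5 * D ≤ R := by
    by_contra h
    rw [not_le] at h
    have := pow_lt_pow_left₀ h hR0.le (show k ≠ 0 by omega)
    rw [hRk] at this
    linarith
  have hRN : R ≤ N := by
    by_contra h
    rw [not_le] at h
    have := pow_lt_pow_left₀ h (by positivity) (show k ≠ 0 by omega)
    rw [hRk] at this
    linarith
  have hR1 : 1 ≤ R := by linarith
  have hRk1 : (N : ℝ) ≤ R ^ (k - 1) := by
    by_contra h
    rw [not_le] at h
    have h1 := pow_lt_pow_left₀ h (by positivity) (show k ≠ 0 by omega)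
    have h2 : (R ^ (k - 1)) ^ k = F ^ (k - 1) := by
      rw [← pow_mul, mul_comm, pow_mul, hRk]
    have h3 : ((N : ℝ) ^ ((k : ℝ) / (k - 1))) ^ (k - 1) = (N : ℝ) ^ k := by
      rw [← Real.rpow_natCast, ← Real.rpow_mul hNp.le, ← Real.rpow_natCast]
      congr 1
      rw [Nat.cast_sub (by omega)]
      push_cast
      have : (k : ℝ) - 1 ≠ 0 := by linarith
      field_simp
    have h4 : (N : ℝ) ^ k ≤ F ^ (k - 1) := by
      rw [← h3]
      gcongr
      calc (N : ℝ) ^ ((k : ℝ) / (k - 1)) = 1 * (N : ℝ) ^ ((k : ℝ) / (k - 1)) := (one_mul _).symm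
        _ ≤ A * (N : ℝ) ^ ((k : ℝ) / (k - 1)) := by gcongr
        _ ≤ F := hF1
    rw [h2] at h1
    linarith
  set y : ℝ := D * N / R with hy
  have hy1 : 1 ≤ y := by
    rw [hy, le_div_iff₀ hR0]
    nlinarith
  have hy5 : 5 * y ≤ N := by
    rw [hy, ← mul_div_assoc, div_le_iff₀ hR0]
    nlinarith
  set h : ℕ := ⌈y / 4⌉₊ with hh
  have hh1 : y / 4 ≤ h := Nat.le_ceil _
  have hh2 : (h : ℝ) < y / 4 + 1 := Nat.ceil_lt_add_one (by positivity)
  have hh0 : 1 ≤ h := Nat.one_le_ceil_iff.2 (by positivity)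
  have hhy : (h : ℝ) ≤ 5 / 4 * y := by linarith
  have hh4 : 4 * h ≤ N := by
    have : (4 * h : ℝ) ≤ N := by linarith
    exact_mod_cast this
  set b : ℝ := min 1 (η * F / (24 * (N : ℝ) ^ 2)) with hb
  have hb0 : 0 < b := by
    rw [hb]; exact lt_min one_pos (by positivity)
  have hb1 : b ≤ 1 := min_le_left _ _
  have hb2 : 24 * (b * (N : ℝ) ^ 2) ≤ η * F := by
    have h1 : b ≤ η * F / (24 * (N : ℝ) ^ 2) := min_le_right _ _
    rw [le_div_iff₀ (by positivity)] at h1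
    linarith
  obtain ⟨α, β, hα0, hα1, hβ0, hβ1, T, hT⟩ := master2 hh0 hh4 hb0 hb1 g
  refine ⟨pert N (4 * h) α β T, ⟨pert_contDiff _ _ _ _ _, ?_⟩, ?_⟩
  · intro j hj x hx
    refine (pert_bound2 hN (by omega) hα0 hα1 hβ0 hβ1 T j (hC0 j) (hC j) (le_trans (by positivity) hx.1)
      hx.2).trans ?_
    have hNj : 0 < (N : ℝ) ^ j := by positivity
    have h1 : (2 * (N : ℝ) + 6 * b * (N : ℝ) ^ 2) / (N : ℝ) ^ j ≤ (η * F / (N : ℝ) ^ j) / 2 := by
      rw [div_div, mul_comm ((N : ℝ) ^ j) 2, ← div_div]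
      gcongr
      linarith
    have h2 : C j / (2 * ((4 * h : ℕ) : ℝ) ^ j) ≤ (η * F / (N : ℝ) ^ j) / 2 := by
      have h3 : y ≤ ((4 * h : ℕ) : ℝ) := by push_cast; linarith
      have h4 : C j * R ^ j ≤ η * D ^ j * R ^ k := by
        have h5 : C j ≤ η * D := (hCB j hj).trans hBD
        rcases Nat.eq_zero_or_pos j with h0 | h0
        · subst h0
          simp only [pow_zero, mul_one]
          have h6 : D ≤ R ^ k := by
            calc D ≤ R ^ 1 := by rw [pow_one]; linarith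
              _ ≤ R ^ k := pow_le_pow_right₀ hR1 (by omega)
          calc C 0 ≤ η * D := h5
            _ ≤ η * R ^ k := by gcongr
        · have h6 : D ≤ D ^ j := by
            calc D = D ^ 1 := (pow_one D).symm
              _ ≤ D ^ j := pow_le_pow_right₀ hD1 h0
          have h7 : R ^ j ≤ R ^ k := pow_le_pow_right₀ hR1 hj
          calc C j * R ^ j ≤ (η * D) * R ^ k := by gcongr
            _ ≤ η * D ^ j * R ^ k := by gcongr
      rw [div_div, mul_comm ((N : ℝ) ^ j) 2, div_le_div_iff₀ (by positivity) (by positivity)]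
      have h8 : (N : ℝ) ^ j * D ^ j = y ^ j * R ^ j := by
        rw [← mul_pow, ← mul_pow, hy]
        congr 1
        field_simp
      have h9 : y ^ j ≤ ((4 * h : ℕ) : ℝ) ^ j := by gcongr
      have h10 : C j * (2 * (N : ℝ) ^ j) * (D ^ j) ≤ η * F * (2 * ((4 * h : ℕ) : ℝ) ^ j) * D ^ j := by
        calc C j * (2 * (N : ℝ) ^ j) * (D ^ j) = 2 * C j * ((N : ℝ) ^ j * D ^ j) := by ring
          _ = 2 * (C j * R ^ j) * y ^ j := by rw [h8]; ring
          _ ≤ 2 * (η * D ^ j * R ^ k) * ((4 * h : ℕ) : ℝ) ^ j := by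
              have : 0 ≤ C j := hC0 j
              gcongr
          _ = η * F * (2 * ((4 * h : ℕ) : ℝ) ^ j) * D ^ j := by rw [hRk]; ring
      exact le_of_mul_le_mul_right h10 (by positivity)
    linarith
  · have hsum : expSum N (fun n => g n + pert N (4 * h) α β T n) =
        ∑ n ∈ Icc N (2 * N), e (g n + pert N (4 * h) α β T n) := rfl
    rw [hsum]
    refine le_trans ?_ hT
    have hhp : (0 : ℝ) < h := by exact_mod_cast hh0
    have hNs : (N : ℝ) ^ (1 / 2 : ℝ) = Real.sqrt N := (Real.sqrt_eq_rpow _).symm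
    have hRs : F ^ (1 / (2 * k) : ℝ) = Real.sqrt R := by
      rw [Real.sqrt_eq_rpow, hR, ← Real.rpow_mul hF0.le]
      congr 1
      field_simp
    set ℓ : ℝ := 1 + Real.log N with hℓ
    have hlogN : 0 ≤ Real.log N := Real.log_nonneg hN1
    have hℓ1 : 1 ≤ ℓ := by linarith
    have hH1 : (1 : ℝ) ≤ ((4 * h : ℕ) : ℝ) := by
      have : 1 ≤ 4 * h := by omega
      exact_mod_cast this
    have hHN : ((4 * h : ℕ) : ℝ) ≤ N := by exact_mod_cast hh4
    have hlogH : 0 ≤ Real.log ((4 * h : ℕ) : ℝ) := Real.log_nonneg hH1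
    have hlog : (1 + Real.log ((4 * h : ℕ) : ℝ)) ^ 2 ≤ ℓ ^ 2 := by
      have h1 : Real.log ((4 * h : ℕ) : ℝ) ≤ Real.log N := Real.log_le_log (by linarith) hHN
      exact pow_le_pow_left₀ (by linarith) (by linarith) 2
    have hbinv : 1 / b ≤ (1 + 24 / η) * y := by
      have h1 : (N : ℝ) ^ 2 / F ≤ y := by
        rw [hy, ← hRk, div_le_div_iff₀ (by positivity) hR0]
        have h2 : R ^ k = R * R ^ (k - 1) := by
          rw [← pow_succ']; congr 1; omega
        rw [h2]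
        have h3 : (N : ℝ) ^ 2 * R ≤ (N * R) * R ^ (k - 1) := by
          calc (N : ℝ) ^ 2 * R = (N * R) * N := by ring
            _ ≤ _ := by gcongr
        have h4 : 0 ≤ (N * R) * R ^ (k - 1) := by positivity
        nlinarith
      have h3 : 1 / b ≤ 1 + 24 / η * ((N : ℝ) ^ 2 / F) := by
        rcases min_cases 1 (η * F / (24 * (N : ℝ) ^ 2)) with ⟨h4, _⟩ | ⟨h4, _⟩
        · rw [hb, h4]
          have : 0 ≤ 24 / η * ((N : ℝ) ^ 2 / F) := by positivity
          norm_num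
          linarith
        · rw [hb, h4]
          have h5 : 1 / (η * F / (24 * (N : ℝ) ^ 2)) = 24 / η * ((N : ℝ) ^ 2 / F) := by field_simp
          rw [h5]; linarith
      have h6 : 24 / η * ((N : ℝ) ^ 2 / F) ≤ 24 / η * y := by gcongr
      linarith
    have hE : 2 * ((4 * h : ℕ) : ℝ) + (1 + Real.log ((4 * h : ℕ) : ℝ)) ^ 2 / b ≤ G * y * ℓ ^ 2 := by
      have h1 : 2 * ((4 * h : ℕ) : ℝ) ≤ 10 * y * ℓ ^ 2 := by
        push_cast
        have h2 : 2 * (4 * (h : ℝ)) ≤ 10 * y := by linarith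
        have h3 : (1 : ℝ) ≤ ℓ ^ 2 := one_le_pow₀ hℓ1
        nlinarith
      have h2 : (1 + Real.log ((4 * h : ℕ) : ℝ)) ^ 2 / b ≤ ℓ ^ 2 * ((1 + 24 / η) * y) := by
        rw [div_eq_mul_one_div]
        gcongr
      rw [hG]
      calc _ ≤ 10 * y * ℓ ^ 2 + ℓ ^ 2 * ((1 + 24 / η) * y) := add_le_add h1 h2
        _ = _ := by ring
    have hE0 : 0 < 2 * ((4 * h : ℕ) : ℝ) + (1 + Real.log ((4 * h : ℕ) : ℝ)) ^ 2 / b := by
      have : 0 ≤ (1 + Real.log ((4 * h : ℕ) : ℝ)) ^ 2 / b := by positivity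
      linarith
    have hsE := Real.sqrt_le_sqrt hE
    have hsE0 := Real.sqrt_pos.2 hE0
    have hsGy : Real.sqrt (G * y * ℓ ^ 2) = Real.sqrt (G * D) * Real.sqrt N / Real.sqrt R * ℓ := by
      rw [Real.sqrt_mul (by positivity), Real.sqrt_sq (by linarith), ← Real.sqrt_mul (by positivity),
        ← Real.sqrt_div (by positivity)]
      congr 2
      rw [hy]; ring
    have hsGD : 0 < Real.sqrt (G * D) := Real.sqrt_pos.2 (by positivity)
    have hsN : 0 < Real.sqrt N := Real.sqrt_pos.2 hNp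
    have hsR : 0 < Real.sqrt R := Real.sqrt_pos.2 hR0
    have hNN : Real.sqrt N * Real.sqrt N = N := Real.mul_self_sqrt hNp.le
    rw [hNs, hRs]
    calc 1 / (64 * Real.sqrt (G * D)) * Real.sqrt N * Real.sqrt R / ℓ =
          (Real.sqrt N * Real.sqrt N) / (64 * (Real.sqrt (G * D) * Real.sqrt N / Real.sqrt R * ℓ)) := by
          field_simp
      _ = N / (64 * Real.sqrt (G * y * ℓ ^ 2)) := by rw [hNN, hsGy]
      _ ≤ _ := by gcongr

lemma exponents {a b κ K : ℝ} (hκ : 0 < κ) (n0 : ℕ)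
    (h : ∀ n : ℕ, n0 ≤ n → κ * (n : ℝ) ^ a / (1 + Real.log n) ≤ K * (n : ℝ) ^ b) : a ≤ b := by
  refine le_of_forall_pos_le_add fun δ hδ => ?_
  by_contra hab
  rw [not_le] at hab
  set δ' := (a - (b + δ)) + δ with hδ'
  have h1 : Tendsto (fun n : ℕ => (n : ℝ) ^ (a - (b + δ))) atTop atTop :=
    (tendsto_rpow_atTop (by linarith)).comp tendsto_natCast_atTop_atTop
  obtain ⟨n, hn, hn1, hn2⟩ := ((h1.eventually_gt_atTop (|K| * (1 + 1 / δ) / κ)).and
    ((eventually_ge_atTop n0).and (eventually_ge_atTop 1))).exists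
  have hn0 : (0 : ℝ) < n := by exact_mod_cast hn2
  have hn1' : (1 : ℝ) ≤ n := by exact_mod_cast hn2
  have hlog0 : 0 ≤ Real.log n := Real.log_nonneg hn1'
  have h2 := h n hn1
  have h3 : (n : ℝ) ^ a = (n : ℝ) ^ (a - (b + δ)) * ((n : ℝ) ^ b * (n : ℝ) ^ δ) := by
    rw [← Real.rpow_add hn0, ← Real.rpow_add hn0]; congr 1; ring
  have h4 : 0 < (n : ℝ) ^ b := Real.rpow_pos_of_pos hn0 _
  have h4' : 0 < (n : ℝ) ^ δ := Real.rpow_pos_of_pos hn0 _
  have hlog : 1 + Real.log n ≤ (1 + 1 / δ) * (n : ℝ) ^ δ := by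
    have h5 := Real.log_le_rpow_div hn0.le hδ
    have h6 : (1 : ℝ) ≤ (n : ℝ) ^ δ := Real.one_le_rpow hn1' hδ.le
    have h7 : (n : ℝ) ^ δ / δ = 1 / δ * (n : ℝ) ^ δ := by ring
    rw [h7] at h5
    linarith
  rw [div_le_iff₀ (by linarith)] at h2
  have h8 : κ * (n : ℝ) ^ a ≤ |K| * (n : ℝ) ^ b * ((1 + 1 / δ) * (n : ℝ) ^ δ) := by
    refine h2.trans ?_
    have : K ≤ |K| := le_abs_self K
    gcongr
  rw [h3] at h8
  have h9 : (κ * (n : ℝ) ^ (a - (b + δ))) * ((n : ℝ) ^ b * (n : ℝ) ^ δ) ≤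
      (|K| * (1 + 1 / δ)) * ((n : ℝ) ^ b * (n : ℝ) ^ δ) := by
    calc _ = κ * ((n : ℝ) ^ (a - (b + δ)) * ((n : ℝ) ^ b * (n : ℝ) ^ δ)) := by ring
      _ ≤ _ := h8
      _ = _ := by ring
  have h10 := le_of_mul_le_mul_right h9 (by positivity)
  rw [div_lt_iff₀ hκ] at hn
  linarith

lemma part2 (k : ℕ) (hk : 3 ≤ k) (η : ℝ) (hη : 0 < η) (φ : ℝ → ℝ) (p q : ℝ)
    (h : ∀ ε : ℝ, 0 < ε → ∃ K : ℝ, ∀ (N : ℕ) (F : ℝ), 2 ≤ N → (N : ℝ) ≤ F → ∀ P : ℝ → ℝ, Small k η N F P →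
      ‖expSum N (fun n => F * φ ((n : ℝ) / N) + P n)‖ ≤
        K * F ^ p * (N : ℝ) ^ (q - p + 1 / 2) * F ^ ε) :
    1 / 2 ≤ ((k : ℝ) - 1) * p + q ∧ 1 / 2 ≤ p + ((k : ℝ) - 1) * q := by
  obtain ⟨A, κ, hκ, hmain⟩ := part1' k hk η hη
  have hk3 : (3 : ℝ) ≤ k := by exact_mod_cast hk
  have hk0 : (0 : ℝ) < k := by linarith
  have hk1 : (0 : ℝ) < (k : ℝ) - 1 := by linarith
  -- general scale `F = A' N ^ θ`
  set A' : ℝ := max A 1 with hA'
  have hA'1 : 1 ≤ A' := le_max_right _ _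
  have hA'0 : 0 < A' := by linarith
  obtain ⟨n0, hn0⟩ := exists_nat_ge A'
  constructor
  · -- scale `N ^ k`
    refine le_of_forall_pos_le_add fun δ hδ => ?_
    obtain ⟨K, hK⟩ := h (δ / k) (by positivity)
    have key : ∀ n : ℕ, n0 + 2 ≤ n → κ * (n : ℝ) ^ (1 : ℝ) / (1 + Real.log n) ≤
        K * (n : ℝ) ^ (((k : ℝ) - 1) * p + q + δ + 1 / 2) := by
      intro n hn
      have hn1 : 1 ≤ n := by omega
      have hnr : (1 : ℝ) ≤ n := by exact_mod_cast hn1
      have hnp : (0 : ℝ) < n := by linarith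
      have hAn : A ≤ n := by
        refine (le_max_left A 1).trans (hn0.trans ?_)
        have : n0 ≤ n := by omega
        exact_mod_cast this
      have hF1 : A * (n : ℝ) ^ ((k : ℝ) / (k - 1)) ≤ (n : ℝ) ^ k := by
        have h1 : (n : ℝ) ^ ((k : ℝ) / (k - 1)) ≤ (n : ℝ) ^ (2 : ℝ) := by
          apply Real.rpow_le_rpow_of_exponent_le hnr
          rw [div_le_iff₀ hk1]; linarith
        calc A * (n : ℝ) ^ ((k : ℝ) / (k - 1)) ≤ n * (n : ℝ) ^ (2 : ℝ) := by gcongr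
          _ = (n : ℝ) ^ 3 := by
              rw [show (2 : ℝ) = ((2 : ℕ) : ℝ) by norm_num, Real.rpow_natCast]; ring
          _ ≤ (n : ℝ) ^ k := pow_le_pow_right₀ hnr hk
      have hF3 : (n : ℝ) ≤ (n : ℝ) ^ k := le_self_pow₀ hnr (by omega)
      obtain ⟨P, hP, hP2⟩ := hmain n ((n : ℝ) ^ k) hn1 hF1 le_rfl
        (fun m => (n : ℝ) ^ k * φ ((m : ℝ) / n))
      have h1 := hP2.trans (hK n ((n : ℝ) ^ k) (by omega) hF3 P hP)
      have e1 : ∀ s : ℝ, ((n : ℝ) ^ k) ^ s = (n : ℝ) ^ (k * s) := by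
        intro s
        rw [← Real.rpow_natCast, ← Real.rpow_mul hnp.le]
      rw [e1, e1, e1] at h1
      calc κ * (n : ℝ) ^ (1 : ℝ) / (1 + Real.log n) =
            κ * (n : ℝ) ^ (1 / 2 : ℝ) * (n : ℝ) ^ ((k : ℝ) * (1 / (2 * k))) / (1 + Real.log n) := by
            rw [mul_assoc, ← Real.rpow_add hnp]
            congr 3
            field_simp
            norm_num
        _ ≤ _ := h1
        _ = _ := by
            have e2 : (n : ℝ) ^ (((k : ℝ) - 1) * p + q + δ + 1 / 2) =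
                (n : ℝ) ^ ((k : ℝ) * p) * (n : ℝ) ^ (q - p + 1 / 2) * (n : ℝ) ^ ((k : ℝ) * (δ / k)) := by
              rw [← Real.rpow_add hnp, ← Real.rpow_add hnp]
              congr 1
              field_simp
              ring
            rw [e2]
            ring
    have h2 := exponents hκ (n0 + 2) key
    linarith
  · -- scale `A' N ^ (k / (k - 1))`
    refine le_of_forall_pos_le_add fun δ hδ => ?_
    obtain ⟨K, hK⟩ := h (δ / k) (by positivity)
    have key : ∀ n : ℕ, n0 + 2 ≤ n → (κ * A' ^ (1 / (2 * k) : ℝ)) *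
        (n : ℝ) ^ (1 / 2 + 1 / (2 * ((k : ℝ) - 1))) / (1 + Real.log n) ≤
        (K * A' ^ (p + δ / k)) * (n : ℝ) ^ (p / ((k : ℝ) - 1) + q + δ / ((k : ℝ) - 1) + 1 / 2) := by
      intro n hn
      have hn1 : 1 ≤ n := by omega
      have hnr : (1 : ℝ) ≤ n := by exact_mod_cast hn1
      have hnp : (0 : ℝ) < n := by linarith
      have hAn : A' ≤ n := by
        refine hn0.trans ?_
        have : n0 ≤ n := by omega
        exact_mod_cast this
      have hF1 : A * (n : ℝ) ^ ((k : ℝ) / (k - 1)) ≤ A' * (n : ℝ) ^ ((k : ℝ) / (k - 1)) := by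
        have : A ≤ A' := le_max_left _ _
        gcongr
      have hF2 : A' * (n : ℝ) ^ ((k : ℝ) / (k - 1)) ≤ (n : ℝ) ^ k := by
        have h1 : (n : ℝ) ^ ((k : ℝ) / (k - 1)) ≤ (n : ℝ) ^ (2 : ℝ) := by
          apply Real.rpow_le_rpow_of_exponent_le hnr
          rw [div_le_iff₀ hk1]; linarith
        calc A' * (n : ℝ) ^ ((k : ℝ) / (k - 1)) ≤ n * (n : ℝ) ^ (2 : ℝ) := by gcongr
          _ = (n : ℝ) ^ 3 := by
              rw [show (2 : ℝ) = ((2 : ℕ) : ℝ) by norm_num, Real.rpow_natCast]; ring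
          _ ≤ (n : ℝ) ^ k := pow_le_pow_right₀ hnr hk
      have hF3 : (n : ℝ) ≤ A' * (n : ℝ) ^ ((k : ℝ) / (k - 1)) := by
        have h1 : (n : ℝ) ≤ (n : ℝ) ^ ((k : ℝ) / (k - 1)) := by
          calc (n : ℝ) = (n : ℝ) ^ (1 : ℝ) := (Real.rpow_one _).symm
            _ ≤ _ := by
              apply Real.rpow_le_rpow_of_exponent_le hnr
              rw [le_div_iff₀ hk1]; linarith
        have h2 : 0 < (n : ℝ) ^ ((k : ℝ) / (k - 1)) := by positivity
        nlinarith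
      set F : ℝ := A' * (n : ℝ) ^ ((k : ℝ) / (k - 1)) with hF
      obtain ⟨P, hP, hP2⟩ := hmain n F hn1 hF1 hF2 (fun m => F * φ ((m : ℝ) / n))
      have h1 := hP2.trans (hK n F (by omega) hF3 P hP)
      have e1 : ∀ s : ℝ, F ^ s = A' ^ s * (n : ℝ) ^ ((k : ℝ) / (k - 1) * s) := by
        intro s
        rw [hF, Real.mul_rpow hA'0.le (by positivity), ← Real.rpow_mul hnp.le]
      rw [e1, e1, e1] at h1
      calc (κ * A' ^ (1 / (2 * k) : ℝ)) * (n : ℝ) ^ (1 / 2 + 1 / (2 * ((k : ℝ) - 1))) / (1 + Real.log n) =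
            κ * (n : ℝ) ^ (1 / 2 : ℝ) * (A' ^ (1 / (2 * k) : ℝ) *
              (n : ℝ) ^ ((k : ℝ) / (k - 1) * (1 / (2 * k)))) / (1 + Real.log n) := by
            rw [Real.rpow_add hnp]
            have : ((k : ℝ) / (k - 1) * (1 / (2 * k)) : ℝ) = 1 / (2 * ((k : ℝ) - 1)) := by
              field_simp
            rw [this]; ring
        _ ≤ _ := h1
        _ = _ := by
            have e2 : (n : ℝ) ^ (p / ((k : ℝ) - 1) + q + δ / ((k : ℝ) - 1) + 1 / 2) =
                (n : ℝ) ^ ((k : ℝ) / (k - 1) * p) * (n : ℝ) ^ (q - p + 1 / 2) *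
                  (n : ℝ) ^ ((k : ℝ) / (k - 1) * (δ / k)) := by
              rw [← Real.rpow_add hnp, ← Real.rpow_add hnp]
              congr 1
              field_simp
              ring
            rw [e2, Real.rpow_add hA'0]
            ring
    have h2 := exponents (by positivity) (n0 + 2) key
    have h3 : 1 / (2 * ((k : ℝ) - 1)) ≤ p / ((k : ℝ) - 1) + q + δ / ((k : ℝ) - 1) := by linarith
    have h4 := mul_le_mul_of_nonneg_left h3 hk1.le
    have h5 : ((k : ℝ) - 1) * (1 / (2 * ((k : ℝ) - 1))) = 1 / 2 := by field_simp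
    have h6 : ((k : ℝ) - 1) * (p / ((k : ℝ) - 1) + q + δ / ((k : ℝ) - 1)) = p + ((k : ℝ) - 1) * q + δ := by
      field_simp
    linarith

end Pool.Agent.Helper11.EP
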