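import Pool.Agent.Helper20.EP.Spec2

/-!
# EP, part MON: simple facts on `mon`
-/

set_option autoImplicit false

open Polynomial

namespace Pool.Agent.Helper11.EPMON

open Pool.Agent.Helper20.EP

theorem rho_eq (g : ℤ[X]) (p : ℕ) [NeZero p] :
    rho g p = Nat.card {x : ZMod p // g.eval₂ (Int.castRingHom (ZMod p)) x = 0} := by
  classical
  have key : ∀ x : ℕ, ((p : ℤ) ∣ g.eval (x : ℤ)) ↔
      g.eval₂ (Int.castRingHom (ZMod p)) (x : ZMod p) = 0 := by
    intro x
    rw [← ZMod.intCast_zmod_eq_zero_iff_dvd]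
    have h := Polynomial.hom_eval₂ g (RingHom.id ℤ) (Int.castRingHom (ZMod p)) (x : ℤ)
    rw [RingHom.comp_id] at h
    have h2 : g.eval (x : ℤ) = g.eval₂ (RingHom.id ℤ) (x : ℤ) := rfl
    rw [h2]
    have h3 : (Int.castRingHom (ZMod p)) (g.eval₂ (RingHom.id ℤ) (x : ℤ)) =
      ((g.eval₂ (RingHom.id ℤ) (x : ℤ) : ℤ) : ZMod p) := rfl
    rw [← h3, h]
    simp
  rw [Nat.card_eq_fintype_card, Fintype.card_subtype]
  unfold rho
  refine Finset.card_bij (fun x _ => (x : ZMod p)) ?_ ?_ ?_
  · intro x hx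
    rw [Finset.mem_filter] at hx ⊢
    exact ⟨Finset.mem_univ _, (key x).1 hx.2⟩
  · intro x hx y hy h
    rw [Finset.mem_filter, Finset.mem_range] at hx hy
    have := (ZMod.natCast_eq_natCast_iff' x y p).1 h
    rwa [Nat.mod_eq_of_lt hx.1, Nat.mod_eq_of_lt hy.1] at this
  · intro y hy
    rw [Finset.mem_filter] at hy
    refine ⟨y.val, ?_, ZMod.natCast_zmod_val y⟩
    rw [Finset.mem_filter, Finset.mem_range]
    refine ⟨ZMod.val_lt y, (key _).2 ?_⟩
    rw [ZMod.natCast_zmod_val]
    exact hy.2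

theorem main : S_MON := by
  intro F s hF
  have hd : (F - C s).natDegree = F.natDegree := natDegree_sub_C
  have h0 : F - C s ≠ 0 := by
    intro h
    rw [h, natDegree_zero] at hd
    omega
  have hF0 : F ≠ 0 := by
    rintro rfl
    simp at hF
  have hlc : (F - C s).leadingCoeff = F.leadingCoeff := by
    unfold leadingCoeff
    rw [hd, coeff_sub, coeff_C_of_ne_zero (by omega), sub_zero]
  have hlc0 : F.leadingCoeff ≠ 0 := leadingCoeff_ne_zero.2 hF0
  refine ⟨monic_integralNormalization h0, ?_, ?_, ?_⟩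
  · unfold mon
    rw [natDegree_integralNormalization, hd]
  · unfold mon monC
    rw [← integralNormalization_map]
    · simp
    · rw [hlc]
      simpa using hlc0
  · intro p hp hlt
    have : Fact p.Prime := ⟨hp⟩
    rw [rho_eq, rho_eq]
    have hb : (Int.castRingHom (ZMod p)) (F - C s).leadingCoeff ≠ 0 := by
      rw [hlc]
      intro h
      have h1 : ((F.leadingCoeff : ℤ) : ZMod p) = 0 := h
      rw [ZMod.intCast_zmod_eq_zero_iff_dvd] at h1
      have h2 := Int.le_of_dvd (abs_pos.2 hlc0) ((dvd_abs _ _).2 h1)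
      omega
    refine Nat.card_congr ?_
    refine Equiv.subtypeEquiv (Equiv.mulLeft₀ _ hb) ?_
    intro x
    have h1 := integralNormalization_eval₂_leadingCoeff_mul (p := F - C s) (by omega)
      (Int.castRingHom (ZMod p)) x
    unfold mon
    rw [show (Equiv.mulLeft₀ _ hb) x = (Int.castRingHom (ZMod p)) (F - C s).leadingCoeff * x from rfl, h1]
    constructor
    · intro h
      rw [h, mul_zero]
    · intro h
      rcases mul_eq_zero.1 h with h2 | h2
      · exact absurd h2 (pow_ne_zero _ hb)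
      · exact h2

end Pool.Agent.Helper11.EPMON
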