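import Mathlib

/-! # Exponential sums: discrete orthogonality, second and fourth moments -/

set_option autoImplicit false

namespace Pool.Agent.Helper11.EP

open Finset

/-- `e(x) = exp(2πix)` -/
noncomputable def e (x : ℝ) : ℂ := Complex.exp (2 * (Real.pi : ℂ) * Complex.I * (x : ℂ))

lemma e_add (x y : ℝ) : e (x + y) = e x * e y := by
  unfold e
  rw [← Complex.exp_add]
  congr 1
  push_cast
  ring

lemma norm_e (x : ℝ) : ‖e x‖ = 1 := by
  unfold e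
  rw [show (2 * (Real.pi : ℂ) * Complex.I * (x : ℂ)) = ((2 * Real.pi * x : ℝ) : ℂ) * Complex.I by
    push_cast; ring]
  exact Complex.norm_exp_ofReal_mul_I _

lemma e_zero : e 0 = 1 := by simp [e]

lemma e_half : e (1 / 2) = -1 := by
  unfold e
  rw [show (2 * (Real.pi : ℂ) * Complex.I * ((1 / 2 : ℝ) : ℂ)) = Real.pi * Complex.I by
    push_cast; ring]
  exact Complex.exp_pi_mul_I

lemma conj_e (x : ℝ) : (starRingEnd ℂ) (e x) = e (-x) := by
  unfold e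
  rw [← Complex.exp_conj]
  congr 1
  rw [map_mul, map_mul, map_mul, Complex.conj_ofReal, Complex.conj_ofReal, Complex.conj_I, map_ofNat]
  push_cast
  ring

lemma e_pow (x : ℝ) (a : ℕ) : e ((a : ℝ) * x) = e x ^ a := by
  unfold e
  rw [← Complex.exp_nat_mul]
  congr 1
  push_cast
  ring

lemma e_eq_one {x : ℝ} (h : e x = 1) : ∃ n : ℤ, x = n := by
  unfold e at h
  rw [Complex.exp_eq_one_iff] at h
  obtain ⟨n, hn⟩ := h
  refine ⟨n, ?_⟩
  have h2 : (2 * (Real.pi : ℂ) * Complex.I) ≠ 0 := Complex.two_pi_I_ne_zero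
  have h3 : (x : ℂ) = (n : ℂ) := by
    have : (2 * (Real.pi : ℂ) * Complex.I) * (x : ℂ) = (2 * (Real.pi : ℂ) * Complex.I) * (n : ℂ) := by
      rw [hn]; ring
    exact mul_left_cancel₀ h2 this
  exact_mod_cast h3

lemma e_int (n : ℤ) : e (n : ℝ) = 1 := by
  unfold e
  rw [Complex.exp_eq_one_iff]
  exact ⟨n, by push_cast; ring⟩

lemma orth (M : ℕ) (hM : 0 < M) (u : ℤ) (hu : |u| < M) :
    ∑ a ∈ range M, e ((a : ℝ) * (u : ℝ) / M) = if u = 0 then (M : ℂ) else 0 := by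
  have hM' : (M : ℝ) ≠ 0 := by exact_mod_cast hM.ne'
  split_ifs with h
  · subst h
    simp [e_zero]
  · have h1 : ∀ a ∈ range M, e ((a : ℝ) * (u : ℝ) / M) = e ((u : ℝ) / M) ^ a := by
      intro a _
      rw [← e_pow]
      congr 1
      ring
    rw [sum_congr rfl h1]
    have h2 : e ((u : ℝ) / M) ^ M = 1 := by
      rw [← e_pow, mul_div_cancel₀ _ hM']
      exact e_int u
    have h3 : e ((u : ℝ) / M) ≠ 1 := by
      intro h4
      obtain ⟨n, hn⟩ := e_eq_one h4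
      rw [div_eq_iff hM'] at hn
      have h5 : u = n * M := by exact_mod_cast hn
      have h6 : n ≠ 0 := by
        rintro rfl
        apply h
        rw [h5]; simp
      have h7 : (1 : ℤ) ≤ |n| := Int.one_le_abs h6
      rw [h5, abs_mul, Nat.abs_cast] at hu
      have h8 : (0 : ℤ) < M := by exact_mod_cast hM
      nlinarith
    have h4 := geom_sum_mul (e ((u : ℝ) / M)) M
    rw [h2, sub_self] at h4
    rcases mul_eq_zero.1 h4 with h5 | h5
    · exact h5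
    · exact absurd (sub_eq_zero.1 h5) h3

/-- Parseval -/
lemma pars {ι : Type} (S : Finset ι) (c : ι → ℂ) (u v : ι → ℤ) (M : ℕ) (hM : 0 < M)
    (hu : ∀ s ∈ S, ∀ t ∈ S, |u s - u t| < M) (hv : ∀ s ∈ S, ∀ t ∈ S, |v s - v t| < M) :
    ((∑ a ∈ range M, ∑ b ∈ range M,
      ‖∑ s ∈ S, c s * e (((a : ℝ) * u s + (b : ℝ) * v s) / M)‖ ^ 2 : ℝ) : ℂ) =
    (M : ℂ) ^ 2 * ∑ s ∈ S, ∑ t ∈ S, if u s = u t ∧ v s = v t then c s * (starRingEnd ℂ) (c t) else 0 := by
  have h1 : ∀ a b : ℕ, ((‖∑ s ∈ S, c s * e (((a : ℝ) * u s + (b : ℝ) * v s) / M)‖ ^ 2 : ℝ) : ℂ) =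
      ∑ s ∈ S, ∑ t ∈ S, (c s * (starRingEnd ℂ) (c t)) *
        (e ((a : ℝ) * ((u s - u t : ℤ) : ℝ) / M) * e ((b : ℝ) * ((v s - v t : ℤ) : ℝ) / M)) := by
    intro a b
    push_cast
    rw [← Complex.mul_conj', map_sum, sum_mul_sum]
    refine sum_congr rfl fun s _ => sum_congr rfl fun t _ => ?_
    rw [map_mul, conj_e, ← e_add]
    rw [mul_mul_mul_comm, ← e_add]
    congr 2
    ring
  push_cast
  simp only [← Complex.ofReal_pow]
  rw [sum_congr rfl fun a _ => sum_congr rfl fun b _ => h1 a b]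
  rw [mul_sum]
  have h2 : ∀ s ∈ S, ∀ t ∈ S, ∑ a ∈ range M, ∑ b ∈ range M, (c s * (starRingEnd ℂ) (c t)) *
        (e ((a : ℝ) * ((u s - u t : ℤ) : ℝ) / M) * e ((b : ℝ) * ((v s - v t : ℤ) : ℝ) / M)) =
      (M : ℂ) ^ 2 * if u s = u t ∧ v s = v t then c s * (starRingEnd ℂ) (c t) else 0 := by
    intro s hs t ht
    simp only [← mul_sum]
    rw [← sum_mul]
    rw [orth M hM _ (hu s hs t ht), orth M hM _ (hv s hs t ht)]
    by_cases h3 : u s = u t
    · by_cases h4 : v s = v t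
      · simp [h3, h4]; ring
      · simp [h3, h4, sub_eq_zero]
    · simp [h3, sub_eq_zero]
  calc _ = ∑ s ∈ S, ∑ t ∈ S, ∑ a ∈ range M, ∑ b ∈ range M, (c s * (starRingEnd ℂ) (c t)) *
        (e ((a : ℝ) * ((u s - u t : ℤ) : ℝ) / M) * e ((b : ℝ) * ((v s - v t : ℤ) : ℝ) / M)) := by
        rw [sum_congr rfl fun a _ => sum_comm]
        rw [sum_comm]
        refine sum_congr rfl fun s _ => ?_
        rw [sum_congr rfl fun a _ => sum_comm]
        rw [sum_comm]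
    _ = _ := by
        refine sum_congr rfl fun s hs => ?_
        rw [mul_sum]
        exact sum_congr rfl fun t ht => h2 s hs t ht

/-- second moment -/
lemma mom2 (S : Finset ℕ) (c : ℕ → ℂ) (X M : ℕ) (hX : ∀ n ∈ S, n ≤ X) (hM : X ^ 2 < M) :
    ∑ a ∈ range M, ∑ b ∈ range M,
      ‖∑ n ∈ S, c n * e (((a : ℝ) * n + (b : ℝ) * (n : ℝ) ^ 2) / M)‖ ^ 2 =
    (M : ℝ) ^ 2 * ∑ n ∈ S, ‖c n‖ ^ 2 := by
  have hM0 : 0 < M := by omega
  have hb : ∀ s ∈ S, (0 : ℤ) ≤ s ∧ (s : ℤ) ≤ X := fun s hs => ⟨by positivity, by exact_mod_cast hX s hs⟩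
  have hMZ : (X : ℤ) ^ 2 < M := by exact_mod_cast hM
  have h := pars S c (fun n => (n : ℤ)) (fun n => (n : ℤ) ^ 2) M hM0
    (fun s hs t ht => by
      have h1 := hb s hs
      have h2 := hb t ht
      have h3 : (X : ℤ) < M := by
        rcases Nat.eq_zero_or_pos X with h0 | h0
        · subst h0; exact_mod_cast hM0
        · have : (1 : ℤ) ≤ X := by exact_mod_cast h0
          nlinarith
      simp only [abs_lt]
      constructor <;> linarith)
    (fun s hs t ht => by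
      have h1 := hb s hs
      have h2 := hb t ht
      simp only [abs_lt]
      constructor <;> nlinarith)
  have h5 : ((∑ a ∈ range M, ∑ b ∈ range M,
      ‖∑ n ∈ S, c n * e (((a : ℝ) * n + (b : ℝ) * (n : ℝ) ^ 2) / M)‖ ^ 2 : ℝ) : ℂ) =
      (((M : ℝ) ^ 2 * ∑ n ∈ S, ‖c n‖ ^ 2 : ℝ) : ℂ) := by
    have e1 : ∀ a b : ℕ, ∑ n ∈ S, c n * e (((a : ℝ) * n + (b : ℝ) * (n : ℝ) ^ 2) / M) =
        ∑ n ∈ S, c n * e (((a : ℝ) * ((n : ℤ) : ℝ) + (b : ℝ) * (((n : ℤ) ^ 2 : ℤ) : ℝ)) / M) := by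
      intro a b
      refine sum_congr rfl fun n _ => ?_
      push_cast; rfl
    simp only [e1]
    rw [h]
    push_cast
    congr 1
    refine sum_congr rfl fun s hs => ?_
    rw [sum_eq_single s]
    · simp [Complex.mul_conj']
    · intro t _ hts
      rw [if_neg]
      rintro ⟨h6, _⟩
      exact hts (by exact_mod_cast h6.symm)
    · intro h6; exact absurd hs h6
  exact_mod_cast h5

lemma two_sq {a b c d : ℤ} (h1 : a + b = c + d) (h2 : a ^ 2 + b ^ 2 = c ^ 2 + d ^ 2) :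
    (c = a ∧ d = b) ∨ (c = b ∧ d = a) := by
  have h3 : (c - a) * (c - b) = 0 := by
    have hd : d = a + b - c := by omega
    subst hd
    nlinarith
  rcases mul_eq_zero.1 h3 with h4 | h4
  · left; constructor <;> omega
  · right; constructor <;> omega

/-- fourth moment -/
lemma mom4 (S : Finset ℕ) (c : ℕ → ℂ) (X M : ℕ) (hX : ∀ n ∈ S, n ≤ X) (hM : 2 * X ^ 2 < M) :
    ∑ a ∈ range M, ∑ b ∈ range M,
      ‖∑ n ∈ S, c n * e (((a : ℝ) * n + (b : ℝ) * (n : ℝ) ^ 2) / M)‖ ^ 4 ≤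
    2 * (M : ℝ) ^ 2 * (∑ n ∈ S, ‖c n‖ ^ 2) ^ 2 := by
  have hM0 : 0 < M := by omega
  have hb : ∀ s ∈ S, (0 : ℤ) ≤ s ∧ (s : ℤ) ≤ X := fun s hs => ⟨by positivity, by exact_mod_cast hX s hs⟩
  have hMZ : 2 * (X : ℤ) ^ 2 < M := by exact_mod_cast hM
  have h := pars (S ×ˢ S) (fun p => c p.1 * c p.2) (fun p => (p.1 : ℤ) + p.2)
    (fun p => (p.1 : ℤ) ^ 2 + (p.2 : ℤ) ^ 2) M hM0
    (fun s hs t ht => by
      have h1 := hb s.1 (mem_product.1 hs).1
      have h1' := hb s.2 (mem_product.1 hs).2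
      have h2 := hb t.1 (mem_product.1 ht).1
      have h2' := hb t.2 (mem_product.1 ht).2
      have h3 : 2 * (X : ℤ) ≤ 2 * (X : ℤ) ^ 2 := by
        rcases Nat.eq_zero_or_pos X with h0 | h0
        · subst h0; simp
        · have : (1 : ℤ) ≤ X := by exact_mod_cast h0
          nlinarith
      simp only [abs_lt]
      constructor <;> linarith)
    (fun s hs t ht => by
      have h1 := hb s.1 (mem_product.1 hs).1
      have h1' := hb s.2 (mem_product.1 hs).2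
      have h2 := hb t.1 (mem_product.1 ht).1
      have h2' := hb t.2 (mem_product.1 ht).2
      simp only [abs_lt]
      constructor <;> nlinarith)
  have e1 : ∀ a b : ℕ, ‖∑ n ∈ S, c n * e (((a : ℝ) * n + (b : ℝ) * (n : ℝ) ^ 2) / M)‖ ^ 4 =
      ‖∑ p ∈ S ×ˢ S, (c p.1 * c p.2) *
        e (((a : ℝ) * (((p.1 : ℤ) + p.2 : ℤ) : ℝ) + (b : ℝ) * (((p.1 : ℤ) ^ 2 + (p.2 : ℤ) ^ 2 : ℤ) : ℝ)) / M)‖ ^ 2 := by
    intro a b
    rw [show (4 : ℕ) = 2 * 2 by norm_num, pow_mul, ← norm_pow, sq (∑ n ∈ S, _), sum_mul_sum, sum_product]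
    congr 2
    refine sum_congr rfl fun n _ => sum_congr rfl fun m _ => ?_
    rw [mul_mul_mul_comm, ← e_add]
    congr 2
    push_cast
    ring
  simp only [e1]
  have h6 : (0 : ℝ) ≤ ∑ a ∈ range M, ∑ b ∈ range M, ‖∑ p ∈ S ×ˢ S, (c p.1 * c p.2) *
        e (((a : ℝ) * (((p.1 : ℤ) + p.2 : ℤ) : ℝ) + (b : ℝ) * (((p.1 : ℤ) ^ 2 + (p.2 : ℤ) ^ 2 : ℤ) : ℝ)) / M)‖ ^ 2 := by
    positivity
  have h7 := congrArg norm h
  rw [Complex.norm_real, Real.norm_of_nonneg h6] at h7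
  rw [h7, norm_mul, norm_pow, Complex.norm_natCast]
  have h8 : ‖∑ s ∈ S ×ˢ S, ∑ t ∈ S ×ˢ S,
      if (s.1 : ℤ) + s.2 = (t.1 : ℤ) + t.2 ∧ (s.1 : ℤ) ^ 2 + (s.2 : ℤ) ^ 2 = (t.1 : ℤ) ^ 2 + (t.2 : ℤ) ^ 2
      then c s.1 * c s.2 * (starRingEnd ℂ) (c t.1 * c t.2) else 0‖ ≤ 2 * (∑ n ∈ S, ‖c n‖ ^ 2) ^ 2 := by
    calc _ ≤ ∑ s ∈ S ×ˢ S, 2 * (‖c s.1‖ ^ 2 * ‖c s.2‖ ^ 2) := by
          refine (norm_sum_le _ _).trans (sum_le_sum fun s hs => ?_)
          have hs' := mem_product.1 hs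
          calc _ ≤ ∑ t ∈ S ×ˢ S, (if t = s then ‖c s.1‖ ^ 2 * ‖c s.2‖ ^ 2 else 0) +
                ∑ t ∈ S ×ˢ S, (if t = (s.2, s.1) then ‖c s.1‖ ^ 2 * ‖c s.2‖ ^ 2 else 0) := by
                rw [← sum_add_distrib]
                refine (norm_sum_le _ _).trans (sum_le_sum fun t _ => ?_)
                have hn1 : (0 : ℝ) ≤ if t = s then ‖c s.1‖ ^ 2 * ‖c s.2‖ ^ 2 else 0 := by
                  split_ifs <;> positivity
                have hn2 : (0 : ℝ) ≤ if t = (s.2, s.1) then ‖c s.1‖ ^ 2 * ‖c s.2‖ ^ 2 else 0 := by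
                  split_ifs <;> positivity
                by_cases h9 : (s.1 : ℤ) + s.2 = (t.1 : ℤ) + t.2 ∧
                    (s.1 : ℤ) ^ 2 + (s.2 : ℤ) ^ 2 = (t.1 : ℤ) ^ 2 + (t.2 : ℤ) ^ 2
                · rw [if_pos h9]
                  simp only [norm_mul, RCLike.norm_conj, map_mul]
                  rcases two_sq h9.1 h9.2 with ⟨h10, h11⟩ | ⟨h10, h11⟩
                  · have h10' : t.1 = s.1 := by exact_mod_cast h10
                    have h11' : t.2 = s.2 := by exact_mod_cast h11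
                    have : t = s := Prod.ext h10' h11'
                    rw [if_pos this, h10', h11']
                    have : ‖c s.1‖ * ‖c s.2‖ * (‖c s.1‖ * ‖c s.2‖) = ‖c s.1‖ ^ 2 * ‖c s.2‖ ^ 2 := by ring
                    linarith
                  · have h10' : t.1 = s.2 := by exact_mod_cast h10
                    have h11' : t.2 = s.1 := by exact_mod_cast h11
                    have : t = (s.2, s.1) := Prod.ext h10' h11'
                    rw [if_pos this, h10', h11']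
                    have : ‖c s.1‖ * ‖c s.2‖ * (‖c s.2‖ * ‖c s.1‖) = ‖c s.1‖ ^ 2 * ‖c s.2‖ ^ 2 := by ring
                    linarith
                · rw [if_neg h9, norm_zero]
                  linarith
            _ ≤ _ := by
                rw [sum_ite_eq', sum_ite_eq']
                rw [if_pos hs, if_pos (mem_product.2 ⟨hs'.2, hs'.1⟩)]
                linarith
      _ = _ := by
          rw [← mul_sum, sq (∑ n ∈ S, ‖c n‖ ^ 2), sum_mul_sum, sum_product]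
  nlinarith [sq_nonneg (M : ℝ)]

/-- lower bound for the first moment -/
lemma mom1 (S : Finset ℕ) (c : ℕ → ℂ) (X M : ℕ) (hX : ∀ n ∈ S, n ≤ X) (hM : 2 * X ^ 2 < M) :
    (M : ℝ) ^ 2 * Real.sqrt (∑ n ∈ S, ‖c n‖ ^ 2) ≤ 4 * ∑ a ∈ range M, ∑ b ∈ range M,
      ‖∑ n ∈ S, c n * e (((a : ℝ) * n + (b : ℝ) * (n : ℝ) ^ 2) / M)‖ := by
  set W := ∑ n ∈ S, ‖c n‖ ^ 2 with hW
  have hW0 : 0 ≤ W := sum_nonneg fun _ _ => by positivity
  rcases hW0.eq_or_lt with h0 | h0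
  · rw [← h0]; simp only [Real.sqrt_zero, mul_zero]; positivity
  have h2 := mom2 S c X M hX (by omega)
  have h4 := mom4 S c X M hX hM
  rw [← hW] at h2 h4
  set r := Real.sqrt W with hr
  have hr0 : 0 < r := Real.sqrt_pos.2 h0
  have hrW : r ^ 2 = W := Real.sq_sqrt hW0
  -- `x² ≤ 2 r x + x⁴ / (4 r²)`
  have hp : ∀ x : ℝ, 0 ≤ x → x ^ 2 ≤ 2 * r * x + x ^ 4 / (4 * r ^ 2) := by
    intro x hx
    by_cases h5 : x ≤ 2 * r
    · have h6 : 0 ≤ x ^ 4 / (4 * r ^ 2) := by positivity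
      nlinarith
    · have h6 : x ^ 2 ≤ x ^ 4 / (4 * r ^ 2) := by
        rw [le_div_iff₀ (by positivity)]
        have h7 : 2 * r < x := not_le.1 h5
        have h8 : 4 * r ^ 2 ≤ x ^ 2 := by nlinarith
        nlinarith [sq_nonneg x]
      nlinarith
  have h5 : (M : ℝ) ^ 2 * W ≤ 2 * r * (∑ a ∈ range M, ∑ b ∈ range M,
      ‖∑ n ∈ S, c n * e (((a : ℝ) * n + (b : ℝ) * (n : ℝ) ^ 2) / M)‖) +
      2 * (M : ℝ) ^ 2 * W ^ 2 / (4 * r ^ 2) := by
    rw [← h2]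
    calc _ ≤ ∑ a ∈ range M, ∑ b ∈ range M,
        (2 * r * ‖∑ n ∈ S, c n * e (((a : ℝ) * n + (b : ℝ) * (n : ℝ) ^ 2) / M)‖ +
          ‖∑ n ∈ S, c n * e (((a : ℝ) * n + (b : ℝ) * (n : ℝ) ^ 2) / M)‖ ^ 4 / (4 * r ^ 2)) :=
          sum_le_sum fun a _ => sum_le_sum fun b _ => hp _ (norm_nonneg _)
      _ = 2 * r * (∑ a ∈ range M, ∑ b ∈ range M,
            ‖∑ n ∈ S, c n * e (((a : ℝ) * n + (b : ℝ) * (n : ℝ) ^ 2) / M)‖) +
          (∑ a ∈ range M, ∑ b ∈ range M,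
            ‖∑ n ∈ S, c n * e (((a : ℝ) * n + (b : ℝ) * (n : ℝ) ^ 2) / M)‖ ^ 4) / (4 * r ^ 2) := by
          simp only [sum_add_distrib, ← mul_sum, ← sum_div]
      _ ≤ _ := by gcongr
  have h6 : 2 * (M : ℝ) ^ 2 * W ^ 2 / (4 * r ^ 2) = (M : ℝ) ^ 2 * W / 2 := by
    rw [hrW]; field_simp; ring
  rw [h6] at h5
  have h7 : (M : ℝ) ^ 2 * r ^ 2 ≤ (4 * (∑ a ∈ range M, ∑ b ∈ range M,
      ‖∑ n ∈ S, c n * e (((a : ℝ) * n + (b : ℝ) * (n : ℝ) ^ 2) / M)‖)) * r := by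
    rw [hrW]; linarith
  have h8 : ((M : ℝ) ^ 2 * r) * r ≤ (4 * (∑ a ∈ range M, ∑ b ∈ range M,
      ‖∑ n ∈ S, c n * e (((a : ℝ) * n + (b : ℝ) * (n : ℝ) ^ 2) / M)‖)) * r := by
    calc _ = (M : ℝ) ^ 2 * r ^ 2 := by ring
      _ ≤ _ := h7
  exact le_of_mul_le_mul_right h8 hr0

/-- a large partial sum -/
lemma subset_sum {ι : Type} (S : Finset ι) (z : ι → ℂ) :
    ∃ T ⊆ S, ∑ i ∈ S, ‖z i‖ ≤ 4 * ‖∑ i ∈ T, z i‖ := by
  classical
  have key : ∀ f : ℂ → ℝ, (∀ w, f w ≤ ‖w‖) → (∀ (T : Finset ι), f (∑ i ∈ T, z i) = ∑ i ∈ T, f (z i)) →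
      ∃ T ⊆ S, ∑ i ∈ S, max (f (z i)) 0 ≤ ‖∑ i ∈ T, z i‖ := by
    intro f hf hadd
    refine ⟨S.filter (fun i => 0 ≤ f (z i)), filter_subset _ _, ?_⟩
    have h1 : ∑ i ∈ S, max (f (z i)) 0 = ∑ i ∈ S.filter (fun i => 0 ≤ f (z i)), f (z i) := by
      rw [sum_filter]
      refine sum_congr rfl fun i _ => ?_
      split_ifs with h
      · exact max_eq_left h
      · exact max_eq_right (not_le.1 h).le
    rw [h1, ← hadd]
    exact hf _
  obtain ⟨T1, h1, h1'⟩ := key (fun w => w.re) (fun w => Complex.re_le_norm w) (fun T => by simp)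
  obtain ⟨T2, h2, h2'⟩ := key (fun w => - w.re)
    (fun w => (neg_le_abs _).trans (Complex.abs_re_le_norm w)) (fun T => by simp)
  obtain ⟨T3, h3, h3'⟩ := key (fun w => w.im) (fun w => (le_abs_self _).trans (Complex.abs_im_le_norm w))
    (fun T => by simp)
  obtain ⟨T4, h4, h4'⟩ := key (fun w => - w.im)
    (fun w => (neg_le_abs _).trans (Complex.abs_im_le_norm w)) (fun T => by simp)
  have h5 : ∑ i ∈ S, ‖z i‖ ≤ ∑ i ∈ S, max (z i).re 0 + ∑ i ∈ S, max (-(z i).re) 0 +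
      ∑ i ∈ S, max (z i).im 0 + ∑ i ∈ S, max (-(z i).im) 0 := by
    simp only [← sum_add_distrib]
    refine sum_le_sum fun i _ => ?_
    have h6 := Complex.norm_le_abs_re_add_abs_im (z i)
    have h7 : |(z i).re| = max (z i).re 0 + max (-(z i).re) 0 := by
      rcases le_total 0 (z i).re with h | h
      · rw [abs_of_nonneg h, max_eq_left h, max_eq_right (by linarith)]; ring
      · rw [abs_of_nonpos h, max_eq_right h, max_eq_left (by linarith)]; ring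
    have h8 : |(z i).im| = max (z i).im 0 + max (-(z i).im) 0 := by
      rcases le_total 0 (z i).im with h | h
      · rw [abs_of_nonneg h, max_eq_left h, max_eq_right (by linarith)]; ring
      · rw [abs_of_nonpos h, max_eq_right h, max_eq_left (by linarith)]; ring
    linarith
  by_contra hcon
  push Not at hcon
  have g1 := hcon T1 h1
  have g2 := hcon T2 h2
  have g3 := hcon T3 h3
  have g4 := hcon T4 h4
  linarith

end Pool.Agent.Helper11.EP
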