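import Pool.Agent.Helper11.EP.Orth

/-! # Statements of the classical derivative tests of van der Corput (for sums) -/

set_option autoImplicit false

namespace Pool.Agent.Helper11.EP

/-- The second derivative test: `|∑_{M ≤ n ≤ L} e(f(n))| ≤ K h ((L - M + 1) √λ + 1 / √λ)` if
`λ ≤ |f''| ≤ h λ`. -/
def S_VDC2 : Prop := ∃ K : ℝ, ∀ (M L : ℕ) (f f1 f2 : ℝ → ℝ) (lam h : ℝ), M ≤ L → 0 < lam → 1 ≤ h →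
  (∀ x ∈ Set.Icc (M : ℝ) L, HasDerivWithinAt f (f1 x) (Set.Icc (M : ℝ) L) x) →
  (∀ x ∈ Set.Icc (M : ℝ) L, HasDerivWithinAt f1 (f2 x) (Set.Icc (M : ℝ) L) x) →
  (∀ x ∈ Set.Icc (M : ℝ) L, lam ≤ |f2 x| ∧ |f2 x| ≤ h * lam) →
  ‖∑ n ∈ Finset.Icc M L, e (f n)‖ ≤
    K * h * (((L : ℝ) - M + 1) * Real.sqrt lam + 1 / Real.sqrt lam)

/-- The third derivative test. -/
def S_VDC3 : Prop := ∃ K : ℝ, ∀ (M L : ℕ) (f f1 f2 f3 : ℝ → ℝ) (lam h : ℝ), M ≤ L → 0 < lam → 1 ≤ h →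
  (∀ x ∈ Set.Icc (M : ℝ) L, HasDerivWithinAt f (f1 x) (Set.Icc (M : ℝ) L) x) →
  (∀ x ∈ Set.Icc (M : ℝ) L, HasDerivWithinAt f1 (f2 x) (Set.Icc (M : ℝ) L) x) →
  (∀ x ∈ Set.Icc (M : ℝ) L, HasDerivWithinAt f2 (f3 x) (Set.Icc (M : ℝ) L) x) →
  (∀ x ∈ Set.Icc (M : ℝ) L, lam ≤ |f3 x| ∧ |f3 x| ≤ h * lam) →
  ‖∑ n ∈ Finset.Icc M L, e (f n)‖ ≤
    K * h * (((L : ℝ) - M + 1) * lam ^ (1 / 6 : ℝ) + ((L : ℝ) - M + 1) ^ (1 / 2 : ℝ) * lam ^ (-(1 / 6) : ℝ))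

end Pool.Agent.Helper11.EP
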